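import Pool.Agent.Helper56.SA.Rk

/-! The half structural rank theorem for the spaces of linear forms. -/

set_option autoImplicit false

namespace Pool.Agent.Helper56.SA

open Pool.Agent.Helper35.EM Pool.Agent.Helper56.EM Module Submodule Set Matrix

/-- the rank under linear functionals is at most doubled -/
def HR (v : ℂ) (W : Submodule kk ℂ) : Prop :=
  ∀ (d l : ℕ) (A : Matrix (Fin d) (Fin l) ℂ) (φ : ℂ →ₗ[kk] kk), (∀ i j, A i j ∈ W) → φ 1 ≠ 0 →
    φ v ≠ 0 → (A.map fun z => (φ z : ℂ)).rank ≤ 2 * A.rank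

theorem HR.mono {v : ℂ} {W W' : Submodule kk ℂ} (h : HR v W) (hle : W' ≤ W) : HR v W' :=
  fun d l A φ hA => h d l A φ fun i j => hle (hA i j)

theorem kk_smul (c : kk) (z : ℂ) : c • z = (c : ℂ) * z := by
  rw [Algebra.smul_def]; rfl

theorem phi_mul (φ : ℂ →ₗ[kk] kk) (c : kk) (z : ℂ) : (φ ((c : ℂ) * z) : ℂ) = c * φ z := by
  rw [← kk_smul, map_smul, smul_eq_mul]; rfl

theorem phi_kk (φ : ℂ →ₗ[kk] kk) (c : kk) : (φ (c : ℂ) : ℂ) = c * φ 1 := by
  have := phi_mul φ c 1
  rwa [mul_one] at this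

theorem phi_add (φ : ℂ →ₗ[kk] kk) (x y : ℂ) : (φ (x + y) : ℂ) = φ x + φ y := by
  rw [map_add]; rfl

theorem HR.step {v : ℂ} {W : Submodule kk ℂ} (h : HR v W) {s : Set ℂ}
    (hW : ∀ x ∈ W, x ∈ M.closure s) (h1 : (1 : ℂ) ∈ W) {x : ℂ} (hx : x ∉ M.closure s) :
    HR v (W ⊔ span kk {x}) := by
  intro d l A φ hA hφ1 hφv
  have hq : ∀ i j, ∃ u ∈ W, ∃ c : kk, A i j = u + (c : ℂ) * x := by
    intro i j
    obtain ⟨u, hu, z, hz, huz⟩ := Submodule.mem_sup.1 (hA i j)
    obtain ⟨c, rfl⟩ := Submodule.mem_span_singleton.1 hz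
    exact ⟨u, hu, c, by rw [← huz, kk_smul]⟩
  choose u hu c hc using hq
  set y : kk := φ x / φ 1 with hy
  have hyx : (y : ℂ) * φ 1 = φ x := by
    have : y * φ 1 = φ x := by rw [hy]; field_simp
    exact_mod_cast congrArg (fun z : kk => (z : ℂ)) this
  have e1 : A = Matrix.of fun i j => u i j + (c i j : ℂ) * x := by
    ext i j; exact hc i j
  have h2 := spec1 hx (y : ℂ) (Matrix.of u) (Matrix.of fun i j => (c i j : ℂ))
    (fun i j => hW _ (hu i j)) (fun i j => kk_le (c i j).2)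
  have h3 := h d l (Matrix.of fun i j => u i j + (c i j : ℂ) * y) φ (fun i j => by
    refine Submodule.add_mem _ (hu i j) ?_
    have : (c i j : ℂ) * y = (c i j * y) • (1 : ℂ) := by rw [kk_smul]; push_cast; ring
    rw [this]
    exact Submodule.smul_mem _ _ h1) hφ1 hφv
  have e4 : (A.map fun z => (φ z : ℂ)) =
      (Matrix.of fun i j => u i j + (c i j : ℂ) * y).map fun z => (φ z : ℂ) := by
    ext i j
    simp only [Matrix.map_apply, Matrix.of_apply]
    rw [hc i j, phi_add, phi_add, phi_mul, phi_mul, phi_kk, hyx]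
  rw [e4]
  refine h3.trans ?_
  rw [e1]
  exact Nat.mul_le_mul_left 2 h2

theorem hr1 (v : ℂ) : HR v (span kk {1}) := by
  intro d l A φ hA _ _
  have hq : ∀ i j, ∃ c : kk, A i j = (c : ℂ) := by
    intro i j
    obtain ⟨c, hc⟩ := Submodule.mem_span_singleton.1 (hA i j)
    exact ⟨c, by rw [← hc, kk_smul, mul_one]⟩
  choose c hc using hq
  refine two_spec (A := A) (B := A) (c := φ 1) (c' := 0) le_rfl le_rfl fun i j => ?_
  rw [Matrix.map_apply, hc i j, phi_kk]
  ring

/-- another functional -/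
theorem HR.all {v : ℂ} (hv : v ≠ 0) {W : Submodule kk ℂ} (h : HR v W) {d l : ℕ}
    (A : Matrix (Fin d) (Fin l) ℂ) (hA : ∀ i j, A i j ∈ W) (φ : ℂ →ₗ[kk] kk) :
    (A.map fun z => (φ z : ℂ)).rank ≤ 2 * A.rank := by
  obtain ⟨ψ, hψ⟩ := Module.exists_dual_forall_apply_ne_zero (K := kk) (v := (![1, v] : Fin 2 → ℂ))
    (by intro i; fin_cases i <;> simp [hv])
  have hψ1 : (ψ 1 : ℂ) ≠ 0 := by
    have := hψ 0
    intro h0
    exact this (Subtype.ext h0)
  have hψv : (ψ v : ℂ) ≠ 0 := by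
    have := hψ 1
    intro h0
    exact this (Subtype.ext h0)
  obtain ⟨f, g, hm⟩ := exists_minor (A.map fun z => (φ z : ℂ)) rfl
  set P : Matrix (Fin d) (Fin l) (Polynomial ℂ) :=
    Matrix.of fun i j => Polynomial.C (φ (A i j) : ℂ) + Polynomial.C (ψ (A i j) : ℂ) * Polynomial.X
    with hP
  set Q : Polynomial ℂ := (P.submatrix f g).det *
    ((Polynomial.C (φ 1 : ℂ) + Polynomial.C (ψ 1 : ℂ) * Polynomial.X) *
      (Polynomial.C (φ v : ℂ) + Polynomial.C (ψ v : ℂ) * Polynomial.X)) with hQ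
  have hlin : ∀ a b : ℂ, b ≠ 0 → Polynomial.C a + Polynomial.C b * Polynomial.X ≠ 0 := by
    intro a b hb h0
    have := congrArg (fun p => Polynomial.coeff p 1) h0
    simp at this
    exact hb this
  have hdet : ∀ t : ℂ, Polynomial.eval t (P.submatrix f g).det =
      ((Matrix.of fun i j => (φ (A i j) : ℂ) + (ψ (A i j) : ℂ) * t).submatrix f g).det := by
    intro t
    rw [← Polynomial.coe_evalRingHom, RingHom.map_det]
    congr 1
    ext i j
    simp [hP]
  have hQ0 : Q ≠ 0 := by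
    refine mul_ne_zero ?_ (mul_ne_zero (hlin _ _ hψ1) (hlin _ _ hψv))
    intro h0
    have h1 := hdet 0
    rw [h0, Polynomial.eval_zero] at h1
    apply hm
    rw [h1]
    congr 1
    ext i j
    simp
  obtain ⟨t, ht⟩ : ∃ t : kk, Polynomial.eval (t : ℂ) Q ≠ 0 := by
    by_contra hcon
    push Not at hcon
    apply hQ0
    apply Polynomial.eq_zero_of_infinite_isRoot
    refine Set.Infinite.mono (s := range fun t : kk => (t : ℂ)) ?_ ?_
    · rintro _ ⟨t, rfl⟩; exact hcon t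
    · exact Set.infinite_range_of_injective Subtype.val_injective
  rw [hQ, Polynomial.eval_mul, Polynomial.eval_mul] at ht
  have ht1 := left_ne_zero_of_mul ht
  have ht2 := left_ne_zero_of_mul (right_ne_zero_of_mul ht)
  have ht3 := right_ne_zero_of_mul (right_ne_zero_of_mul ht)
  have hval : ∀ z : ℂ, (((φ + t • ψ) z : kk) : ℂ) = φ z + (ψ z : ℂ) * t := by
    intro z
    rw [LinearMap.add_apply, LinearMap.smul_apply, smul_eq_mul]
    push_cast
    ring
  have h3 := h d l A (φ + t • ψ) hA (by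
    intro h0
    apply ht2
    have := hval 1
    rw [h0] at this
    simp only [Polynomial.eval_add, Polynomial.eval_mul, Polynomial.eval_C, Polynomial.eval_X]
    rw [← this]; rfl) (by
    intro h0
    apply ht3
    have := hval v
    rw [h0] at this
    simp only [Polynomial.eval_add, Polynomial.eval_mul, Polynomial.eval_C, Polynomial.eval_X]
    rw [← this]; rfl)
  refine le_trans (rank_ge_of_minor _ f g ?_) h3
  rw [hdet] at ht1
  have e : (A.map fun z => (((φ + t • ψ) z : kk) : ℂ)) =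
      Matrix.of fun i j => (φ (A i j) : ℂ) + (ψ (A i j) : ℂ) * t := by
    ext i j; exact hval _
  rw [e]
  exact ht1

section

variable {K : IntermediateField ℚ ℂ}

theorem HR.gen {v : ℂ} {W : Submodule kk ℂ} (h : HR v W) (h1 : (1 : ℂ) ∈ W) {s : Set ℂ}
    (hW : ∀ x ∈ W, x ∈ M.closure s) (w : List K) (hw : Gn s w) :
    HR v (W ⊔ span kk (lc w)) ∧ ∀ x ∈ W ⊔ span kk (lc w), x ∈ M.closure (s ∪ lc w) := by
  induction w with
  | nil =>
    have : lc ([] : List K) = ∅ := by simp [lc, ls]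
    rw [this, span_empty, sup_bot_eq, union_empty]
    exact ⟨h, hW⟩
  | cons x w ih =>
    obtain ⟨h2, h3⟩ := ih hw.2
    have e : W ⊔ span kk (lc (x :: w)) = (W ⊔ span kk (lc w)) ⊔ span kk {(x : ℂ)} := by
      rw [lc_cons, Submodule.span_insert, sup_assoc, sup_comm (span kk {(x : ℂ)})]
    rw [e]
    refine ⟨h2.step h3 (Submodule.mem_sup_left h1) hw.1, ?_⟩
    intro y hy
    have hsub : s ∪ lc w ⊆ s ∪ lc (x :: w) := by
      rw [lc_cons]; exact union_subset_union_right _ (subset_insert _ _)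
    obtain ⟨v, hv, z, hz, rfl⟩ := Submodule.mem_sup.1 hy
    obtain ⟨q, rfl⟩ := Submodule.mem_span_singleton.1 hz
    refine cl_add (cl_mono hsub (h3 v hv)) (smul_cl q (cl_self (Or.inr ?_)))
    rw [lc_cons]; exact mem_insert _ _

end

end Pool.Agent.Helper56.SA
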