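import Pool.Agent.Helper56.SA.Tow

/-! Schanuel's inequality with a defect. -/

set_option autoImplicit false

namespace Pool.Agent.Helper56.SA

open Pool.Agent.Helper35.EM Pool.Agent.Helper56.EM Module Submodule Set

/-- the inequality with defect `k` in the space `P` of pairs in the closure of `s` -/
structure Dfk (P : Submodule ℚ (ℂ × ℂ)) (s : Set ℂ) (k : ℕ) : Prop where
  fin : FiniteDimensional ℚ P
  cl : ∀ q ∈ P, q.1 ∈ M.closure s ∧ Complex.exp q.2 ∈ M.closure s
  df : ∀ U ≤ P, (finrank ℚ U : ℕ∞) ≤ M.eRk (co U) + k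

theorem Dfk.bot : Dfk ⊥ ∅ 0 := by
  refine ⟨inferInstance, ?_, ?_⟩
  · rintro q rfl
    exact ⟨cl_zero _, by
      show Complex.exp 0 ∈ _
      rw [Complex.exp_zero]; exact cl_one _⟩
  · intro U hU
    have : U = ⊥ := le_bot_iff.1 hU
    subst this
    rw [finrank_bot]
    simp

theorem Dfk.mono {P P' : Submodule ℚ (ℂ × ℂ)} {s : Set ℂ} {k : ℕ} (h : Dfk P s k) (hle : P' ≤ P) :
    Dfk P' s k := by
  have := h.fin
  exact ⟨Submodule.finiteDimensional_of_le hle, fun q hq => h.cl q (hle hq),
    fun U hU => h.df U (hU.trans hle)⟩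

theorem Dfk.step {P : Submodule ℚ (ℂ × ℂ)} {s s' : Set ℂ} {k : ℕ} (h : Dfk P s k)
    (hs : s ⊆ M.closure s') {w : ℂ × ℂ} (h1 : w.1 ∈ M.closure s')
    (h2 : Complex.exp w.2 ∈ M.closure s') (c : Prop) [Decidable c]
    (hc : c → w.1 ∉ M.closure s ∨ Complex.exp w.2 ∉ M.closure s) :
    Dfk (P ⊔ span ℚ {w}) s' (k + if c then 0 else 1) := by
  have hfP := h.fin
  refine ⟨inferInstance, ?_, ?_⟩
  · intro q hq
    obtain ⟨u, hu, z, hz, rfl⟩ := Submodule.mem_sup.1 hq
    obtain ⟨b, rfl⟩ := Submodule.mem_span_singleton.1 hz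
    obtain ⟨g1, g2⟩ := h.cl u hu
    refine ⟨cl_add (cl_le hs g1) (cl_smul b h1), ?_⟩
    exact cl_exp_add (cl_le hs g2) (cl_exp_smul b h2)
  · intro U hU
    have hfU : FiniteDimensional ℚ U := Submodule.finiteDimensional_of_le hU
    by_cases hUP : U ≤ P
    · refine (h.df U hUP).trans ?_
      gcongr
      omega
    · obtain ⟨u, hu, huP⟩ := SetLike.not_le_iff_exists.1 hUP
      obtain ⟨v, hv, z, hz, hvz⟩ := Submodule.mem_sup.1 (hU hu)
      obtain ⟨b, rfl⟩ := Submodule.mem_span_singleton.1 hz
      have hb : b ≠ 0 := by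
        rintro rfl
        rw [zero_smul, add_zero] at hvz
        exact huP (hvz ▸ hv)
      set U0 := U ⊓ P with hU0
      have hfU0 : FiniteDimensional ℚ U0 := Submodule.finiteDimensional_of_le inf_le_left
      have hle : U ≤ U0 ⊔ span ℚ {u} := by
        intro u' hu'
        obtain ⟨v', hv', z', hz', hvz'⟩ := Submodule.mem_sup.1 (hU hu')
        obtain ⟨b', rfl⟩ := Submodule.mem_span_singleton.1 hz'
        have e : u' = (u' - (b' / b) • u) + (b' / b) • u := by abel
        rw [e]
        refine Submodule.add_mem_sup ⟨?_, ?_⟩ (Submodule.mem_span_singleton.2 ⟨_, rfl⟩)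
        · exact Submodule.sub_mem _ hu' (Submodule.smul_mem _ _ hu)
        · have e2 : u' - (b' / b) • u = v' - (b' / b) • v := by
            rw [← hvz', ← hvz, smul_add, smul_smul, div_mul_cancel₀ _ hb]
            abel
          rw [e2]
          exact Submodule.sub_mem _ hv' (Submodule.smul_mem _ _ hv)
      have hd : finrank ℚ U ≤ finrank ℚ U0 + 1 := by
        have g1 := Submodule.finrank_mono hle
        have g2 := Submodule.finrank_add_le_finrank_add_finrank U0 (span ℚ {u})
        have g3 : finrank ℚ (span ℚ {u}) ≤ 1 := finrank_span_le_card (R := ℚ) ({u} : Set (ℂ × ℂ)) |>.trans (by simp)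
        omega
      have hd' : (finrank ℚ U : ℕ∞) ≤ M.eRk (co U0) + k + 1 := by
        have g1 : (finrank ℚ U : ℕ∞) ≤ (finrank ℚ U0 : ℕ∞) + 1 := by exact_mod_cast hd
        refine g1.trans ?_
        gcongr
        exact h.df U0 inf_le_right
      by_cases hcc : c
      · rw [if_pos hcc, add_zero]
        obtain ⟨a, ha, hal⟩ : ∃ a ∈ co U, a ∉ M.closure s := by
          rcases hc hcc with h3 | h3
          · refine ⟨u.1, ⟨u, hu, Or.inl rfl⟩, fun h4 => h3 ?_⟩
            rw [← hvz] at h4
            have h5 : b • w.1 ∈ M.closure s := by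
              have := cl_sub h4 (h.cl v hv).1
              have e : (v + b • w).1 - v.1 = b • w.1 := by
                rw [Prod.fst_add, Prod.smul_fst]; ring
              rwa [e] at this
            have := cl_smul b⁻¹ h5
            rwa [smul_smul, inv_mul_cancel₀ hb, one_smul] at this
          · refine ⟨Complex.exp u.2, ⟨u, hu, Or.inr rfl⟩, fun h4 => h3 ?_⟩
            rw [← hvz] at h4
            have h5 : Complex.exp (b • w.2) ∈ M.closure s := by
              have := cl_div h4 (h.cl v hv).2
              have e : Complex.exp (v + b • w).2 / Complex.exp v.2 = Complex.exp (b • w.2) := by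
                rw [Prod.snd_add, Prod.smul_snd, Complex.exp_add]
                field_simp
              rwa [e] at this
            have := cl_exp_smul b⁻¹ h5
            rwa [smul_smul, inv_mul_cancel₀ hb, one_smul] at this
        have h6 : M.eRk (co U0) + 1 ≤ M.eRk (co U) := by
          have h7 : a ∉ M.closure (co U0) := by
            intro h8
            apply hal
            refine cl_le ?_ h8
            rintro x ⟨q, hq, rfl | rfl⟩
            · exact (h.cl q hq.2).1
            · exact (h.cl q hq.2).2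
          rw [← Matroid.eRk_insert_eq_add_one ⟨mem_univ _, h7⟩]
          apply M.eRk_mono
          rintro x (rfl | hx)
          · exact ha
          · exact co_mono inf_le_left hx
        refine hd'.trans ?_
        rw [add_right_comm]
        gcongr
      · rw [if_neg hcc]
        refine hd'.trans ?_
        push_cast
        rw [add_assoc]
        gcongr
        exact M.eRk_mono (co_mono inf_le_left)

/-- the defect of the extension -/
theorem Tw.defect {K : IntermediateField ℚ ℂ} {lam : K →ₗ[ℚ] ℂ} {P0 : Submodule ℚ (ℂ × ℂ)}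
    (hT : Tw lam P0) {s : Set ℂ} {k : ℕ} (h : Dfk P0 s k) (V : Submodule ℚ K)
    (hV : FiniteDimensional ℚ V) :
    (finrank ℚ V : ℕ∞) ≤ M.eRk (co (V.map (gr lam))) + k := by
  have h1 := hT.rk V hV
  have h2 := h.df _ (inf_le_right : V.map (gr lam) ⊓ P0 ≤ P0)
  have htop : M.eRk (co (V.map (gr lam) ⊓ P0)) ≠ ⊤ :=
    ne_top_of_le_ne_top hT.top (M.eRk_mono (co_mono inf_le_right))
  have h3 := h1.trans (add_le_add_right h2 _)
  rw [← add_assoc, add_right_comm] at h3
  exact (ENat.add_le_add_iff_right htop).1 h3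

theorem trdeg_of_rk' (A : Set ℂ) {n : ℕ} (h : (n : ℕ∞) ≤ M.eRk A) :
    (n : Cardinal) ≤ Algebra.trdeg ℚ (IntermediateField.adjoin ℚ A) := by
  obtain ⟨I, hIA, hI, hIn⟩ := Matroid.le_eRk_iff.1 h
  have hmem : ∀ i : I, ∃ y : IntermediateField.adjoin ℚ A, (y : ℂ) = i := by
    rintro ⟨i, hi⟩
    exact ⟨⟨i, IntermediateField.subset_adjoin ℚ A (hIA hi)⟩, rfl⟩
  choose f hf using hmem
  have h1 : AlgebraicIndependent ℚ f := by
    let φ : IntermediateField.adjoin ℚ A →ₐ[ℚ] ℂ := (IntermediateField.adjoin ℚ A).val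
    have hφ : Function.Injective φ := φ.injective
    rw [← φ.algebraicIndependent_iff hφ]
    have : φ ∘ f = (Subtype.val : I → ℂ) := by
      funext i; exact hf i
    rw [this]
    exact hI
  have h2 := h1.cardinalMk_le_trdeg
  have h3 : Cardinal.mk I = n := by
    have hfin : I.Finite := by
      rw [← encard_lt_top_iff, hIn]; exact ENat.natCast_lt_top n
    have h5 : I.ncard = n := by
      rw [ncard, hIn]; rfl
    have h6 : Cardinal.mk I = (I.ncard : Cardinal) := (Set.cast_ncard hfin).symm
    rw [h6, h5]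
  rwa [h3] at h2

theorem trdeg_defect (A : Set ℂ) {n k : ℕ} (h : (n : ℕ∞) ≤ M.eRk A + k) :
    (n : Cardinal) ≤ Algebra.trdeg ℚ (IntermediateField.adjoin ℚ A) + (k : Cardinal) := by
  by_cases hk : n ≤ k
  · have : (n : Cardinal) ≤ (k : Cardinal) := by exact_mod_cast hk
    exact this.trans le_add_self
  · obtain ⟨m, rfl⟩ := Nat.exists_eq_add_of_le (not_le.1 hk).le
    have h1 : (m : ℕ∞) ≤ M.eRk A := by
      have h2 : (m : ℕ∞) + k ≤ M.eRk A + k := by
        refine le_trans (le_of_eq ?_) h
        push_cast; rw [add_comm]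
      exact (ENat.add_le_add_iff_right (by simp)).1 h2
    have h2 := trdeg_of_rk' A h1
    push_cast
    rw [add_comm]
    gcongr

end Pool.Agent.Helper56.SA
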