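import Pool.Agent.Helper56.SA.Fld

/-! Bases from families of pairs. -/

set_option autoImplicit false

namespace Pool.Agent.Helper56.SA

open Pool.Agent.Helper35.EM Pool.Agent.Helper56.EM Module Submodule Set ComplexConjugate

theorem BK.mono {L L' : Submodule ℚ ℂ} (h : BK L) (hle : L' ≤ L) : BK L' :=
  fun n u c₀ c hu => h n u c₀ c fun i => hle (hu i)

theorem BK.base' {m : ℕ} (x : Fin m → ℂ) (ρ : Fin m → Prop)
    (h : ∀ (c₀ : ℂ) (c : Fin m → ℂ), c₀ ∈ M.closure ∅ → (∀ j, c j ∈ M.closure ∅) →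
      (∀ j, ¬ ρ j → c j = 0) → c₀ + ∑ j, c j * x j = 0 → c₀ = 0 ∧ ∀ j, c j = 0) :
    BK (span ℚ {z | ∃ j, ρ j ∧ z = x j}) := by
  classical
  intro n u c₀ c hu h0 hc hs
  have hq : ∀ i, ∃ q : Fin m → ℚ, (∀ j, ¬ ρ j → q j = 0) ∧ u i = ∑ j, (q j : ℂ) * x j := by
    intro i
    have hall : ∀ z ∈ span ℚ {z | ∃ j, ρ j ∧ z = x j},
        ∃ q : Fin m → ℚ, (∀ j, ¬ ρ j → q j = 0) ∧ z = ∑ j, (q j : ℂ) * x j := by
      intro z hz
      induction hz using Submodule.span_induction with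
      | mem z hz =>
        obtain ⟨k, hk, rfl⟩ := hz
        refine ⟨Pi.single k 1, fun j hj => ?_, ?_⟩
        · have : j ≠ k := fun e => hj (e ▸ hk)
          simp [this]
        · rw [Finset.sum_eq_single k]
          · simp
          · intro j _ hj; simp [hj]
          · simp
      | zero => exact ⟨0, fun _ _ => rfl, by simp⟩
      | add a b _ _ ha hb =>
        obtain ⟨q, q1, q2⟩ := ha
        obtain ⟨q', q1', q2'⟩ := hb
        refine ⟨q + q', fun j hj => by simp [q1 j hj, q1' j hj], ?_⟩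
        rw [q2, q2', ← Finset.sum_add_distrib]
        refine Finset.sum_congr rfl fun j _ => ?_
        simp only [Pi.add_apply]
        push_cast; ring
      | smul r a _ ha =>
        obtain ⟨q, q1, q2⟩ := ha
        refine ⟨r • q, fun j hj => by simp [q1 j hj], ?_⟩
        rw [q2, Rat.smul_def, Finset.mul_sum]
        refine Finset.sum_congr rfl fun j _ => ?_
        simp only [Pi.smul_apply, smul_eq_mul]
        push_cast; ring
    exact hall _ (hu i)
  choose q hq0 hq using hq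
  have h1 := h c₀ (fun j => ∑ i, c i * (q i j : ℂ)) h0
    (fun j => cl_sum _ _ fun i _ => cl_mul (hc i) (cl_ratCast _ _))
    (fun j hj => Finset.sum_eq_zero fun i _ => by rw [hq0 i j hj]; simp) (by
      rw [← hs]
      congr 1
      simp_rw [hq, Finset.mul_sum, Finset.sum_mul]
      rw [Finset.sum_comm]
      refine Finset.sum_congr rfl fun i _ => Finset.sum_congr rfl fun j _ => by ring)
  refine ⟨h1.1, fun φ => ?_⟩
  simp_rw [hq, Finset.mul_sum]
  rw [Finset.sum_comm]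
  refine Finset.sum_eq_zero fun j _ => ?_
  have h2 : ∑ i, φ (c i) * q i j = 0 := by
    have h3 := congrArg φ (h1.2 j)
    rw [map_sum, map_zero] at h3
    rw [← h3]
    refine Finset.sum_congr rfl fun i _ => ?_
    have : c i * (q i j : ℂ) = (q i j) • c i := by rw [Rat.smul_def]; ring
    rw [this, map_smul, smul_eq_mul, mul_comm]
  have h3 : ∑ i, (φ (c i) : ℂ) * (q i j : ℂ) = 0 := by
    exact_mod_cast congrArg (fun r : ℚ => (r : ℂ)) h2
  have h4 : ∑ i, (φ (c i) : ℂ) * ((q i j : ℂ) * x j) = (∑ i, (φ (c i) : ℂ) * (q i j : ℂ)) * x j := by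
    rw [Finset.sum_mul]
    exact Finset.sum_congr rfl fun i _ => by ring
  rw [h4, h3, zero_mul]

theorem Nb.mono {m : ℕ} {W W' : Submodule kk ℂ} (h : Nb m W) (hle : W' ≤ W) : Nb m W' := by
  have hf := h.fin
  refine ⟨Submodule.finiteDimensional_of_le hle, fun θ hθ => ?_⟩
  have hf' := finNN (θ := θ) hf
  refine (Submodule.finrank_mono ?_).trans (h.bd θ hθ)
  intro y hy
  exact ⟨hle hy.1, hle hy.2⟩

section

variable {m : ℕ} (x y : Fin (m + 1) → ℝ) (p : ℝ) (τ : Fin (m + 1) → Prop)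

/-- the kernel pair -/
noncomputable def kp (p : ℝ) : ℂ × ℂ := (2 * Complex.I * (p : ℂ), 2 * (Real.pi : ℂ) * Complex.I)

/-- the pairs -/
noncomputable def vv : Fin (m + 1) ⊕ Unit → ℂ × ℂ :=
  Sum.elim (fun i => ((x i : ℂ), ((Real.log (y i) : ℝ) : ℂ))) fun _ => kp p

/-- the base -/
noncomputable def PP : Submodule ℚ (ℂ × ℂ) := span ℚ (range (vv x y p))

/-- the logarithms in the base -/
noncomputable def LL : Submodule ℚ ℂ :=
  span ℚ ({z | ∃ j, ¬ τ j ∧ z = (x j : ℂ)} ∪ {2 * Complex.I * (p : ℂ)})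

/-- the linear forms in the base -/
noncomputable def WW : Submodule kk ℂ :=
  span kk ({z | ∃ j, ¬ τ j ∧ z = (x j : ℂ)} ∪ {1, (p : ℂ)})

variable {x y p τ}

theorem mem_PP {q : ℂ × ℂ} (hq : q ∈ PP x y p) : ∃ (α : Fin (m + 1) → ℚ) (γ : ℚ),
    q.1 = ∑ i, (α i : ℂ) * x i + γ * (2 * Complex.I * (p : ℂ)) ∧
      q.2 = ∑ i, (α i : ℂ) * ((Real.log (y i) : ℝ) : ℂ) +
        γ * (2 * (Real.pi : ℂ) * Complex.I) := by
  obtain ⟨c, hc⟩ := (Submodule.mem_span_range_iff_exists_fun ℚ).1 hq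
  refine ⟨fun i => c (Sum.inl i), c (Sum.inr ()), ?_, ?_⟩
  · rw [← hc, Fintype.sum_sum_type]
    simp only [Prod.fst_add, Prod.fst_sum, Prod.smul_fst, vv, Sum.elim_inl, Sum.elim_inr,
      Finset.univ_unique, Finset.sum_singleton, Rat.smul_def, kp]
  · rw [← hc, Fintype.sum_sum_type]
    simp only [Prod.snd_add, Prod.snd_sum, Prod.smul_snd, vv, Sum.elim_inl, Sum.elim_inr,
      Finset.univ_unique, Finset.sum_singleton, Rat.smul_def, kp]

theorem vT_mem (i : Fin (m + 1)) : ((x i : ℂ), ((Real.log (y i) : ℝ) : ℂ)) ∈ PP x y p :=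
  subset_span ⟨Sum.inl i, rfl⟩

theorem kp_mem : kp p ∈ PP x y p := subset_span ⟨Sum.inr (), rfl⟩

theorem two_I_mem (s : Set ℂ) : (2 * Complex.I : ℂ) ∈ M.closure s := cl_mul (cl_two _) (cl_I _)

theorem two_I_ne : (2 * Complex.I : ℂ) ≠ 0 := by simp

theorem mkBD2 {t : ℕ → ℂ} {N : ℕ} {e l : ℝ} (hx0 : x 0 = 1) (hy0 : y 0 = e) (hτ0 : τ 0)
    (hy : ∀ i, 0 < y i) (hT1 : ∀ i, (x i : ℂ) ∈ M.closure (t '' Iio N))
    (hT2 : ∀ i, (y i : ℂ) ∈ M.closure (t '' Iio N))
    (hp1 : (p : ℂ) ∈ M.closure (t '' Iio N))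
    (hl : ((l : ℂ), ((Real.log p : ℝ) : ℂ)) ∈ PP x y p)
    (h0 : ∀ (α : Fin (m + 1) → ℚ) (γ : ℚ) (z : ℂ), z ∈ M.closure ∅ →
      ∑ i, (α i : ℂ) * x i + γ * (2 * Complex.I * (p : ℂ)) = z →
      (∀ i, i ≠ 0 → α i = 0) ∧ γ = 0 ∧ (α 0 : ℂ) = z)
    (H1 : ∀ (c : Fin (m + 1) → ℂ) (g : ℂ), (∀ i, c i ∈ M.closure ∅) → g ∈ M.closure ∅ →
      (∀ i, i ≠ 0 → τ i → c i = 0) →
      ∑ i, c i * x i + g * p = 0 → (∀ i, c i = 0) ∧ g = 0)
    (H2 : ∀ α : Fin (m + 1) → ℚ,
      Complex.exp (∑ i, (α i : ℂ) * ((Real.log (y i) : ℝ) : ℂ)) ∈ M.closure ∅ →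
      ∀ i, τ i → α i = 0)
    (H3 : ∀ β : Fin (m + 1) → ℚ, (∀ i, τ i → β i = 0) →
      ∑ j, (β j : ℝ) * Real.log (y j) = 0 → ∀ j, β j = 0)
    (H6 : Nb 2 (WW x p τ)) (H7 : ∃ v : ℂ, v ≠ 0 ∧ HR v (WW x p τ)) :
    BD t N (PP x y p) (LL x p τ) (WW x p τ) e p l := by
  have he : 0 < e := hy0 ▸ hy 0
  have hexpT : ∀ (α : Fin (m + 1) → ℚ),
      Complex.exp (∑ i, (α i : ℂ) * ((Real.log (y i) : ℝ) : ℂ)) ∈ M.closure (t '' Iio N) := by
    intro α
    refine cl_exp_sum _ _ fun i _ => ?_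
    rw [← Rat.smul_def]
    apply cl_exp_smul
    rw [exp_rlog (hy i)]
    exact hT2 i
  have hF2 : ∀ (α : Fin (m + 1) → ℚ) (γ : ℚ),
      Complex.exp (∑ i, (α i : ℂ) * ((Real.log (y i) : ℝ) : ℂ) +
        γ * (2 * (Real.pi : ℂ) * Complex.I)) ∈ M.closure ∅ → ∀ i, τ i → α i = 0 := by
    intro α γ h
    apply H2
    rw [Complex.exp_add] at h
    have := cl_div h (cl_exp_pi γ)
    rwa [mul_div_cancel_right₀ _ (Complex.exp_ne_zero _)] at this
  refine ⟨⟨FiniteDimensional.span_of_finite ℚ (finite_range _), ?_, ?_, ?_, ?_⟩, ?_, kp_mem, ?_, hl,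
    ?_, ?_, ?_, ?_, ?_, ?_, ?_, subset_span (by simp), H6, H7⟩
  · intro q hq
    obtain ⟨α, γ, h1, -⟩ := mem_PP hq
    rw [h1]
    exact cl_add (cl_sum _ _ fun i _ => cl_mul (cl_ratCast _ _) (hT1 i))
      (cl_mul (cl_ratCast _ _) (cl_mul (two_I_mem _) hp1))
  · intro q hq
    obtain ⟨α, γ, -, h2⟩ := mem_PP hq
    rw [h2]
    exact cl_exp_add (hexpT α) (cl_exp_pi γ)
  · intro q hq hq0
    obtain ⟨α, γ, h1, h2⟩ := mem_PP hq
    obtain ⟨g1, g3, g4⟩ := h0 α γ 0 (cl_zero _) (by rw [← h1, hq0])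
    have gα : ∀ i, α i = 0 := by
      intro i
      by_cases hi : i = 0
      · rw [hi]; exact_mod_cast g4
      · exact g1 i hi
    refine Prod.ext hq0 ?_
    rw [h2, g3]
    simp [gα]
  · intro q hq hq0
    obtain ⟨α, γ, h1, h2⟩ := mem_PP hq
    have gα := hF2 α γ (by rw [← h2, hq0, Complex.exp_zero]; exact cl_one _)
    rw [hq0] at h2
    have hre := congrArg Complex.re h2
    have him := congrArg Complex.im h2
    have e1 : ∑ j, (α j : ℂ) * ((Real.log (y j) : ℝ) : ℂ) =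
        ((∑ j, (α j : ℝ) * Real.log (y j) : ℝ) : ℂ) := by push_cast; rfl
    have e2 : (γ : ℂ) * (2 * (Real.pi : ℂ) * Complex.I) =
        ((γ * (2 * Real.pi) : ℝ) : ℂ) * Complex.I := by push_cast; ring
    rw [e1, e2, Complex.zero_re, Complex.add_re, Complex.ofReal_re, Complex.re_ofReal_mul,
      Complex.I_re, mul_zero, add_zero] at hre
    rw [e1, e2, Complex.zero_im, Complex.add_im, Complex.ofReal_im, Complex.im_ofReal_mul,
      Complex.I_im, mul_one, zero_add] at him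
    have gβ := H3 α gα hre.symm
    have gγ : γ = 0 := by
      have := (mul_eq_zero.1 him.symm).resolve_right (by positivity)
      exact_mod_cast this
    refine Prod.ext ?_ hq0
    rw [h1, gγ]
    simp [gβ]
  · apply CS_span
    rintro _ ⟨(i | _), rfl⟩
    · left; exact cs_real _ _
    · right; exact cs_pi _
  · have := vT_mem (x := x) (y := y) (p := p) 0
    rwa [hx0, hy0, Complex.ofReal_one] at this
  · intro h
    have := H2 (fun i => if i = 0 then 1 else 0) (by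
      have e1 : ∑ i, ((if i = 0 then (1 : ℚ) else 0 : ℚ) : ℂ) * ((Real.log (y i) : ℝ) : ℂ) =
          ((Real.log e : ℝ) : ℂ) := by
        rw [Finset.sum_eq_single 0]
        · simp [hy0]
        · intro i _ hi
          simp [hi]
        · simp
      rw [e1, exp_rlog he]; exact h) 0 hτ0
    simp at this
  · intro q hq hq1
    obtain ⟨α, γ, h1, h2⟩ := mem_PP hq
    obtain ⟨g1, g3, g4⟩ := h0 α γ _ hq1 h1.symm
    refine ⟨α 0, ?_⟩
    refine Prod.ext ?_ ?_
    · rw [← g4]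
      show (α 0 : ℂ) = (α 0) • (1 : ℂ)
      rw [Rat.smul_def, mul_one]
    · show q.2 = (α 0) • ((Real.log e : ℝ) : ℂ)
      rw [h2, g3, Finset.sum_eq_single 0 (fun i _ hi => by rw [g1 i hi]; simp) (by simp), hy0,
        Rat.smul_def]
      simp
  · intro q hq hq2
    obtain ⟨α, γ, h1, h2⟩ := mem_PP hq
    rw [h2] at hq2
    have gα := hF2 α γ hq2
    rw [h1]
    refine Submodule.add_mem _ (Submodule.sum_mem _ fun j _ => ?_) ?_
    · rw [← Rat.smul_def]
      by_cases hj : τ j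
      · rw [gα j hj, zero_smul]; exact Submodule.zero_mem _
      · exact Submodule.smul_mem _ _ (subset_span (Or.inl ⟨j, hj, rfl⟩))
    · rw [← Rat.smul_def]
      exact Submodule.smul_mem _ _ (subset_span (Or.inr rfl))
  · intro z hz
    have hle : ∀ z ∈ span ℚ ({z | ∃ j, ¬ τ j ∧ z = (x j : ℂ)} ∪ {2 * Complex.I * (p : ℂ)}),
        z ∈ M.closure (co (PP x y p)) := by
      intro z hz
      induction hz using Submodule.span_induction with
      | mem z hz =>
        rcases hz with ⟨j, -, rfl⟩ | rfl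
        · exact cl_self ⟨_, vT_mem j, Or.inl rfl⟩
        · exact cl_self ⟨kp p, kp_mem, Or.inl rfl⟩
      | zero => exact cl_zero _
      | add x y _ _ hx hy => exact cl_add hx hy
      | smul q x _ hx => exact cl_smul q hx
    exact hle z hz
  · have hbig : BK (span ℚ {z | ∃ j, (Fin.cons True (fun j => ¬ τ j) : Fin (m + 2) → Prop) j ∧
        z = (Fin.cons (2 * Complex.I * (p : ℂ)) (fun j : Fin (m + 1) => (x j : ℂ)) :
          Fin (m + 2) → ℂ) j}) := by
      apply BK.base'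
      intro c₀ c h0' hc hρ hs
      rw [Fin.sum_univ_succ] at hs
      simp only [Fin.cons_zero, Fin.cons_succ] at hs
      have hc1 : c (Fin.succ 0) = 0 := hρ (Fin.succ 0) (by simpa using hτ0)
      have h1 := H1 (fun j => c j.succ + if j = 0 then c₀ else 0) (c 0 * (2 * Complex.I))
        (fun i => by
          refine cl_add (hc i.succ) ?_
          split_ifs
          · exact h0'
          · exact cl_zero _)
        (cl_mul (hc 0) (two_I_mem _))
        (fun i hi hτi => by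
          rw [if_neg hi, add_zero]
          exact hρ i.succ (by simpa using hτi)) (by
          simp only [add_mul, Finset.sum_add_distrib, ite_mul, zero_mul, Finset.sum_ite_eq',
            Finset.mem_univ, if_true, hx0]
          push_cast
          linear_combination hs)
      have hc0 : c₀ = 0 := by
        have := h1.1 0
        rw [if_pos rfl, hc1, zero_add] at this
        exact this
      refine ⟨hc0, fun j => ?_⟩
      refine Fin.cases ?_ (fun j => ?_) j
      · exact (mul_eq_zero.1 h1.2).resolve_right two_I_ne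
      · have := h1.1 j
        simpa [hc0] using this
    refine hbig.mono (span_le.2 ?_)
    rintro _ (⟨j, hj, rfl⟩ | rfl)
    · exact subset_span ⟨j.succ, by simpa using hj, by simp⟩
    · exact subset_span ⟨0, by simp, by simp⟩
  · intro z hz
    have hle : ∀ z ∈ span kk ({z | ∃ j, ¬ τ j ∧ z = (x j : ℂ)} ∪ {1, (p : ℂ)}),
        z ∈ M.closure (co (PP x y p)) := by
      intro z hz
      induction hz using Submodule.span_induction with
      | mem z hz =>
        rcases hz with ⟨j, -, rfl⟩ | rfl | rfl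
        · exact cl_self ⟨_, vT_mem j, Or.inl rfl⟩
        · exact cl_one _
        · have h1 : 2 * Complex.I * (p : ℂ) ∈ M.closure (co (PP x y p)) :=
            cl_self ⟨kp p, kp_mem, Or.inl rfl⟩
          exact (cl_mul_iff (two_I_mem _) two_I_ne).1 h1
      | zero => exact cl_zero _
      | add x y _ _ hx hy => exact cl_add hx hy
      | smul c x _ hx => exact smul_cl c hx
    exact hle z hz
  · intro z hz
    have hle : ∀ z ∈ span ℚ ({z | ∃ j, ¬ τ j ∧ z = (x j : ℂ)} ∪ {2 * Complex.I * (p : ℂ)}),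
        z ∈ WW x p τ := by
      intro z hz
      induction hz using Submodule.span_induction with
      | mem z hz =>
        rcases hz with ⟨j, hj, rfl⟩ | rfl
        · exact subset_span (Or.inl ⟨j, hj, rfl⟩)
        · have : (2 * Complex.I * (p : ℂ) : ℂ) =
              (⟨2 * Complex.I, kk_mem.2 (two_I_mem _)⟩ : kk) • (p : ℂ) := by
            rw [Algebra.smul_def]; rfl
          rw [this]
          exact Submodule.smul_mem _ _ (subset_span (by simp))
      | zero => exact Submodule.zero_mem _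
      | add x y _ _ hx hy => exact Submodule.add_mem _ hx hy
      | smul q x _ hx =>
        have : q • x = (⟨(q : ℂ), kk_mem.2 (cl_ratCast _ q)⟩ : kk) • x := by
          rw [Rat.smul_def, Algebra.smul_def]; rfl
        rw [this]
        exact Submodule.smul_mem _ _ hx
    exact hle z hz

theorem mkBD {t : ℕ → ℂ} {N : ℕ} {e l : ℝ} (hx0 : x 0 = 1) (hy0 : y 0 = e) (hτ0 : τ 0)
    (hy : ∀ i, 0 < y i) (hT1 : ∀ i, (x i : ℂ) ∈ M.closure (t '' Iio N))
    (hT2 : ∀ i, (y i : ℂ) ∈ M.closure (t '' Iio N))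
    (hp1 : (p : ℂ) ∈ M.closure (t '' Iio N))
    (hl : ((l : ℂ), ((Real.log p : ℝ) : ℂ)) ∈ PP x y p)
    (H1 : ∀ (c : Fin (m + 1) → ℂ) (g : ℂ), (∀ i, c i ∈ M.closure ∅) → g ∈ M.closure ∅ →
      ∑ i, c i * x i + g * p = 0 → (∀ i, c i = 0) ∧ g = 0)
    (H2 : ∀ α : Fin (m + 1) → ℚ,
      Complex.exp (∑ i, (α i : ℂ) * ((Real.log (y i) : ℝ) : ℂ)) ∈ M.closure ∅ →
      ∀ i, τ i → α i = 0)
    (H3 : ∀ β : Fin (m + 1) → ℚ, (∀ i, τ i → β i = 0) →
      ∑ j, (β j : ℝ) * Real.log (y j) = 0 → ∀ j, β j = 0)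
    (H6 : Nb 2 (WW x p τ)) (H7 : ∃ v : ℂ, v ≠ 0 ∧ HR v (WW x p τ)) :
    BD t N (PP x y p) (LL x p τ) (WW x p τ) e p l := by
  have h0 : ∀ (α : Fin (m + 1) → ℚ) (γ : ℚ) (z : ℂ), z ∈ M.closure ∅ →
      ∑ i, (α i : ℂ) * x i + γ * (2 * Complex.I * (p : ℂ)) = z →
      (∀ i, i ≠ 0 → α i = 0) ∧ γ = 0 ∧ (α 0 : ℂ) = z := by
    intro α γ z hz h
    have h1 := H1 (fun i => (α i : ℂ) - if i = 0 then z else 0)
      (γ * (2 * Complex.I)) (fun i => by
        by_cases hi : i = 0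
        · simp only [if_pos hi]; exact cl_sub (cl_ratCast _ _) hz
        · simp only [if_neg hi, sub_zero]; exact cl_ratCast _ _)
      (cl_mul (cl_ratCast _ _) (two_I_mem _)) (by
        simp only [sub_mul, Finset.sum_sub_distrib, ite_mul, zero_mul, Finset.sum_ite_eq',
          Finset.mem_univ, if_true, hx0]
        push_cast
        linear_combination h)
    refine ⟨fun i hi => ?_, ?_, ?_⟩
    · have := h1.1 i
      simp only [if_neg hi, sub_zero] at this
      exact_mod_cast this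
    · exact_mod_cast (mul_eq_zero.1 h1.2).resolve_right two_I_ne
    · have := h1.1 0
      simp only [if_true] at this
      linear_combination this
  exact mkBD2 hx0 hy0 hτ0 hy hT1 hT2 hp1 hl h0 (fun c g hc hg _ h => H1 c g hc hg h) H2 H3 H6 H7

end

/-- multiplicative independence of generic values -/
theorem H2gen {n : ℕ} {y : Fin n → ℝ} (hy : ∀ i, 0 < y i) (σ : Fin n → Prop) (s : Fin n → Set ℂ)
    (h1 : ∀ i, σ i → (y i : ℂ) ∉ M.closure (s i))
    (h2 : ∀ i j, σ i → j ≠ i → (y j : ℂ) ∈ M.closure (s i) ∨ (σ j ∧ i < j)) (α : Fin n → ℚ)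
    (h : Complex.exp (∑ i, (α i : ℂ) * ((Real.log (y i) : ℝ) : ℂ)) ∈ M.closure ∅) :
    ∀ i, σ i → α i = 0 := by
  by_contra hcon
  push Not at hcon
  obtain ⟨i, hi, hmax⟩ := (Set.toFinite {i | σ i ∧ α i ≠ 0}).exists_maximal (by
    obtain ⟨i, hi1, hi2⟩ := hcon
    exact ⟨i, hi1, hi2⟩)
  apply hi.2
  refine exp_coef (s := s i) (L := ((Real.log (y i) : ℝ) : ℂ)) (a := (y i : ℂ))
    (w := ∑ j ∈ Finset.univ.erase i, (α j : ℂ) * ((Real.log (y j) : ℝ) : ℂ)) (exp_rlog (hy i))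
    (h1 i hi.1) ?_ ?_
  · refine cl_exp_sum _ _ fun j hj => ?_
    have hji := Finset.ne_of_mem_erase hj
    rcases h2 i j hi.1 hji with h3 | ⟨h3, h4⟩
    · rw [← Rat.smul_def]
      apply cl_exp_smul
      rw [exp_rlog (hy j)]; exact h3
    · have h5 : α j = 0 := by
        by_contra h6
        have := hmax (y := j) ⟨h3, h6⟩ h4.le
        exact absurd h4 (not_lt.2 this)
      rw [h5, Rat.cast_zero, zero_mul, Complex.exp_zero]; exact cl_one _
  · rw [Finset.add_sum_erase Finset.univ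
      (fun j => (α j : ℂ) * ((Real.log (y j) : ℝ) : ℂ)) (Finset.mem_univ i)]
    exact cl_empty_le h

end Pool.Agent.Helper56.SA
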