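import Mathlib

/-!
# Exponential fields with complex conjugation

The number `e` of the field is `E 1`, its number `π` is given by the kernel `2 π i ℤ` of `E`, and `l` is
the real logarithm of `π`; so `a ^ b` is `E (b log a)` for the bases `a = e` (`log e = 1`) and `a = π`.
-/

set_option autoImplicit false

namespace Pool.Agent.Helper56.SA

/-- An exponential field: an algebraically closed subfield `K` of `ℂ`, stable under complex
conjugation, with a surjective homomorphism `E` from the additive to the multiplicative group of `K`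
that commutes with the conjugation, and whose kernel is `2 p i ℤ` for a real number `p` between `3`
and `4`; the real number `e = E 1` is between `2` and `3`, and `l` is a real number with `E l = p`. -/
structure ExpField where
  K : Subfield ℂ
  E : ℂ → ℂ
  e : ℝ
  p : ℝ
  l : ℝ
  closed : ∀ z : ℂ, IsAlgebraic K z → z ∈ K
  conj_mem : ∀ x ∈ K, (starRingEnd ℂ) x ∈ K
  E_mem : ∀ x ∈ K, E x ∈ K
  E_add : ∀ x ∈ K, ∀ y ∈ K, E (x + y) = E x * E y
  E_surj : ∀ y ∈ K, y ≠ 0 → ∃ x ∈ K, E x = y
  E_conj : ∀ x ∈ K, E ((starRingEnd ℂ) x) = (starRingEnd ℂ) (E x)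
  ker : ∀ x ∈ K, E x = 1 ↔ ∃ n : ℤ, x = 2 * p * Complex.I * n
  e_mem : (e : ℂ) ∈ K
  p_mem : (p : ℂ) ∈ K
  l_mem : (l : ℂ) ∈ K
  E_one : E 1 = e
  E_l : E l = p
  e_bound : 2 < e ∧ e < 3
  p_bound : 3 < p ∧ p < 4

/-- Lindemann-Weierstrass: for rationally independent algebraic `α i` the `E (α i)` are
algebraically independent. -/
def LindemannWeierstrass (F : ExpField) : Prop :=
  ∀ (n : ℕ) (α : Fin n → ℂ), (∀ i, IsAlgebraic ℚ (α i)) → LinearIndependent ℚ α →
    AlgebraicIndependent ℚ fun i => F.E (α i)

/-- logarithms of algebraic numbers -/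
def IsLog (F : ExpField) (u : ℂ) : Prop := u ∈ F.K ∧ IsAlgebraic ℚ (F.E u)

/-- Baker: `1` and rationally independent logarithms of algebraic numbers are linearly independent
over the field of algebraic numbers. -/
def Baker (F : ExpField) : Prop :=
  ∀ (n : ℕ) (u : Fin n → ℂ), (∀ i, IsLog F (u i)) → LinearIndependent ℚ u →
    ∀ (c₀ : ℂ) (c : Fin n → ℂ), IsAlgebraic ℚ c₀ → (∀ i, IsAlgebraic ℚ (c i)) →
      c₀ + ∑ i, c i * u i = 0 → c₀ = 0 ∧ ∀ i, c i = 0

/-- linear combinations of `1` and logarithms of algebraic numbers, with algebraic coefficients -/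
def LogForm (F : ExpField) (z : ℂ) : Prop :=
  ∃ (n : ℕ) (u : Fin n → ℂ) (c₀ : ℂ) (c : Fin n → ℂ), (∀ i, IsLog F (u i)) ∧ IsAlgebraic ℚ c₀ ∧
    (∀ i, IsAlgebraic ℚ (c i)) ∧ z = c₀ + ∑ i, c i * u i

/-- linear independence over the field of algebraic numbers -/
def Indep {n : ℕ} (x : Fin n → ℂ) : Prop :=
  ∀ c : Fin n → ℂ, (∀ i, IsAlgebraic ℚ (c i)) → ∑ i, c i * x i = 0 → ∀ i, c i = 0

/-- The strong six exponentials theorem (Roy): if `x 0, x 1` and `y 0, y 1, y 2` are linearly
independent over the algebraic numbers, then one of the six products `x i * y j` is not a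
linear combination of `1` and logarithms of algebraic numbers. -/
def StrongSixExponentials (F : ExpField) : Prop :=
  ∀ (x : Fin 2 → ℂ) (y : Fin 3 → ℂ), Indep x → Indep y → ∃ i j, ¬ LogForm F (x i * y j)

/-- linear over the field of algebraic numbers, with algebraic values -/
def AlgLinear (φ : ℂ → ℂ) : Prop :=
  (∀ x y, φ (x + y) = φ x + φ y) ∧ (∀ c x, IsAlgebraic ℚ c → φ (c * x) = c * φ x) ∧
    ∀ x, IsAlgebraic ℚ (φ x)

/-- The theorem of Waldschmidt and Roy on the structural rank: the rank of a matrix of linear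
combinations of `1` and logarithms of algebraic numbers is at least half of its structural rank,
which is the largest rank of its images under linear maps with algebraic values. -/
def HalfStructuralRank (F : ExpField) : Prop :=
  ∀ (d l : ℕ) (A : Matrix (Fin d) (Fin l) ℂ) (φ : ℂ → ℂ), (∀ i j, LogForm F (A i j)) →
    AlgLinear φ → (A.map φ).rank ≤ 2 * A.rank

/-- Schanuel's inequality with defect `k`: if `z 0, ..., z (n - 1)` are rationally independent, the
transcendence degree of the field generated by the `z i` and the `E (z i)` is at least `n - k`. -/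
def SchanuelDefect (F : ExpField) (k : ℕ) : Prop :=
  ∀ (n : ℕ) (z : Fin n → ℂ), (∀ i, z i ∈ F.K) → LinearIndependent ℚ z →
    (n : Cardinal) ≤ Algebra.trdeg ℚ
      (IntermediateField.adjoin ℚ (Set.range z ∪ Set.range fun i => F.E (z i))) + (k : Cardinal)

/-- the theorems which hold in the fields of the second part -/
structure Theorems (F : ExpField) : Prop where
  lw : LindemannWeierstrass F
  baker : Baker F
  six : StrongSixExponentials F
  half : HalfStructuralRank F

/-- Further theorems: Nesterenko's theorem for `π` and `exp (π √n)`; the numbers `exp (e ^ 2)` and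
`exp (π ^ 2)` are transcendental; Schanuel's inequality over a space `X` of dimension at most `6`:
if the `z i` are rationally independent modulo `X`, then `n` of the numbers `z i`, `E (z i)` are
algebraically independent over the field generated by `X` and `E X`. -/
structure Extra (F : ExpField) : Prop where
  nest : ∀ n : ℕ, 1 ≤ n → AlgebraicIndependent ℚ ![(F.p : ℂ), F.E ((Real.sqrt n : ℂ) * F.p)]
  ee : Transcendental ℚ (F.E ((F.e : ℂ) ^ 2))
  pp : Transcendental ℚ (F.E ((F.p : ℂ) ^ 2))
  schanuel : ∃ X : Submodule ℚ ℂ, FiniteDimensional ℚ X ∧ Module.finrank ℚ X ≤ 6 ∧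
    (∀ x ∈ X, x ∈ F.K) ∧ ∀ (n : ℕ) (z : Fin n → ℂ), (∀ i, z i ∈ F.K) →
      LinearIndependent ℚ (fun i => X.mkQ (z i)) →
        ∃ f : Fin n → ℂ, (∀ i, f i ∈ Set.range z ∪ Set.range fun j => F.E (z j)) ∧
          AlgebraicIndependent (IntermediateField.adjoin ℚ ((X : Set ℂ) ∪ F.E '' X)) f

/-- the numbers `π + e`, `π e`, `π ^ e`, `e ^ e`, `π ^ π` of the field -/
noncomputable def five (F : ExpField) : Fin 5 → ℂ :=
  ![F.p + F.e, F.p * F.e, F.E (F.e * F.l), F.E F.e, F.E (F.p * F.l)]

/-- being rational -/
def Rat' (z : ℂ) : Prop := ∃ q : ℚ, z = q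

/-- `z` is rational (`k = 0`), algebraic and irrational (`k = 1`), transcendental (`k = 2`) -/
def Is (z : ℂ) (k : Fin 3) : Prop :=
  (![Rat' z, IsAlgebraic ℚ z ∧ ¬ Rat' z, Transcendental ℚ z] : Fin 3 → Prop) k

/-- the five real numbers -/
noncomputable def val : Fin 5 → ℝ :=
  ![Real.pi + Real.exp 1, Real.pi * Real.exp 1, Real.pi ^ Real.exp 1,
    Real.exp 1 ^ Real.exp 1, Real.pi ^ Real.pi]

/-- `e`, `π`, `log π` and the five numbers of the field are close to the real ones -/
structure Near (F : ExpField) (ε : ℝ) : Prop where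
  e : |F.e - Real.exp 1| < ε
  p : |F.p - Real.pi| < ε
  l : |F.l - Real.log Real.pi| < ε
  five : ∀ i, ‖five F i - val i‖ < ε

/-- sets of indices which contain a transcendental number -/
def Sets : Finset (Finset (Fin 5)) := {{0, 1}, {0, 3}, {1, 2, 3}, {1, 2, 4}, {1, 3, 4}}

/-- the patterns `f : Fin 5 → {rational, algebraic irrational, transcendental}` such that all members
of `Sets` contain a transcendental number, and `π + e` is not rational if `π ^ e` and `π ^ π` are
algebraic -/
def Adm (f : Fin 5 → Fin 3) : Prop :=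
  (∀ C ∈ Sets, ∃ i ∈ C, f i = 2) ∧ (f 0 = 0 → f 2 = 2 ∨ f 4 = 2)

instance : DecidablePred Adm := fun f => by unfold Adm; infer_instance

end Pool.Agent.Helper56.SA
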