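import Pool.Agent.Helper56.SA.Mk

/-! The spaces of linear forms of the models. -/

set_option autoImplicit false

namespace Pool.Agent.Helper56.SA

open Pool.Agent.Helper35.EM Pool.Agent.Helper56.EM Module Submodule Set

theorem l2 {s : Set ℂ} {b u v : ℂ} (hb : b ∉ M.closure s) (hu : u ∈ M.closure s)
    (hv : v ∈ M.closure s) (h : u + v * b = 0) : u = 0 ∧ v = 0 :=
  lin2 hb hu hv (cl_zero s) (cl_zero s) (by rw [h]; ring)

theorem fr1 (u : ℂ) : finrank kk (span kk {u}) ≤ 1 := by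
  have h := finrank_range_le_card (R := kk) (fun _ : Fin 1 => u)
  rw [Set.finrank, Fintype.card_fin] at h
  have e : range (fun _ : Fin 1 => u) = {u} := range_const
  rwa [e] at h

theorem fr2 (u v : ℂ) : finrank kk (span kk {u, v}) ≤ 2 := by
  have h := finrank_range_le_card (R := kk) ![u, v]
  rw [Set.finrank, Fintype.card_fin] at h
  have e : range ![u, v] = {u, v} := by simp [Set.pair_comm]
  rwa [e] at h

theorem fr3 (u v w : ℂ) : finrank kk (span kk {u, v, w}) ≤ 3 := by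
  have h := finrank_range_le_card (R := kk) ![u, v, w]
  rw [Set.finrank, Fintype.card_fin] at h
  have e : range ![u, v, w] = {u, v, w} := by
    ext z
    simp only [Set.mem_range, Fin.exists_fin_succ, Set.mem_insert_iff, Set.mem_singleton_iff]
    simp [eq_comm]
  rwa [e] at h

theorem fin_span {S : Set ℂ} (hS : S.Finite) : FiniteDimensional kk (span kk S) :=
  FiniteDimensional.span_of_finite kk hS

theorem span_cl {S : Set ℂ} {s : Set ℂ} (hS : ∀ x ∈ S, x ∈ M.closure s) {z : ℂ}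
    (hz : z ∈ span kk S) : z ∈ M.closure s := by
  induction hz using Submodule.span_induction with
  | mem x hx => exact hS x hx
  | zero => exact cl_zero _
  | add x y _ _ hx hy => exact cl_add hx hy
  | smul c x _ hx => exact smul_cl c hx

theorem D0_prod (A B : Submodule kk ℂ) : D0 (A.prod B) = A := by
  ext u
  rw [mem_D0]
  exact ⟨fun hu => hu.1, fun hu => ⟨hu, Submodule.zero_mem _⟩⟩

theorem D1_prod (A B : Submodule kk ℂ) : D1 (A.prod B) = B := by
  ext v
  rw [mem_D1]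
  exact ⟨fun ⟨u, hu⟩ => hu.2, fun hv => ⟨0, Submodule.zero_mem _, hv⟩⟩

theorem fin_prod {A B : Submodule kk ℂ} (hA : FiniteDimensional kk A)
    (hB : FiniteDimensional kk B) : FiniteDimensional kk (A.prod B) := by
  have hle : A.prod B ≤ A.map (LinearMap.inl kk ℂ ℂ) ⊔ B.map (LinearMap.inr kk ℂ ℂ) := by
    rintro ⟨u, v⟩ ⟨hu, hv⟩
    have e : (u, v) = LinearMap.inl kk ℂ ℂ u + LinearMap.inr kk ℂ ℂ v := by simp
    rw [e]
    exact Submodule.add_mem_sup (Submodule.mem_map_of_mem hu) (Submodule.mem_map_of_mem hv)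
  exact Submodule.finiteDimensional_of_le hle

/-- the case of a product -/
theorem Nb.prod {m0 m1 m : ℕ} {s : Set ℂ} {b : ℂ} (hb : b ∉ M.closure s) {A B : Submodule kk ℂ}
    (hA : Nb m0 A) (hB : Nb m1 B) (h1 : ∀ x ∈ A, x ∈ M.closure s) (h2 : ∀ x ∈ B, x ∈ M.closure s)
    (hm : m0 + m1 ≤ m) (hm1 : finrank kk B ≤ m) : Nb m ((A.prod B).map (ev b)) :=
  Nb.filt (m0 := m0) (m1 := m1) hb (fin_prod hA.fin hB.fin) (fun d hd => h1 _ hd.1)
    (fun d hd => h2 _ hd.2) (by rw [D0_prod]; exact hA) (by rw [D1_prod]; exact hB) hm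
    (by rw [D1_prod]; exact hm1)

theorem mem_ev {A B : Submodule kk ℂ} {b u v z : ℂ} (hu : u ∈ A) (hv : v ∈ B) (h : z = u + v * b) :
    z ∈ (A.prod B).map (ev b) :=
  ⟨(u, v), ⟨hu, hv⟩, by rw [ev_apply, h]⟩

theorem nb1 {a p : ℂ} (hp : p ∉ M.closure {a}) : Nb 1 (span kk {1, a, p}) := by
  have h1 : ∀ x ∈ ({1, a} : Set ℂ), x ∈ M.closure {a} := by
    rintro x (rfl | rfl)
    · exact cl_one _
    · exact cl_self rfl
  have h2 : ∀ x ∈ ({1} : Set ℂ), x ∈ M.closure {a} := by
    rintro x rfl; exact cl_one _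
  refine (Nb.prod (m0 := 1) (m1 := 0) (m := 1) hp (A := span kk {1, a}) (B := span kk {1})
    (Nb.of_finrank (fin_span (by simp)) (fr2 _ _)) (Nb.of_finrank (fin_span (by simp)) (fr1 _))
    (fun x hx => span_cl h1 hx) (fun x hx => span_cl h2 hx) le_rfl (fr1 _)).mono (span_le.2 ?_)
  rintro z (rfl | rfl | rfl)
  · exact mem_ev (u := 1) (v := 0) (subset_span (by simp)) (Submodule.zero_mem _) (by ring)
  · exact mem_ev (u := z) (v := 0) (subset_span (by simp)) (Submodule.zero_mem _) (by ring)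
  · exact mem_ev (u := 0) (v := 1) (Submodule.zero_mem _) (subset_span (by simp)) (by ring)

theorem nbC {a p l : ℂ} (hp : p ∉ M.closure {a}) (hl : l ∉ M.closure {a, p}) :
    Nb 2 (span kk {1, p, a, a * l, p * l}) := by
  have h1 : ∀ x ∈ ({1, a, p} : Set ℂ), x ∈ M.closure {a, p} := by
    rintro x (rfl | rfl | rfl)
    · exact cl_one _
    · exact cl_self (by simp)
    · exact cl_self (by simp)
  have h2 : ∀ x ∈ ({a, p} : Set ℂ), x ∈ M.closure {a, p} := fun x hx => cl_self hx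
  refine (Nb.prod (m0 := 1) (m1 := 1) (m := 2) hl (A := span kk {1, a, p}) (B := span kk {a, p})
    (nb1 hp) (Nb.of_finrank (fin_span (by simp)) (fr2 _ _))
    (fun x hx => span_cl h1 hx) (fun x hx => span_cl h2 hx) le_rfl (fr2 _ _)).mono (span_le.2 ?_)
  rintro z (rfl | rfl | rfl | rfl | rfl)
  · exact mem_ev (u := 1) (v := 0) (subset_span (by simp)) (Submodule.zero_mem _) (by ring)
  · exact mem_ev (u := z) (v := 0) (subset_span (by simp)) (Submodule.zero_mem _) (by ring)
  · exact mem_ev (u := z) (v := 0) (subset_span (by simp)) (Submodule.zero_mem _) (by ring)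
  · exact mem_ev (u := 0) (v := a) (Submodule.zero_mem _) (subset_span (by simp)) (by ring)
  · exact mem_ev (u := 0) (v := p) (Submodule.zero_mem _) (subset_span (by simp)) (by ring)

theorem nbA1 {a p b : ℂ} (hp : p ∈ M.closure {a}) (hb : b ∉ M.closure {a}) :
    Nb 2 (span kk {1, p, b, a}) := by
  have h1 : ∀ x ∈ ({1, a, p} : Set ℂ), x ∈ M.closure {a} := by
    rintro x (rfl | rfl | rfl)
    · exact cl_one _
    · exact cl_self (by simp)
    · exact hp
  have h2 : ∀ x ∈ ({1} : Set ℂ), x ∈ M.closure {a} := by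
    rintro x rfl; exact cl_one _
  refine (Nb.prod (m0 := 2) (m1 := 0) (m := 2) hb (A := span kk {1, a, p}) (B := span kk {1})
    (Nb.of_finrank (fin_span (by simp)) (fr3 _ _ _)) (Nb.of_finrank (fin_span (by simp)) (fr1 _))
    (fun x hx => span_cl h1 hx) (fun x hx => span_cl h2 hx) le_rfl
    ((fr1 _).trans (by norm_num))).mono (span_le.2 ?_)
  rintro z (rfl | rfl | rfl | rfl)
  · exact mem_ev (u := 1) (v := 0) (subset_span (by simp)) (Submodule.zero_mem _) (by ring)
  · exact mem_ev (u := z) (v := 0) (subset_span (by simp)) (Submodule.zero_mem _) (by ring)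
  · exact mem_ev (u := 0) (v := 1) (Submodule.zero_mem _) (subset_span (by simp)) (by ring)
  · exact mem_ev (u := z) (v := 0) (subset_span (by simp)) (Submodule.zero_mem _) (by ring)

theorem nbA23 {s : Set ℂ} {u p b : ℂ} (hp : p ∈ M.closure s) (hu : u ∈ M.closure s)
    (hu0 : u ∉ M.closure ∅) (hb : b ∉ M.closure s) :
    Nb 2 (span kk {1, p, b, u * (b - 1)}) := by
  set G : Set (ℂ × ℂ) := {((1 : ℂ), (0 : ℂ)), (p, 0), (0, 1), (-u, u)} with hG
  set D := span kk G with hD
  have hGf : G.Finite := by simp [hG]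
  have hfD : FiniteDimensional kk D := FiniteDimensional.span_of_finite kk hGf
  have hmem : ∀ d ∈ D, ∃ c0 c1 c2 c3 : kk, d = ((c0 : ℂ) + c1 * p - c3 * u, (c2 : ℂ) + c3 * u) := by
    intro d hd
    induction hd using Submodule.span_induction with
    | mem x hx =>
      rcases hx with rfl | rfl | rfl | rfl
      · exact ⟨1, 0, 0, 0, by simp⟩
      · exact ⟨0, 1, 0, 0, by simp⟩
      · exact ⟨0, 0, 1, 0, by simp⟩
      · exact ⟨0, 0, 0, 1, by simp⟩
    | zero => exact ⟨0, 0, 0, 0, by simp; rfl⟩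
    | add x y _ _ hx hy =>
      obtain ⟨c0, c1, c2, c3, rfl⟩ := hx
      obtain ⟨d0, d1, d2, d3, rfl⟩ := hy
      refine ⟨c0 + d0, c1 + d1, c2 + d2, c3 + d3, ?_⟩
      rw [Prod.mk_add_mk]
      refine Prod.ext ?_ ?_
      · show (c0 : ℂ) + c1 * p - c3 * u + ((d0 : ℂ) + d1 * p - d3 * u) = _
        push_cast; ring
      · show (c2 : ℂ) + c3 * u + ((d2 : ℂ) + d3 * u) = _
        push_cast; ring
    | smul c x _ hx =>
      obtain ⟨c0, c1, c2, c3, rfl⟩ := hx
      refine ⟨c * c0, c * c1, c * c2, c * c3, ?_⟩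
      ext1
      · show c • ((c0 : ℂ) + c1 * p - c3 * u) = _
        rw [Algebra.smul_def]
        show (c : ℂ) * _ = _
        push_cast; ring
      · show c • ((c2 : ℂ) + c3 * u) = _
        rw [Algebra.smul_def]
        show (c : ℂ) * _ = _
        push_cast; ring
  have hkk : ∀ c : kk, (c : ℂ) ∈ M.closure ∅ := fun c => kk_mem.1 c.2
  have hks : ∀ c : kk, (c : ℂ) ∈ M.closure s := fun c => cl_empty_le (hkk c)
  have hD0 : D0 D ≤ span kk {1, p} := by
    intro z hz
    obtain ⟨c0, c1, c2, c3, h⟩ := hmem _ (mem_D0.1 hz)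
    have h1 : z = (c0 : ℂ) + c1 * p - c3 * u := congrArg Prod.fst h
    have h2 : (0 : ℂ) = (c2 : ℂ) + c3 * u := congrArg Prod.snd h
    obtain ⟨-, h3⟩ := l2 hu0 (hkk c2) (hkk c3) h2.symm
    rw [h1, h3, zero_mul, sub_zero]
    refine Submodule.mem_span_pair.2 ⟨c0, c1, ?_⟩
    rw [Algebra.smul_def, Algebra.smul_def, mul_one]
    rfl
  have hD1 : D1 D ≤ span kk {1, u} := by
    intro z hz
    obtain ⟨w, hw⟩ := mem_D1.1 hz
    obtain ⟨c0, c1, c2, c3, h⟩ := hmem _ hw
    have h2 : z = (c2 : ℂ) + c3 * u := congrArg Prod.snd h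
    rw [h2]
    refine Submodule.mem_span_pair.2 ⟨c2, c3, ?_⟩
    rw [Algebra.smul_def, Algebra.smul_def, mul_one]
    rfl
  have f0 := fin_span (S := {1, p}) (by simp)
  have f1 := fin_span (S := {1, u}) (by simp)
  have r1 : finrank kk (D1 D) ≤ 2 := (Submodule.finrank_mono hD1).trans (fr2 _ _)
  refine (Nb.filt (m0 := 1) (m1 := 1) (m := 2) hb hfD ?_ ?_ ?_ ?_ le_rfl r1).mono (span_le.2 ?_)
  · intro d hd
    obtain ⟨c0, c1, c2, c3, rfl⟩ := hmem d hd
    exact cl_sub (cl_add (hks c0) (cl_mul (hks c1) hp)) (cl_mul (hks c3) hu)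
  · intro d hd
    obtain ⟨c0, c1, c2, c3, rfl⟩ := hmem d hd
    exact cl_add (hks c2) (cl_mul (hks c3) hu)
  · exact Nb.of_finrank (Submodule.finiteDimensional_of_le hD0)
      ((Submodule.finrank_mono hD0).trans (fr2 _ _))
  · exact Nb.of_finrank (Submodule.finiteDimensional_of_le hD1) r1
  · rintro z (rfl | rfl | rfl | rfl)
    · exact ⟨(1, 0), subset_span (by simp [hG]), by rw [ev_apply]; ring⟩
    · exact ⟨(z, 0), subset_span (by simp [hG]), by rw [ev_apply]; ring⟩
    · exact ⟨(0, 1), subset_span (by simp [hG]), by rw [ev_apply]; ring⟩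
    · exact ⟨(-u, u), subset_span (by simp [hG]), by rw [ev_apply]; ring⟩

end Pool.Agent.Helper56.SA
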