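import Pool.Agent.Helper56.SA.Tow

/-! Ranks of matrices under specialisation. -/

set_option autoImplicit false

namespace Pool.Agent.Helper56.SA

open Pool.Agent.Helper35.EM Pool.Agent.Helper56.EM Module Submodule Set Matrix

theorem cl_idem {s : Set ℂ} {z : ℂ} (h : IsAlgebraic (clF s).toSubfield z) : z ∈ clF s := by
  have h1 : IsAlgebraic (clF s) z := h
  have h2 : z ∈ M.closure (clF s : Set ℂ) := by
    rw [mem_cl, mem_clF, IntermediateField.adjoin_self]
    exact h1
  rw [← cl_eq, M.closure_closure] at h2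
  exact mem_cl.1 h2

theorem exists_rows {K : Type*} [Field K] {d : ℕ} {n : Type*} [Fintype n]
    (A : Matrix (Fin d) n K) :
    ∃ f : Fin A.rank → Fin d, LinearIndependent K (A.submatrix f id).row := by
  obtain ⟨κ, a, ha, hsp, hli⟩ := exists_linearIndependent' K A.row
  have : Finite κ := Finite.of_injective a ha
  have := Fintype.ofFinite κ
  have hc : A.rank = Fintype.card κ := by
    rw [rank_eq_finrank_span_row, ← hsp, finrank_span_eq_card hli]
  have e : Fin A.rank ≃ κ := (finCongr hc).trans (Fintype.equivFin κ).symm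
  exact ⟨fun i => a (e i), hli.comp e e.injective⟩

/-- a nonzero minor of maximal size -/
theorem exists_minor {K : Type*} [Field K] {d l : ℕ} (A : Matrix (Fin d) (Fin l) K) {k : ℕ}
    (hk : A.rank = k) :
    ∃ (f : Fin k → Fin d) (g : Fin k → Fin l), (A.submatrix f g).det ≠ 0 := by
  subst hk
  obtain ⟨f, hf⟩ := exists_rows A
  have h1 := hf.rank_matrix
  rw [Fintype.card_fin] at h1
  obtain ⟨g, hg⟩ := exists_rows (A.submatrix f id)ᵀ
  have h2 : (A.submatrix f id)ᵀ.rank = A.rank := by rw [rank_transpose, h1]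
  refine ⟨f, fun i => g (finCongr h2.symm i), ?_⟩
  have h3 := hg.comp (finCongr h2.symm) (finCongr h2.symm).injective
  have h4 : LinearIndependent K (A.submatrix f fun i => g (finCongr h2.symm i)).col := h3
  rw [linearIndependent_cols_iff_isUnit, isUnit_iff_isUnit_det] at h4
  exact h4.ne_zero

theorem rank_ge_of_minor {K : Type*} [Field K] {d l k : ℕ} (A : Matrix (Fin d) (Fin l) K)
    (f : Fin k → Fin d) (g : Fin k → Fin l) (h : (A.submatrix f g).det ≠ 0) : k ≤ A.rank := by
  have h1 := rank_submatrix_le A f g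
  rwa [rank_of_isUnit _ ((isUnit_iff_isUnit_det _).2 h.isUnit), Fintype.card_fin] at h1

/-- specialisation -/
theorem spec {s : Set ℂ} {a : ℂ} (ha : a ∉ M.closure s) (y : ℂ) {d l : ℕ}
    (P : Matrix (Fin d) (Fin l) (Polynomial (clF s))) :
    (P.map (Polynomial.aeval y)).rank ≤ (P.map (Polynomial.aeval a)).rank := by
  obtain ⟨f, g, h⟩ := exists_minor (P.map (Polynomial.aeval y)) rfl
  refine rank_ge_of_minor _ f g fun h0 => ?_
  have e : ∀ z : ℂ, ((P.map (Polynomial.aeval z)).submatrix f g).det =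
      Polynomial.aeval z (P.submatrix f g).det := by
    intro z
    rw [AlgHom.map_det]
    rfl
  rw [e] at h h0
  apply ha
  rw [mem_cl]
  apply cl_idem
  refine ⟨(P.submatrix f g).det, ?_, h0⟩
  intro h1
  rw [h1, map_zero] at h
  exact h rfl

/-- specialisation of a quadratic polynomial -/
theorem spec2 {s : Set ℂ} {a : ℂ} (ha : a ∉ M.closure s) (y : ℂ) {d l : ℕ}
    (A B C : Matrix (Fin d) (Fin l) ℂ) (hA : ∀ i j, A i j ∈ M.closure s)
    (hB : ∀ i j, B i j ∈ M.closure s) (hC : ∀ i j, C i j ∈ M.closure s) :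
    (Matrix.of fun i j => A i j + B i j * y + C i j * y ^ 2).rank ≤
      (Matrix.of fun i j => A i j + B i j * a + C i j * a ^ 2).rank := by
  have h := spec ha y (d := d) (l := l) (Matrix.of fun i j =>
    Polynomial.C (⟨A i j, mem_cl.1 (hA i j)⟩ : clF s) +
      Polynomial.C (⟨B i j, mem_cl.1 (hB i j)⟩ : clF s) * Polynomial.X +
        Polynomial.C (⟨C i j, mem_cl.1 (hC i j)⟩ : clF s) * Polynomial.X ^ 2)
  have e : ∀ z : ℂ, (Matrix.of fun i j => A i j + B i j * z + C i j * z ^ 2) =
      (Matrix.of fun i j =>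
    Polynomial.C (⟨A i j, mem_cl.1 (hA i j)⟩ : clF s) +
      Polynomial.C (⟨B i j, mem_cl.1 (hB i j)⟩ : clF s) * Polynomial.X +
        Polynomial.C (⟨C i j, mem_cl.1 (hC i j)⟩ : clF s) * Polynomial.X ^ 2).map
          (Polynomial.aeval z) := by
    intro z
    ext i j
    simp only [Matrix.of_apply, Matrix.map_apply, map_add, map_mul, map_pow, Polynomial.aeval_X,
      Polynomial.aeval_C]
    rfl
  rw [e, e]
  exact h

theorem spec1 {s : Set ℂ} {a : ℂ} (ha : a ∉ M.closure s) (y : ℂ) {d l : ℕ}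
    (A B : Matrix (Fin d) (Fin l) ℂ) (hA : ∀ i j, A i j ∈ M.closure s)
    (hB : ∀ i j, B i j ∈ M.closure s) :
    (Matrix.of fun i j => A i j + B i j * y).rank ≤
      (Matrix.of fun i j => A i j + B i j * a).rank := by
  have h := spec2 ha y A B 0 hA hB (fun i j => cl_zero s)
  simpa using h

theorem rank_smul_le {d l : ℕ} (c : ℂ) (A : Matrix (Fin d) (Fin l) ℂ) : (c • A).rank ≤ A.rank := by
  have e : c • A = (c • (1 : Matrix (Fin d) (Fin d) ℂ)) * A := by
    rw [Matrix.smul_mul, Matrix.one_mul]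
  rw [e]
  exact rank_mul_le_right _ _

theorem rank_add_le' {d l : ℕ} (A B : Matrix (Fin d) (Fin l) ℂ) :
    (A + B).rank ≤ A.rank + B.rank := by
  have h1 : (A + B).rank ≤ finrank ℂ (LinearMap.range A.mulVecLin ⊔ LinearMap.range B.mulVecLin :
      Submodule ℂ (Fin d → ℂ)) := by
    apply Submodule.finrank_mono
    rintro _ ⟨v, rfl⟩
    rw [Matrix.mulVecLin_add]
    exact Submodule.add_mem_sup ⟨v, rfl⟩ ⟨v, rfl⟩
  exact h1.trans (Submodule.finrank_add_le_finrank_add_finrank _ _)

/-- two specialisations -/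
theorem two_spec {d l : ℕ} {A B C D : Matrix (Fin d) (Fin l) ℂ} {c c' : ℂ} (hA : A.rank ≤ D.rank)
    (hB : B.rank ≤ D.rank) (h : ∀ i j, C i j = c * A i j + c' * B i j) : C.rank ≤ 2 * D.rank := by
  have e : C = c • A + c' • B := by
    ext i j
    rw [h]; rfl
  rw [e]
  refine (rank_add_le' _ _).trans ?_
  have h1 := rank_smul_le c A
  have h2 := rank_smul_le c' B
  omega

end Pool.Agent.Helper56.SA
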