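import Pool.Agent.Helper35.EM.Defs
import Pool.Agent.Helper56.EM.B3

/-! Linear algebra over the field of algebraic numbers for the strong six exponentials theorem. -/

set_option autoImplicit false

namespace Pool.Agent.Helper56.SA

open Pool.Agent.Helper35.EM Pool.Agent.Helper56.EM Module Submodule

/-- the algebraic numbers -/
noncomputable abbrev kk : IntermediateField ℚ ℂ := clF ∅

theorem kk_mem {z : ℂ} : z ∈ kk ↔ z ∈ M.closure ∅ := mem_cl.symm

theorem kk_le {s : Set ℂ} {z : ℂ} (h : z ∈ kk) : z ∈ M.closure s := cl_empty_le (kk_mem.1 h)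

theorem smul_cl {s : Set ℂ} (c : kk) {z : ℂ} (h : z ∈ M.closure s) : c • z ∈ M.closure s := by
  rw [Algebra.smul_def]
  exact cl_mul (kk_le c.2) h

/-- the elements `y` of `W` with `θ y` in `W` -/
noncomputable def NN (θ : ℂ) (W : Submodule kk ℂ) : Submodule kk ℂ :=
  W ⊓ W.comap (LinearMap.mulLeft kk θ)

theorem mem_NN {θ : ℂ} {W : Submodule kk ℂ} {y : ℂ} : y ∈ NN θ W ↔ y ∈ W ∧ θ * y ∈ W := Iff.rfl

/-- at most `m` linearly independent `y` in `W` with `θ y` in `W`, for all `θ` not algebraic -/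
structure Nb (m : ℕ) (W : Submodule kk ℂ) : Prop where
  fin : FiniteDimensional kk W
  bd : ∀ θ : ℂ, θ ∉ kk → finrank kk (NN θ W) ≤ m

theorem finNN {θ : ℂ} {W : Submodule kk ℂ} (h : FiniteDimensional kk W) :
    FiniteDimensional kk (NN θ W) :=
  Submodule.finiteDimensional_of_le (inf_le_left : NN θ W ≤ W)

/-- eigenvalues -/
theorem NN_ne {θ : ℂ} (hθ : θ ∉ kk) {W : Submodule kk ℂ} (hf : FiniteDimensional kk W)
    (hW : W ≠ ⊥) : NN θ W ≠ W := by
  intro h
  have hmap : ∀ y ∈ W, LinearMap.mulLeft kk θ y ∈ W := by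
    intro y hy
    rw [← h] at hy
    exact hy.2
  have : Nontrivial W := Submodule.nontrivial_iff_ne_bot.2 hW
  obtain ⟨μ, hμ⟩ := Module.End.exists_eigenvalue ((LinearMap.mulLeft kk θ).restrict hmap)
  obtain ⟨v, hv⟩ := hμ.exists_hasEigenvector
  have h1 := hv.apply_eq_smul
  have h2 : θ * (v : ℂ) = (μ : ℂ) * (v : ℂ) := by
    have := congrArg Subtype.val h1
    simpa [Algebra.smul_def] using this
  have h3 : (v : ℂ) ≠ 0 := fun h0 => hv.2 (Subtype.ext h0)
  have h4 := mul_right_cancel₀ h3 h2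
  exact hθ (h4 ▸ μ.2)

theorem Nb.of_finrank {m : ℕ} {W : Submodule kk ℂ} (hf : FiniteDimensional kk W)
    (h : finrank kk W ≤ m + 1) : Nb m W := by
  refine ⟨hf, fun θ hθ => ?_⟩
  have hfN := finNN (θ := θ) hf
  by_cases hW : W = ⊥
  · have : NN θ W = ⊥ := by
      rw [eq_bot_iff]
      exact inf_le_left.trans hW.le
    rw [this, finrank_bot]
    exact Nat.zero_le m
  · have h1 : NN θ W < W := lt_of_le_of_ne inf_le_left (NN_ne hθ hf hW)
    have h2 := Submodule.finrank_lt_finrank_of_lt h1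
    omega

/-- `u + v b` -/
noncomputable def ev (b : ℂ) : ℂ × ℂ →ₗ[kk] ℂ :=
  LinearMap.fst kk ℂ ℂ + (LinearMap.mulRight kk b).comp (LinearMap.snd kk ℂ ℂ)

theorem ev_apply (b : ℂ) (d : ℂ × ℂ) : ev b d = d.1 + d.2 * b := rfl

/-- the elements of `D` with second coordinate zero -/
noncomputable def D0 (D : Submodule kk (ℂ × ℂ)) : Submodule kk ℂ := D.comap (LinearMap.inl kk ℂ ℂ)

noncomputable def D1 (D : Submodule kk (ℂ × ℂ)) : Submodule kk ℂ := D.map (LinearMap.snd kk ℂ ℂ)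

theorem mem_D0 {D : Submodule kk (ℂ × ℂ)} {u : ℂ} : u ∈ D0 D ↔ (u, (0 : ℂ)) ∈ D := Iff.rfl

theorem mem_D1 {D : Submodule kk (ℂ × ℂ)} {v : ℂ} : v ∈ D1 D ↔ ∃ u, (u, v) ∈ D := by
  constructor
  · rintro ⟨⟨u, w⟩, h, rfl⟩; exact ⟨u, h⟩
  · rintro ⟨u, h⟩; exact ⟨(u, v), h, rfl⟩

/-- comparison of coefficients -/
theorem quad {s : Set ℂ} {b : ℂ} (hb : b ∉ M.closure s) {α β γ : ℂ} (hα : α ∈ M.closure s)
    (hβ : β ∈ M.closure s) (hγ : γ ∈ M.closure s) (h : α * b ^ 2 + β * b + γ = 0) :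
    α = 0 ∧ β = 0 ∧ γ = 0 := by
  have h4 : (4 : ℂ) ∈ M.closure s := by simpa using cl_ratCast s 4
  have hα0 : α = 0 := by
    by_contra hne
    apply hb
    have h1 : (2 * α * b + β) ^ 2 = β ^ 2 - 4 * α * γ := by
      linear_combination (4 * α) * h
    have h2 : (2 * α * b + β) ^ 2 ∈ M.closure s := by
      rw [h1]
      exact cl_sub (cl_pow 2 hβ) (cl_mul (cl_mul h4 hα) hγ)
    have h3 := cl_sub (cl_of_pow two_ne_zero h2) hβ
    rw [add_sub_cancel_right] at h3
    exact (cl_mul_iff (cl_mul (cl_two s) hα) (mul_ne_zero two_ne_zero hne)).1 h3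
  subst hα0
  rw [zero_mul, zero_add] at h
  have hβ0 : β = 0 := lin1 hb hβ hγ (by rw [h]; exact cl_zero s)
  subst hβ0
  rw [zero_mul, zero_add] at h
  exact ⟨rfl, rfl, h⟩

theorem lin2 {s : Set ℂ} {b : ℂ} (hb : b ∉ M.closure s) {u v u' v' : ℂ} (hu : u ∈ M.closure s)
    (hv : v ∈ M.closure s) (hu' : u' ∈ M.closure s) (hv' : v' ∈ M.closure s)
    (h : u + v * b = u' + v' * b) : u = u' ∧ v = v' := by
  have h1 := quad hb (cl_zero s) (cl_sub hv hv') (cl_sub hu hu') (by linear_combination h)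
  exact ⟨sub_eq_zero.1 h1.2.2, sub_eq_zero.1 h1.2.1⟩

/-- the filtration by the degree in `b` -/
theorem Nb.filt {m0 m1 m : ℕ} {s : Set ℂ} {b : ℂ} (hb : b ∉ M.closure s) {D : Submodule kk (ℂ × ℂ)}
    (hD : FiniteDimensional kk D)
    (hD1 : ∀ d ∈ D, d.1 ∈ M.closure s) (hD2 : ∀ d ∈ D, d.2 ∈ M.closure s)
    (h0 : Nb m0 (D0 D)) (h1 : Nb m1 (D1 D)) (hm : m0 + m1 ≤ m) (hm1 : finrank kk (D1 D) ≤ m) :
    Nb m (D.map (ev b)) := by
  refine ⟨inferInstance, fun θ hθ => ?_⟩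
  have hfin1 : FiniteDimensional kk (D1 D) := h1.fin
  have hfin0 : FiniteDimensional kk (D0 D) := h0.fin
  -- the subspace of `D`
  set Y : Submodule kk (ℂ × ℂ) := D ⊓ (D.map (ev b)).comap ((LinearMap.mulLeft kk θ).comp (ev b))
    with hY
  have hYfin : FiniteDimensional kk Y := Submodule.finiteDimensional_of_le inf_le_left
  have hYmem : ∀ d ∈ Y, d ∈ D ∧ ∃ d' ∈ D, d'.1 + d'.2 * b = θ * (d.1 + d.2 * b) := by
    rintro d ⟨hd, d', hd', he⟩
    exact ⟨hd, d', hd', he⟩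
  have hle : finrank kk (NN θ (D.map (ev b))) ≤ finrank kk Y := by
    have e : NN θ (D.map (ev b)) ≤ Y.map (ev b) := by
      rintro y ⟨⟨d, hd, rfl⟩, hy⟩
      exact ⟨d, ⟨hd, hy⟩, rfl⟩
    exact (Submodule.finrank_mono e).trans (Submodule.finrank_map_le _ _)
  refine hle.trans ?_
  by_cases hθs : θ ∈ M.closure s
  · -- `θ` in the field of coefficients
    have hY2 : ∀ d ∈ Y, (θ * d.1, θ * d.2) ∈ D := by
      intro d hd
      obtain ⟨h2, d', hd', he⟩ := hYmem d hd
      have h3 := lin2 hb (hD1 d' hd') (hD2 d' hd') (cl_mul hθs (hD1 d h2))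
        (cl_mul hθs (hD2 d h2)) (by rw [he]; ring)
      rw [← h3.1, ← h3.2]
      exact hd'
    have hr := LinearMap.finrank_range_add_finrank_ker ((LinearMap.snd kk ℂ ℂ).domRestrict Y)
    have hr1 : finrank kk (LinearMap.range ((LinearMap.snd kk ℂ ℂ).domRestrict Y)) ≤ m1 := by
      have hf := finNN (θ := θ) hfin1
      refine (Submodule.finrank_mono ?_).trans (h1.bd θ hθ)
      rintro _ ⟨⟨d, hd⟩, rfl⟩
      refine ⟨?_, ?_⟩
      · exact mem_D1.2 ⟨d.1, (hYmem d hd).1⟩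
      · exact mem_D1.2 ⟨θ * d.1, hY2 d hd⟩
    have hr0 : finrank kk (LinearMap.ker ((LinearMap.snd kk ℂ ℂ).domRestrict Y)) ≤ m0 := by
      have hf := finNN (θ := θ) hfin0
      have e0 : finrank kk (LinearMap.ker ((LinearMap.snd kk ℂ ℂ).domRestrict Y)) =
          finrank kk ((LinearMap.ker ((LinearMap.snd kk ℂ ℂ).domRestrict Y)).map Y.subtype) :=
        LinearEquiv.finrank_eq (Submodule.equivMapOfInjective _ Y.injective_subtype _)
      rw [e0]
      have e1 : (LinearMap.ker ((LinearMap.snd kk ℂ ℂ).domRestrict Y)).map Y.subtype ≤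
          (NN θ (D0 D)).map (LinearMap.inl kk ℂ ℂ) := by
        rintro _ ⟨⟨d, hd⟩, hk, rfl⟩
        have e2 : d.2 = 0 := hk
        have hdd : d = (d.1, 0) := Prod.ext rfl e2
        refine ⟨d.1, ⟨?_, ?_⟩, hdd.symm⟩
        · rw [SetLike.mem_coe, mem_D0, ← hdd]
          exact (hYmem d hd).1
        · show θ * d.1 ∈ D0 D
          rw [mem_D0]
          have := hY2 d hd
          rwa [e2, mul_zero] at this
      exact (Submodule.finrank_mono e1).trans ((Submodule.finrank_map_le _ _).trans (h0.bd θ hθ))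
    omega
  · -- `θ` not in the field of coefficients
    refine le_trans ?_ hm1
    by_cases hcase : ∃ d ∈ Y, d.2 = 0 ∧ d.1 ≠ 0
    · obtain ⟨d0, hd0, hd02, hd01⟩ := hcase
      obtain ⟨hd0D, z0, hz0, hz0e⟩ := hYmem d0 hd0
      rw [hd02, zero_mul, add_zero] at hz0e
      have hu0 := hD1 d0 hd0D
      have hz02 : z0.2 ≠ 0 := by
        intro h0'
        apply hθs
        rw [h0', zero_mul, add_zero] at hz0e
        have := cl_div (hD1 z0 hz0) hu0
        rwa [hz0e, mul_div_cancel_right₀ _ hd01] at this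
      -- all elements of `Y` have second coordinate zero
      have key : ∀ d ∈ Y, d.2 = 0 ∧ (z0.2 / d0.1) * d.1 ∈ D1 D := by
        intro d hd
        obtain ⟨hdD, d', hd', he⟩ := hYmem d hd
        have h3 : (z0.1 + z0.2 * b) * (d.1 + d.2 * b) = d0.1 * (d'.1 + d'.2 * b) := by
          rw [hz0e, he]; ring
        have h4 := quad hb (α := z0.2 * d.2) (β := z0.1 * d.2 + z0.2 * d.1 - d0.1 * d'.2)
          (γ := z0.1 * d.1 - d0.1 * d'.1)
          (cl_mul (hD2 z0 hz0) (hD2 d hdD))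
          (cl_sub (cl_add (cl_mul (hD1 z0 hz0) (hD2 d hdD)) (cl_mul (hD2 z0 hz0) (hD1 d hdD)))
            (cl_mul hu0 (hD2 d' hd')))
          (cl_sub (cl_mul (hD1 z0 hz0) (hD1 d hdD)) (cl_mul hu0 (hD1 d' hd')))
          (by linear_combination h3)
        have h5 : d.2 = 0 := (mul_eq_zero.1 h4.1).resolve_left hz02
        refine ⟨h5, ?_⟩
        have h6 := h4.2.1
        rw [h5, mul_zero, zero_add] at h6
        have h7 : (z0.2 / d0.1) * d.1 = d'.2 := by
          rw [div_mul_eq_mul_div, div_eq_iff hd01]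
          linear_combination h6
        rw [h7]
        exact mem_D1.2 ⟨d'.1, hd'⟩
      let g : Y →ₗ[kk] ℂ := (LinearMap.mulLeft kk (z0.2 / d0.1)).comp
        ((LinearMap.fst kk ℂ ℂ).comp Y.subtype)
      have hg : Function.Injective g := by
        rw [← LinearMap.ker_eq_bot, LinearMap.ker_eq_bot']
        rintro ⟨d, hd⟩ h0'
        have e1 : (z0.2 / d0.1) * d.1 = 0 := h0'
        have e2 : d.1 = 0 := (mul_eq_zero.1 e1).resolve_left (div_ne_zero hz02 hd01)
        exact Subtype.ext (Prod.ext e2 (key d hd).1)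
      rw [← LinearMap.finrank_range_of_inj hg]
      refine Submodule.finrank_mono ?_
      rintro _ ⟨⟨d, hd⟩, rfl⟩
      exact (key d hd).2
    · push Not at hcase
      let g : Y →ₗ[kk] ℂ := (LinearMap.snd kk ℂ ℂ).comp Y.subtype
      have hg : Function.Injective g := by
        rw [← LinearMap.ker_eq_bot, LinearMap.ker_eq_bot']
        rintro ⟨d, hd⟩ h0'
        have e2 : d.2 = 0 := h0'
        exact Subtype.ext (Prod.ext (hcase d hd e2) e2)
      rw [← LinearMap.finrank_range_of_inj hg]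
      refine Submodule.finrank_mono ?_
      rintro _ ⟨⟨d, hd⟩, rfl⟩
      exact mem_D1.2 ⟨d.1, (hYmem d hd).1⟩

end Pool.Agent.Helper56.SA
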