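import Pool.Agent.Helper56.SA.CasC
import Pool.Agent.Helper56.SX.XA

/-! The models in which `π e` is rational. -/

set_option autoImplicit false

namespace Pool.Agent.Helper56.SA

open Pool.Agent.Helper35.EM Pool.Agent.Helper56.EM Module Submodule Set ComplexConjugate

theorem caseA {t : ℕ → ℝ} (ht : FreeR fun n => (t n : ℂ)) {q : Fin 4 → ℝ} (hq : AlgInd q)
    (S : Fin 3 → Prop)
    [DecidablePred S] (hS : (¬ S 1 ∧ ¬ S 2) ∨ (¬ S 0 ∧ ¬ S 2) ∨ (¬ S 0 ∧ ¬ S 1))
    (he : 2 < t 0 ∧ t 0 < 3) (hp : 3 < q 0 / t 0 ∧ q 0 / t 0 < 4) :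
    Vals (t 0) (q 0 / t 0) (t 1 - 1) (if S 0 then q 1 else t 3)
      (if S 1 then q 2 else t 4) (if S 2 then q 3 else t 5)
      (0 + 1 + (if S 0 then 1 else 0) + (if S 1 then 1 else 0) + (if S 2 then 1 else 0)) := by
  set Y : Fin 3 → ℝ := fun i => if S i then q i.succ else t (3 + i) with hY
  have hYpos : ∀ i, 0 < Y i := by
    intro i
    simp only [hY]
    split_ifs
    · exact hq.pos i.succ
    · exact pos_t ht _
  have hYcl : ∀ i : Fin 3, (Y i : ℂ) ∈ M.closure (Fn t (4 + i)) := by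
    intro i
    simp only [hY]
    split_ifs
    · exact cl_empty_le (hq.alg i.succ)
    · exact Fn_mem (by omega)
  have hYn : ∀ i : Fin 3, ¬ S i → (Y i : ℂ) ∉ M.closure (Fn t (3 + i)) := by
    intro i hi
    simp only [hY, if_neg hi]
    exact Fn_not ht le_rfl
  have hYr : ∀ i : Fin 3, ¬ S i ∨ (Y i : ℂ) ∈ M.closure ∅ := by
    intro i
    by_cases hi : S i
    · right
      simp only [hY, if_pos hi]
      exact hq.alg i.succ
    · exact Or.inl hi
  set p : ℝ := q 0 / t 0 with hpdef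
  have ht0 := pos_t ht 0
  have ht0c : (t 0 : ℂ) ≠ 0 := by exact_mod_cast ht0.ne'
  have hq0R : (0 : ℝ) < q 0 := hq.pos 0
  have hp0 : 0 < p := div_pos hq0R ht0
  have hqc : ∀ s : Set ℂ, ((q 0 : ℝ) : ℂ) ∈ M.closure s := fun s => cl_empty_le (hq.alg 0)
  have hpc : (p : ℂ) = ((q 0 : ℝ) : ℂ) / t 0 := by rw [hpdef, Complex.ofReal_div]
  have hpt : (p : ℂ) * t 0 = ((q 0 : ℝ) : ℂ) := by rw [hpc]; field_simp
  have hqne : ((q 0 : ℝ) : ℂ) ≠ 0 := by exact_mod_cast hq0R.ne'
  have hpcl : ∀ n, 0 < n → (p : ℂ) ∈ M.closure (Fn t n) := fun n hn => by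
    rw [hpc]; exact cl_div (hqc _) (Fn_mem hn)
  have hpn : (p : ℂ) ∉ M.closure ∅ := by
    intro h
    apply Fn_not_empty ht 0
    have : (t 0 : ℂ) = ((q 0 : ℝ) : ℂ) / p := by
      rw [hpc]; field_simp
    rw [this]
    exact cl_div (hqc _) h
  set x : Fin 5 → ℝ := ![1, t 1, t 0, t 0 * (t 1 - 1), p * (t 1 - 1)] with hx
  set y : Fin 5 → ℝ := ![t 0, q 0, Y 0, Y 1, Y 2] with hy
  set τ : Fin 5 → Prop := ![True, False, ¬ S 0, ¬ S 1, ¬ S 2] with hτ
  have e3 : ((x 3 : ℝ) : ℂ) = (t 0 : ℂ) * (t 1 - 1) := by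
    show ((t 0 * (t 1 - 1) : ℝ) : ℂ) = _
    push_cast; rfl
  have e4 : ((x 4 : ℝ) : ℂ) = (p : ℂ) * (t 1 - 1) := by
    show ((p * (t 1 - 1) : ℝ) : ℂ) = _
    push_cast; rfl
  have m0 : (t 0 : ℂ) ∈ M.closure (Fn t 6) := Fn_mem (by norm_num)
  have m1 : (t 1 : ℂ) ∈ M.closure (Fn t 6) := Fn_mem (by norm_num)
  have hypos : ∀ i, 0 < y i := by
    intro i
    fin_cases i
    exacts [pos_t ht 0, hq0R, hYpos 0, hYpos 1, hYpos 2]
  have v0 := vT_mem (x := x) (y := y) (p := p) 0
  have v1 := vT_mem (x := x) (y := y) (p := p) 1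
  have v2 := vT_mem (x := x) (y := y) (p := p) 2
  have v3 := vT_mem (x := x) (y := y) (p := p) 3
  have v4 := vT_mem (x := x) (y := y) (p := p) 4
  have vl : (((t 1 - 1 : ℝ) : ℂ), ((Real.log p : ℝ) : ℂ)) ∈ PP x y p := by
    have h := Submodule.sub_mem _ v1 v0
    have e : ((x 1 : ℂ), ((Real.log (y 1) : ℝ) : ℂ)) - ((x 0 : ℂ), ((Real.log (y 0) : ℝ) : ℂ)) =
        (((t 1 - 1 : ℝ) : ℂ), ((Real.log p : ℝ) : ℂ)) := by
      refine Prod.ext ?_ ?_
      · show ((t 1 : ℝ) : ℂ) - ((1 : ℝ) : ℂ) = _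
        push_cast; rfl
      · show ((Real.log (q 0) : ℝ) : ℂ) - ((Real.log (t 0) : ℝ) : ℂ) = _
        rw [hpdef, Real.log_div hq0R.ne' ht0.ne']
        push_cast; rfl
    rwa [e] at h
  have hB : BD (fun n => (t n : ℂ)) 6 (PP x y p) (LL x p τ) (WW x p τ) (t 0) p (t 1 - 1) := by
    refine mkBD rfl rfl trivial hypos ?_ ?_ (hpcl 6 (by norm_num)) vl ?_ ?_ ?_ ?_ ?_
    · intro i
      fin_cases i
      · show ((1 : ℝ) : ℂ) ∈ _
        rw [Complex.ofReal_one]; exact cl_one _
      · exact m1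
      · exact m0
      · show ((x 3 : ℝ) : ℂ) ∈ _
        rw [e3]; exact cl_mul m0 (cl_sub m1 (cl_one _))
      · show ((x 4 : ℝ) : ℂ) ∈ _
        rw [e4]; exact cl_mul (hpcl 6 (by norm_num)) (cl_sub m1 (cl_one _))
    · intro i
      fin_cases i
      · exact m0
      · exact hqc _
      · exact Fn_mono (by norm_num) (hYcl 0)
      · exact Fn_mono (by norm_num) (hYcl 1)
      · exact hYcl 2
    · intro c g hc hg h
      rw [Fin.sum_univ_five] at h
      have h' : c 0 * ((1 : ℝ) : ℂ) + c 1 * ((t 1 : ℝ) : ℂ) + c 2 * ((t 0 : ℝ) : ℂ) +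
        c 3 * ((x 3 : ℝ) : ℂ) + c 4 * ((x 4 : ℝ) : ℂ) + g * (p : ℂ) = 0 := h
      rw [e3, e4, Complex.ofReal_one, mul_one] at h'
      have hcs : ∀ i (s : Set ℂ), c i ∈ M.closure s := fun i s => cl_empty_le (hc i)
      have hgs : ∀ (s : Set ℂ), g ∈ M.closure s := fun s => cl_empty_le hg
      have n0 : (t 0 : ℂ) ∈ M.closure (Fn t 1) := Fn_mem (by norm_num)
      have np : (p : ℂ) ∈ M.closure (Fn t 1) := hpcl 1 (by norm_num)
      obtain ⟨k1, k2⟩ := l2 (s := Fn t 1) (b := (t 1 : ℂ))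
        (u := c 0 + c 2 * t 0 - c 3 * t 0 - c 4 * p + g * p)
        (v := c 1 + c 3 * t 0 + c 4 * p) (Fn_not ht le_rfl)
        (cl_add (cl_sub (cl_sub (cl_add (hcs _ _) (cl_mul (hcs _ _) n0)) (cl_mul (hcs _ _) n0))
          (cl_mul (hcs _ _) np)) (cl_mul (hgs _) np))
        (cl_add (cl_add (hcs _ _) (cl_mul (hcs _ _) n0)) (cl_mul (hcs _ _) np))
        (by linear_combination h')
      have q1 := quad (Fn_not_empty ht 0) (hc 3) (hc 1) (cl_mul (hc 4) (hqc ∅))
        (by rw [← hpt]; linear_combination (t 0 : ℂ) * k2)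
      have c4 : c 4 = 0 := (mul_eq_zero.1 q1.2.2).resolve_right hqne
      rw [q1.1, c4] at k1
      have q2 := quad (Fn_not_empty ht 0) (hc 2) (hc 0) (cl_mul hg (hqc ∅))
        (by rw [← hpt]; linear_combination (t 0 : ℂ) * k1)
      refine ⟨fun i => ?_, (mul_eq_zero.1 q2.2.2).resolve_right hqne⟩
      fin_cases i
      exacts [q2.2.1, q1.2.1, q2.1, q1.1, c4]
    · intro α hα
      refine H2chain (t := t) hypos τ ![1, 0, 4, 5, 6] ![0, 3, 3, 4, 5] (by decide) ?_ ?_ ?_ α hα
      · intro i hi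
        fin_cases i
        · exact Fn_not ht le_rfl
        · exact hi.elim
        · exact hYn 0 hi
        · exact hYn 1 hi
        · exact hYn 2 hi
      · intro i
        fin_cases i
        · exact Fn_mem (by norm_num)
        · exact hqc _
        · exact hYcl 0
        · exact hYcl 1
        · exact hYcl 2
      · intro i j _ _
        fin_cases j
        · exact Or.inl trivial
        · exact Or.inr (hqc ∅)
        · exact hYr 0
        · exact hYr 1
        · exact hYr 2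
    · intro β hβ h
      rw [Fin.sum_univ_five] at h
      have b0 : β 0 = 0 := hβ 0 trivial
      have hT : ∀ (j : Fin 3) (b : ℚ), (¬ S j → b = 0) →
          (b : ℝ) * Real.log (Y j) = (b : ℝ) * Real.log (q j.succ) := by
        intro j b hb
        by_cases hj : S j
        · simp only [hY, if_pos hj]
        · rw [hb hj]; simp
      change (β 0 : ℝ) * Real.log (t 0) + (β 1 : ℝ) * Real.log (q 0) + (β 2 : ℝ) * Real.log (Y 0) +
        (β 3 : ℝ) * Real.log (Y 1) + (β 4 : ℝ) * Real.log (Y 2) = 0 at h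
      rw [b0, hT 0 (β 2) (fun h0 => hβ 2 h0), hT 1 (β 3) (fun h0 => hβ 3 h0),
        hT 2 (β 4) (fun h0 => hβ 4 h0)] at h
      have h' := hq.ind ![β 1, β 2, β 3, β 4] (by
        rw [Fin.sum_univ_four]
        show (β 1 : ℝ) * Real.log (q 0) + (β 2 : ℝ) * Real.log (q 1) + (β 3 : ℝ) * Real.log (q 2) +
          (β 4 : ℝ) * Real.log (q 3) = 0
        have h'' : ((0 : ℚ) : ℝ) * Real.log (t 0) + (β 1 : ℝ) * Real.log (q 0) +
          (β 2 : ℝ) * Real.log (q 1) + (β 3 : ℝ) * Real.log (q 2) +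
          (β 4 : ℝ) * Real.log (q 3) = 0 := h
        rw [Rat.cast_zero, zero_mul, zero_add] at h''
        exact h'')
      intro j
      fin_cases j
      exacts [b0, h' 0, h' 1, h' 2, h' 3]
    · have hp1 : (p : ℂ) ∈ M.closure {(t 0 : ℂ)} := by
        rw [← Fn_one]; exact hpcl 1 one_pos
      have hb1 : (t 1 : ℂ) ∉ M.closure {(t 0 : ℂ)} := by
        rw [← Fn_one]; exact Fn_not ht le_rfl
      rcases hS with ⟨s1, s2⟩ | ⟨s0, s2⟩ | ⟨s0, s1⟩
      · refine (nbA1 hp1 hb1).mono (span_le.2 ?_)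
        rintro _ (⟨j, hj, rfl⟩ | rfl | rfl)
        · fin_cases j
          · exact absurd trivial hj
          · exact subset_span (by simp [hx])
          · exact subset_span (by simp [hx])
          · exact absurd s1 hj
          · exact absurd s2 hj
        · exact subset_span (by simp)
        · exact subset_span (by simp)
      · refine (nbA23 hp1 (cl_self rfl) (Fn_not_empty ht 0) hb1).mono (span_le.2 ?_)
        rintro _ (⟨j, hj, rfl⟩ | rfl | rfl)
        · fin_cases j
          · exact absurd trivial hj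
          · exact subset_span (by simp [hx])
          · exact absurd s0 hj
          · exact subset_span (by simp [hx])
          · exact absurd s2 hj
        · exact subset_span (by simp)
        · exact subset_span (by simp)
      · refine (nbA23 hp1 hp1 hpn hb1).mono (span_le.2 ?_)
        rintro _ (⟨j, hj, rfl⟩ | rfl | rfl)
        · fin_cases j
          · exact absurd trivial hj
          · exact subset_span (by simp [hx])
          · exact absurd s0 hj
          · exact absurd s1 hj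
          · exact subset_span (by simp [hx])
        · exact subset_span (by simp)
        · exact subset_span (by simp)
    · have hb1 : (t 1 : ℂ) ∉ M.closure {(t 0 : ℂ)} := by
        rw [← Fn_one]; exact Fn_not ht le_rfl
      have hb2 : (t 1 : ℂ) ∉ M.closure {(p : ℂ)} := by
        intro h
        apply hb1
        refine cl_le ?_ h
        rintro _ rfl
        rw [← Fn_one]; exact hpcl 1 one_pos
      have ha0 := Fn_not_empty ht 0
      rcases hS with ⟨s1, s2⟩ | ⟨s0, s2⟩ | ⟨s0, s1⟩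
      · refine ⟨t 0, ht0c, ((hrA1 ha0 (hqc ∅) hqne hpt).step (s := {(t 0 : ℂ)})
          (fun z hz => span_cl ?_ hz) (subset_span ⟨0, rfl⟩) hb1).mono (span_le.2 ?_)⟩
        · rintro _ ⟨j, rfl⟩
          fin_cases j
          · exact cl_one _
          · exact cl_self rfl
          · show (p : ℂ) ∈ _
            rw [← Fn_one]; exact hpcl 1 one_pos
        · rintro _ (⟨j, hj, rfl⟩ | rfl | rfl)
          · fin_cases j
            · exact absurd trivial hj
            · exact Submodule.mem_sup_right (subset_span rfl)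
            · exact Submodule.mem_sup_left (subset_span ⟨1, rfl⟩)
            · exact absurd s1 hj
            · exact absurd s2 hj
          · exact Submodule.mem_sup_left (subset_span ⟨0, rfl⟩)
          · exact Submodule.mem_sup_left (subset_span ⟨2, rfl⟩)
      · refine ⟨1, one_ne_zero, (hrA2 ha0 hb1 (hqc ∅) hqne hpt).mono (span_le.2 ?_)⟩
        rintro _ (⟨j, hj, rfl⟩ | rfl | rfl)
        · fin_cases j
          · exact absurd trivial hj
          · exact subset_span ⟨2, rfl⟩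
          · exact absurd s0 hj
          · exact subset_span ⟨3, by simp [hx]⟩
          · exact absurd s2 hj
        · exact subset_span ⟨0, rfl⟩
        · exact subset_span ⟨1, rfl⟩
      · refine ⟨1, one_ne_zero, (hrT hpn hb2).mono (span_le.2 ?_)⟩
        have g1 : (1 : ℂ) ∈ span kk (range (![1, (p : ℂ), (t 1 : ℂ), p * t 1] : Fin 4 → ℂ)) :=
          subset_span ⟨0, rfl⟩
        have gp : (p : ℂ) ∈ span kk (range (![1, (p : ℂ), (t 1 : ℂ), p * t 1] : Fin 4 → ℂ)) :=
          subset_span ⟨1, rfl⟩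
        have gb : (t 1 : ℂ) ∈ span kk (range (![1, (p : ℂ), (t 1 : ℂ), p * t 1] : Fin 4 → ℂ)) :=
          subset_span ⟨2, rfl⟩
        have gpb : (p : ℂ) * t 1 ∈
            span kk (range (![1, (p : ℂ), (t 1 : ℂ), p * t 1] : Fin 4 → ℂ)) :=
          subset_span ⟨3, rfl⟩
        rintro _ (⟨j, hj, rfl⟩ | rfl | rfl)
        · fin_cases j
          · exact absurd trivial hj
          · exact gb
          · exact absurd s0 hj
          · exact absurd s1 hj
          · show ((x 4 : ℝ) : ℂ) ∈ _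
            rw [e4, show (p : ℂ) * ((t 1 : ℂ) - 1) = p * t 1 - p by ring]
            exact Submodule.sub_mem _ gpb gp
        · exact g1
        · exact gp
  have hsub : ∀ {m n : ℕ}, m ≤ n → Fn t m ⊆ Fn t n := fun h => image_mono (Iio_subset_Iio h)
  have d1 := Dfk.good (ws := []) Dfk.bot (empty_subset (Fn t 1)) (pos_t ht 0) (x := 1)
    (by rw [Complex.ofReal_one]; exact cl_one _) (Fn_mem one_pos) (Or.inr (Fn_not_empty ht 0))
  have d2 := d1.kbad (hpcl 1 one_pos)
  have d3 := d2.good (hsub (show 1 ≤ 3 by norm_num)) hq0R (Fn_mem (k := 1) (by norm_num)) (hqc _)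
    (Or.inl (Fn_not ht le_rfl))
  have d4 := d3.ite (hsub (show 3 ≤ 4 by norm_num)) (hYpos 0) (Fn_mem (k := 0) (by norm_num))
    (hYcl 0) (S 0) (hYn 0)
  have m0' : ∀ n, 0 < n → (t 0 : ℂ) ∈ M.closure (Fn t n) := fun n hn => Fn_mem hn
  have m1' : ∀ n, 1 < n → (t 1 : ℂ) ∈ M.closure (Fn t n) := fun n hn => Fn_mem hn
  have d5 := d4.ite (hsub (show 4 ≤ 5 by norm_num)) (hYpos 1) (x := t 0 * (t 1 - 1)) (by
    push_cast
    exact cl_mul (m0' _ (by norm_num)) (cl_sub (m1' _ (by norm_num)) (cl_one _)))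
    (hYcl 1) (S 1) (hYn 1)
  have d6 := d5.ite (hsub (show 5 ≤ 6 by norm_num)) (hYpos 2) (x := p * (t 1 - 1)) (by
    rw [Complex.ofReal_mul, Complex.ofReal_sub, Complex.ofReal_one]
    exact cl_mul (hpcl _ (by norm_num)) (cl_sub (m1' _ (by norm_num)) (cl_one _)))
    (hYcl 2) (S 2) (hYn 2)
  have hk := d6.pp (x := x) (y := y) (p := p) (by simp) (by
    intro i
    fin_cases i <;> simp [hx, hy])
  refine hB.vals ht he hp (hYpos 0) (hYpos 1) (hYpos 2) v2 ?_ ?_ hk
    (SX.xa t ht (q 0) hq0R (hqc ∅) y) (finrank_PP _ _ _)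
  · rw [e3] at v3
    rw [Complex.ofReal_sub, Complex.ofReal_one]
    exact v3
  · rw [e4] at v4
    rw [Complex.ofReal_sub, Complex.ofReal_one]
    exact v4

end Pool.Agent.Helper56.SA
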