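import Pool.Agent.Helper56.SA.CasC
import Pool.Agent.Helper56.SX.XB

/-! The models in which `π + e` is rational. -/

set_option autoImplicit false

namespace Pool.Agent.Helper56.SA

open Pool.Agent.Helper35.EM Pool.Agent.Helper56.EM Module Submodule Set ComplexConjugate

/-- `a` and `s - a` are multiplicatively independent modulo algebraic numbers -/
theorem polyind {a s c : ℂ} (ha : a ∉ M.closure ∅) (hs : s ∈ M.closure ∅) (hs0 : s ≠ 0)
    (hc : c ∈ M.closure ∅) (hc0 : c ≠ 0) {i1 i2 j1 j2 : ℕ} (hi : i1 = 0 ∨ i2 = 0)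
    (hj : j1 = 0 ∨ j2 = 0)
    (h : a ^ i1 * (s - a) ^ j1 = c * (a ^ i2 * (s - a) ^ j2)) :
    i1 = 0 ∧ i2 = 0 ∧ j1 = 0 ∧ j2 = 0 := by
  by_contra hcon
  apply ha
  rw [kk_mem.symm]
  apply cl_idem
  show IsAlgebraic kk a
  let s' : kk := ⟨s, kk_mem.2 hs⟩
  let c' : kk := ⟨c, kk_mem.2 hc⟩
  have hs' : s' ≠ 0 := fun h0 => hs0 (congrArg Subtype.val h0)
  have hc' : c' ≠ 0 := fun h0 => hc0 (congrArg Subtype.val h0)
  refine ⟨Polynomial.X ^ i1 * (Polynomial.C s' - Polynomial.X) ^ j1 -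
    Polynomial.C c' * (Polynomial.X ^ i2 * (Polynomial.C s' - Polynomial.X) ^ j2), ?_, ?_⟩
  · intro h0
    apply hcon
    have e0 := congrArg (Polynomial.eval 0) h0
    have e1 := congrArg (Polynomial.eval s') h0
    simp only [Polynomial.eval_sub, Polynomial.eval_mul, Polynomial.eval_pow, Polynomial.eval_X,
      Polynomial.eval_C, Polynomial.eval_zero, sub_zero, sub_self] at e0 e1
    have g1 : i1 = 0 ∧ i2 = 0 := by
      rcases hi with rfl | rfl
      · refine ⟨rfl, ?_⟩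
        by_contra h2
        rw [zero_pow h2, pow_zero] at e0
        simp at e0
        exact hs' e0.1
      · refine ⟨?_, rfl⟩
        by_contra h2
        rw [zero_pow h2, pow_zero] at e0
        simp at e0
        rcases e0 with e0 | e0
        · exact hc' e0
        · exact hs' e0.1
    have g2 : j1 = 0 ∧ j2 = 0 := by
      rcases hj with rfl | rfl
      · refine ⟨rfl, ?_⟩
        by_contra h2
        rw [zero_pow h2, pow_zero] at e1
        simp at e1
        exact hs' e1.1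
      · refine ⟨?_, rfl⟩
        by_contra h2
        rw [zero_pow h2, pow_zero] at e1
        simp at e1
        rcases e1 with e1 | e1
        · exact hc' e1
        · exact hs' e1.1
    exact ⟨g1.1, g1.2, g2.1, g2.2⟩
  · have e1 : ∀ z : kk, algebraMap kk ℂ z = (z : ℂ) := fun z => rfl
    simp only [map_sub, map_mul, map_pow, Polynomial.aeval_X, Polynomial.aeval_C, e1]
    show a ^ i1 * (s - a) ^ j1 - c * (a ^ i2 * (s - a) ^ j2) = 0
    rw [h, sub_self]

theorem powind {a s : ℝ} (ha : (a : ℂ) ∉ M.closure ∅) (hs : (s : ℂ) ∈ M.closure ∅) (ha0 : 0 < a)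
    (hsa : 0 < s - a) {α β : ℚ}
    (h : Complex.exp ((α : ℂ) * ((Real.log a : ℝ) : ℂ) + (β : ℂ) * ((Real.log (s - a) : ℝ) : ℂ)) ∈
      M.closure ∅) : α = 0 ∧ β = 0 := by
  set d : ℕ := α.den * β.den with hd
  have hd0 : (d : ℚ) ≠ 0 := by
    rw [hd]; exact_mod_cast mul_ne_zero α.den_nz β.den_nz
  set m : ℤ := α.num * β.den with hm
  set n : ℤ := β.num * α.den with hn
  have hm' : (m : ℚ) = d * α := by
    rw [hm, hd]
    push_cast
    rw [← Rat.mul_den_eq_num α]
    push_cast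
    ring
  have hn' : (n : ℚ) = d * β := by
    rw [hn, hd]
    push_cast
    rw [← Rat.mul_den_eq_num β]
    push_cast
    ring
  set c : ℂ := Complex.exp ((α : ℂ) * ((Real.log a : ℝ) : ℂ) +
    (β : ℂ) * ((Real.log (s - a) : ℝ) : ℂ)) ^ d with hc
  have hccl : c ∈ M.closure ∅ := cl_pow d h
  have hc0 : c ≠ 0 := pow_ne_zero _ (Complex.exp_ne_zero _)
  have hA : (a : ℂ) ≠ 0 := by exact_mod_cast ha0.ne'
  have hS : (s : ℂ) - a ≠ 0 := by
    rw [← Complex.ofReal_sub]; exact_mod_cast hsa.ne'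
  have h1 : (a : ℂ) ^ m * ((s : ℂ) - a) ^ n = c := by
    have ea : (a : ℂ) ^ m = Complex.exp (m * ((Real.log a : ℝ) : ℂ)) := by
      rw [Complex.exp_int_mul, exp_rlog ha0]
    have es : ((s : ℂ) - a) ^ n = Complex.exp (n * ((Real.log (s - a) : ℝ) : ℂ)) := by
      rw [Complex.exp_int_mul, exp_rlog hsa, Complex.ofReal_sub]
    rw [ea, es, ← Complex.exp_add, hc, ← Complex.exp_nat_mul]
    congr 1
    have hmc : (m : ℂ) = d * (α : ℂ) := by exact_mod_cast congrArg (Rat.cast (K := ℂ)) hm'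
    have hnc : (n : ℂ) = d * (β : ℂ) := by exact_mod_cast congrArg (Rat.cast (K := ℂ)) hn'
    rw [hmc, hnc]; ring
  have h2 : (a : ℂ) ^ m.toNat * ((s : ℂ) - a) ^ n.toNat =
      c * ((a : ℂ) ^ (-m).toNat * ((s : ℂ) - a) ^ (-n).toNat) := by
    have em : (m.toNat : ℤ) = m + (-m).toNat := by omega
    have en : (n.toNat : ℤ) = n + (-n).toNat := by omega
    have fa : (a : ℂ) ^ m.toNat = (a : ℂ) ^ m * (a : ℂ) ^ (-m).toNat := by
      rw [← zpow_natCast, ← zpow_natCast, em, zpow_add₀ hA]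
    have fs : ((s : ℂ) - a) ^ n.toNat = ((s : ℂ) - a) ^ n * ((s : ℂ) - a) ^ (-n).toNat := by
      rw [← zpow_natCast, ← zpow_natCast, en, zpow_add₀ hS]
    rw [fa, fs, ← h1]; ring
  have hs0 : (s : ℂ) ≠ 0 := by
    have : 0 < s := by linarith
    exact_mod_cast this.ne'
  obtain ⟨g1, g2, g3, g4⟩ := polyind ha hs hs0 hccl hc0 (by omega) (by omega) h2
  have m0 : m = 0 := by omega
  have n0 : n = 0 := by omega
  rw [m0] at hm'
  rw [n0] at hn'
  exact ⟨(mul_eq_zero.1 (by rw [← hm']; rfl)).resolve_left hd0,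
    (mul_eq_zero.1 (by rw [← hn']; rfl)).resolve_left hd0⟩

theorem baseB {t : ℕ → ℝ} (ht : FreeR fun n => (t n : ℂ)) (s : ℚ) {q : ℝ} (hq0 : 0 < q)
    (hq1 : q ≠ 1) (hqa : (q : ℂ) ∈ M.closure ∅) (S : Prop) [Decidable S] (hp0 : 0 < s - t 0) (u : ℝ)
    (hu : (u : ℂ) ∉ M.closure ∅) (hu1 : (u : ℂ) ∈ M.closure (Fn t 1)) :
    BD (fun n => (t n : ℂ)) 4
      (PP ![1, t 1, t 0, u * t 1] ![t 0, s - t 0, t 2, if S then q else t 3] (s - t 0))
      (LL ![1, t 1, t 0, u * t 1] (s - t 0) ![True, True, True, ¬ S])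
      (WW ![1, t 1, t 0, u * t 1] (s - t 0) ![True, True, True, ¬ S]) (t 0) (s - t 0) (t 1) ∧
    Dfk (PP ![1, t 1, t 0, u * t 1] ![t 0, s - t 0, t 2, if S then q else t 3] (s - t 0)) (Fn t 4)
      (0 + 1 + if S then 1 else 0) := by
  set Y : ℝ := if S then q else t 3 with hY
  have hYpos : 0 < Y := by
    rw [hY]
    split_ifs
    · exact hq0
    · exact pos_t ht _
  have hYcl : (Y : ℂ) ∈ M.closure (Fn t 4) := by
    rw [hY]
    split_ifs
    · exact cl_empty_le hqa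
    · exact Fn_mem (by norm_num)
  have hYn : ¬ S → (Y : ℂ) ∉ M.closure (Fn t 3) := by
    intro hi
    rw [hY, if_neg hi]
    exact Fn_not ht le_rfl
  have hYS : S → (Y : ℂ) ∈ M.closure ∅ := by
    intro hi
    rw [hY, if_pos hi]
    exact hqa
  have hsc : ∀ A : Set ℂ, ((s : ℝ) : ℂ) ∈ M.closure A := fun A => by
    have := cl_ratCast A s
    exact_mod_cast this
  set p : ℝ := s - t 0 with hpdef
  have hpc : (p : ℂ) = ((s : ℝ) : ℂ) - t 0 := by rw [hpdef, Complex.ofReal_sub]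
  have hpcl : ∀ n, 0 < n → (p : ℂ) ∈ M.closure (Fn t n) := fun n hn => by
    rw [hpc]; exact cl_sub (hsc _) (Fn_mem hn)
  set x : Fin 4 → ℝ := ![1, t 1, t 0, u * t 1] with hx
  set y : Fin 4 → ℝ := ![t 0, p, t 2, Y] with hy
  set τ : Fin 4 → Prop := ![True, True, True, ¬ S] with hτ
  have e3 : ((x 3 : ℝ) : ℂ) = (u : ℂ) * t 1 := by
    show ((u * t 1 : ℝ) : ℂ) = _
    push_cast; rfl
  have m0 : (t 0 : ℂ) ∈ M.closure (Fn t 4) := Fn_mem (by norm_num)
  have m1 : (t 1 : ℂ) ∈ M.closure (Fn t 4) := Fn_mem (by norm_num)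
  have m2 : (t 2 : ℂ) ∈ M.closure (Fn t 4) := Fn_mem (by norm_num)
  have hypos : ∀ i, 0 < y i := by
    intro i
    fin_cases i
    exacts [pos_t ht 0, hp0, pos_t ht 2, hYpos]
  have n0 : (t 0 : ℂ) ∈ M.closure (Fn t 1) := Fn_mem (by norm_num)
  have np : (p : ℂ) ∈ M.closure (Fn t 1) := hpcl 1 (by norm_num)
  refine ⟨mkBD2 rfl rfl trivial hypos ?_ ?_ (hpcl 4 (by norm_num)) (vT_mem 1) ?_ ?_ ?_ ?_ ?_ ?_, ?_⟩
  · intro i
    fin_cases i
    · show ((1 : ℝ) : ℂ) ∈ _
      rw [Complex.ofReal_one]; exact cl_one _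
    · exact m1
    · exact m0
    · show ((x 3 : ℝ) : ℂ) ∈ _
      rw [e3]; exact cl_mul (Fn_mono (by norm_num) hu1) m1
  · intro i
    fin_cases i
    · exact m0
    · exact hpcl 4 (by norm_num)
    · exact m2
    · exact hYcl
  · intro α γ z hz h
    rw [Fin.sum_univ_four] at h
    have h' : (α 0 : ℂ) * ((1 : ℝ) : ℂ) + (α 1 : ℂ) * (t 1 : ℂ) + (α 2 : ℂ) * (t 0 : ℂ) +
        (α 3 : ℂ) * ((x 3 : ℝ) : ℂ) + γ * (2 * Complex.I * (p : ℂ)) = z := h
    rw [e3, Complex.ofReal_one, mul_one, hpc] at h'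
    have hzs : ∀ A : Set ℂ, z ∈ M.closure A := fun A => cl_empty_le hz
    have hq : ∀ (r : ℚ) (A : Set ℂ), (r : ℂ) ∈ M.closure A := fun r A => cl_ratCast A r
    have h2I : ∀ A : Set ℂ, (2 * Complex.I : ℂ) ∈ M.closure A := fun A => two_I_mem A
    obtain ⟨k1, k2⟩ := l2 (s := Fn t 1) (b := (t 1 : ℂ))
      (u := α 0 + α 2 * t 0 + γ * (2 * Complex.I) * (((s : ℝ) : ℂ) - t 0) - z)
      (v := α 1 + α 3 * u) (Fn_not ht le_rfl)
      (cl_sub (cl_add (cl_add (hq _ _) (cl_mul (hq _ _) n0)) (cl_mul (cl_mul (hq _ _) (h2I _))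
        (cl_sub (hsc _) n0))) (hzs _))
      (cl_add (hq _ _) (cl_mul (hq _ _) hu1)) (by linear_combination h')
    obtain ⟨k3, k4⟩ := l2 hu (hq _ _) (hq _ _) k2
    obtain ⟨k5, k6⟩ := l2 (s := ∅) (b := (t 0 : ℂ))
      (u := α 0 + γ * (2 * Complex.I) * ((s : ℝ) : ℂ) - z)
      (v := α 2 - γ * (2 * Complex.I)) (Fn_not_empty ht 0)
      (cl_sub (cl_add (hq _ _) (cl_mul (cl_mul (hq _ _) (h2I _)) (hsc _))) hz)
      (cl_sub (hq _ _) (cl_mul (hq _ _) (h2I _))) (by linear_combination k1)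
    have a2 : α 2 = 0 := by
      have := congrArg Complex.re k6
      simp at this
      exact this
    have g0 : γ = 0 := by
      rw [a2] at k6
      have := congrArg Complex.im k6
      simp at this
      exact this
    refine ⟨fun i hi => ?_, g0, ?_⟩
    · fin_cases i
      · exact absurd rfl hi
      · exact_mod_cast k3
      · exact a2
      · exact_mod_cast k4
    · rw [g0] at k5
      push_cast at k5
      linear_combination k5
  · intro c g hc hg hτc h
    rw [Fin.sum_univ_four] at h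
    have h' : c 0 * ((1 : ℝ) : ℂ) + c 1 * (t 1 : ℂ) + c 2 * (t 0 : ℂ) +
        c 3 * ((x 3 : ℝ) : ℂ) + g * (p : ℂ) = 0 := h
    have c1 : c 1 = 0 := hτc 1 (by decide) trivial
    have c2 : c 2 = 0 := hτc 2 (by decide) trivial
    rw [e3, Complex.ofReal_one, mul_one, hpc, c1, c2] at h'
    obtain ⟨k1, k2⟩ := l2 (s := Fn t 1) (b := (t 1 : ℂ))
      (u := c 0 + g * (((s : ℝ) : ℂ) - t 0)) (v := c 3 * u) (Fn_not ht le_rfl)
      (cl_add (cl_empty_le (hc 0)) (cl_mul (cl_empty_le hg) (cl_sub (hsc _) n0)))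
      (cl_mul (cl_empty_le (hc 3)) hu1) (by linear_combination h')
    have hu0 : (u : ℂ) ≠ 0 := ne_zero_of hu
    have c3 : c 3 = 0 := (mul_eq_zero.1 k2).resolve_right hu0
    obtain ⟨k3, k4⟩ := l2 (s := ∅) (b := (t 0 : ℂ)) (u := c 0 + g * ((s : ℝ) : ℂ)) (v := -g)
      (Fn_not_empty ht 0) (cl_add (hc 0) (cl_mul hg (hsc _))) (cl_neg hg)
      (by linear_combination k1)
    have g0 : g = 0 := neg_eq_zero.1 k4
    rw [g0, zero_mul, add_zero] at k3
    refine ⟨fun i => ?_, g0⟩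
    fin_cases i
    exacts [k3, c1, c2, c3]
  · intro α hα
    have hch := H2chain (t := t) hypos ![False, False, True, ¬ S] ![1, 1, 3, 4] ![0, 1, 2, 3]
      (by decide) (by
        intro i hi
        fin_cases i
        · exact hi.elim
        · exact hi.elim
        · exact Fn_not ht le_rfl
        · exact hYn hi) (by
        intro i
        fin_cases i
        · exact Fn_mem (by norm_num)
        · exact hpcl 1 (by norm_num)
        · exact Fn_mem (by norm_num)
        · exact hYcl) (by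
        intro i j hi hij
        fin_cases j
        · exact absurd hij (by simp)
        · fin_cases i
          · exact hi.elim
          · exact absurd hij (by simp)
          · exact absurd hij (by simp)
          · exact absurd hij (by simp)
        · exact Or.inl trivial
        · by_cases hS : S
          · exact Or.inr (hYS hS)
          · exact Or.inl hS) α hα
    have a2 : α 2 = 0 := hch 2 trivial
    have a3 : ¬ S → α 3 = 0 := fun h => hch 3 h
    rw [Fin.sum_univ_four] at hα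
    have h' : Complex.exp ((α 0 : ℂ) * ((Real.log (t 0) : ℝ) : ℂ) +
        (α 1 : ℂ) * ((Real.log p : ℝ) : ℂ) + (α 2 : ℂ) * ((Real.log (t 2) : ℝ) : ℂ) +
        (α 3 : ℂ) * ((Real.log Y : ℝ) : ℂ)) ∈ M.closure ∅ := hα
    rw [a2, Rat.cast_zero, zero_mul, add_zero, Complex.exp_add] at h'
    have h3 : Complex.exp ((α 3 : ℂ) * ((Real.log Y : ℝ) : ℂ)) ∈ M.closure ∅ := by
      by_cases hS : S
      · rw [← Rat.smul_def]
        apply cl_exp_smul
        rw [exp_rlog hYpos]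
        exact hYS hS
      · rw [a3 hS, Rat.cast_zero, zero_mul, Complex.exp_zero]; exact cl_one _
    have h4 := cl_div h' h3
    rw [mul_div_cancel_right₀ _ (Complex.exp_ne_zero _)] at h4
    obtain ⟨a0, a1⟩ := powind (Fn_not_empty ht 0) (hsc ∅) (pos_t ht 0) hp0 h4
    intro i hi
    fin_cases i
    exacts [a0, a1, a2, a3 hi]
  · intro β hβ h
    rw [Fin.sum_univ_four] at h
    have b0 : β 0 = 0 := hβ 0 trivial
    have b1 : β 1 = 0 := hβ 1 trivial
    have b2 : β 2 = 0 := hβ 2 trivial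
    have b3 : β 3 = 0 := by
      by_cases hS : S
      · have h' : (β 0 : ℝ) * Real.log (t 0) + (β 1 : ℝ) * Real.log p +
          (β 2 : ℝ) * Real.log (t 2) + (β 3 : ℝ) * Real.log Y = 0 := h
        rw [b0, b1, b2] at h'
        simp only [Rat.cast_zero, zero_mul, zero_add] at h'
        have hlog : Real.log Y ≠ 0 := by
          rw [hY, if_pos hS]
          exact Real.log_ne_zero_of_pos_of_ne_one hq0 hq1
        exact_mod_cast (mul_eq_zero.1 h').resolve_right hlog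
      · exact hβ 3 hS
    intro j
    fin_cases j
    exacts [b0, b1, b2, b3]
  · refine (Nb.of_finrank (m := 2) (W := span kk {1, (p : ℂ), (u : ℂ) * t 1})
      (fin_span (by simp)) (fr3 _ _ _)).mono (span_le.2 ?_)
    rintro _ (⟨j, hj, rfl⟩ | rfl | rfl)
    · fin_cases j
      · exact absurd trivial hj
      · exact absurd trivial hj
      · exact absurd trivial hj
      · exact subset_span (by simp [hx])
    · exact subset_span (by simp)
    · exact subset_span (by simp)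
  · have hpn : (p : ℂ) ∉ M.closure ∅ := by
      intro h
      apply Fn_not_empty ht 0
      have : (t 0 : ℂ) = ((s : ℝ) : ℂ) - (p : ℂ) := by rw [hpc]; ring
      rw [this]
      exact cl_sub (hsc _) h
    have hu0 : (u : ℂ) ≠ 0 := ne_zero_of hu
    have hul : (u : ℂ) * t 1 ∉ M.closure (Fn t 1) := by
      intro h
      apply Fn_not ht (k := 1) le_rfl
      exact (cl_mul_iff hu1 hu0).1 h
    refine ⟨1, one_ne_zero, (((hr1 1).step (s := ∅) (fun z hz => span_cl ?_ hz)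
      (subset_span rfl) hpn).step (s := Fn t 1) ?_ (Submodule.mem_sup_left (subset_span rfl))
        hul).mono (span_le.2 ?_)⟩
    · rintro _ rfl; exact cl_one _
    · intro z hz
      obtain ⟨a, ha, b, hb, rfl⟩ := Submodule.mem_sup.1 hz
      refine cl_add (span_cl ?_ ha) (span_cl ?_ hb)
      · rintro _ rfl; exact cl_one _
      · rintro _ rfl; exact np
    · rintro _ (⟨j, hj, rfl⟩ | rfl | rfl)
      · fin_cases j
        · exact absurd trivial hj
        · exact absurd trivial hj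
        · exact absurd trivial hj
        · refine Submodule.mem_sup_right (subset_span ?_)
          show ((x 3 : ℝ) : ℂ) ∈ _
          rw [e3]; rfl
      · exact Submodule.mem_sup_left (Submodule.mem_sup_left (subset_span rfl))
      · exact Submodule.mem_sup_left (Submodule.mem_sup_right (subset_span rfl))
  · have hsub : ∀ {m n : ℕ}, m ≤ n → Fn t m ⊆ Fn t n := fun h => image_mono (Iio_subset_Iio h)
    have d1 := Dfk.good (ws := []) Dfk.bot (empty_subset (Fn t 1)) (pos_t ht 0) (x := 1)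
      (by rw [Complex.ofReal_one]; exact cl_one _) (Fn_mem one_pos) (Or.inr (Fn_not_empty ht 0))
    have d2 := d1.kbad (hpcl 1 one_pos)
    have d3 := d2.good (hsub (show 1 ≤ 2 by norm_num)) hp0 (Fn_mem (k := 1) (by norm_num))
      (hpcl 2 (by norm_num)) (Or.inl (Fn_not ht le_rfl))
    have d4 := d3.good (hsub (show 2 ≤ 3 by norm_num)) (pos_t ht 2) (Fn_mem (k := 0) (by norm_num))
      (Fn_mem (k := 2) (by norm_num)) (Or.inr (Fn_not ht le_rfl))
    have d5 := d4.ite (hsub (show 3 ≤ 4 by norm_num)) hYpos (x := u * t 1) (by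
      rw [Complex.ofReal_mul]
      exact cl_mul (Fn_mono (by norm_num) hu1) (Fn_mem (by norm_num))) hYcl S hYn
    exact d5.pp (x := x) (y := y) (p := p) (by simp) (by
      intro i
      fin_cases i <;> simp [hx, hy])

/-- `π ^ e` is rational or generic -/
theorem caseB1 {t : ℕ → ℝ} (ht : FreeR fun n => (t n : ℂ)) (s : ℚ) {q : ℝ} (hq0 : 0 < q)
    (hq1 : q ≠ 1) (hqa : (q : ℂ) ∈ M.closure ∅) (S : Prop) [Decidable S] (he : 2 < t 0 ∧ t 0 < 3) (hp : 3 < s - t 0 ∧ s - t 0 < 4) :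
    Vals (t 0) (s - t 0) (t 1) (t 2) (if S then q else t 3)
      (Real.exp (s * Real.log (s - t 0) - Real.log (if S then q else t 3)))
      (0 + 1 + if S then 1 else 0) := by
  have hp0 : 0 < s - t 0 := by linarith
  obtain ⟨hB, hk⟩ := baseB ht s hq0 hq1 hqa S hp0 (t 0) (Fn_not_empty ht 0) (Fn_mem one_pos)
  have hYpos : 0 < (if S then q else t 3) := by
    split_ifs
    · exact hq0
    · exact pos_t ht _
  set Y : ℝ := if S then q else t 3
  have v1 := vT_mem (x := ![1, t 1, t 0, t 0 * t 1]) (y := ![t 0, s - t 0, t 2, Y])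
    (p := s - t 0) 1
  have v2 := vT_mem (x := ![1, t 1, t 0, t 0 * t 1]) (y := ![t 0, s - t 0, t 2, Y])
    (p := s - t 0) 2
  have v3 := vT_mem (x := ![1, t 1, t 0, t 0 * t 1]) (y := ![t 0, s - t 0, t 2, Y])
    (p := s - t 0) 3
  have v3' : ((t 0 : ℂ) * t 1, ((Real.log Y : ℝ) : ℂ)) ∈
      PP ![1, t 1, t 0, t 0 * t 1] ![t 0, s - t 0, t 2, Y] (s - t 0) := by
    have e : (((t 0 * t 1 : ℝ)) : ℂ) = (t 0 : ℂ) * t 1 := by push_cast; rfl
    rw [← e]; exact v3
  refine hB.vals ht he hp (pos_t ht 2) hYpos (Real.exp_pos _) v2 v3' ?_ hk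
    (SX.xb t ht s (t 0) Y hp0 (Or.inl rfl)) ((finrank_PP _ _ _).trans (by norm_num))
  have h := Submodule.sub_mem _ (Submodule.smul_mem _ s v1) v3'
  have e : s • ((((![1, t 1, t 0, t 0 * t 1] : Fin 4 → ℝ) 1 : ℝ) : ℂ),
      ((Real.log ((![t 0, s - t 0, t 2, Y] : Fin 4 → ℝ) 1) : ℝ) : ℂ)) -
      ((t 0 : ℂ) * t 1, ((Real.log Y : ℝ) : ℂ)) =
      ((((s - t 0 : ℝ)) : ℂ) * t 1,
        ((Real.log (Real.exp (s * Real.log (s - t 0) - Real.log Y)) : ℝ) : ℂ)) := by
    rw [Real.log_exp]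
    refine Prod.ext ?_ ?_
    · show s • (t 1 : ℂ) - (t 0 : ℂ) * t 1 = _
      rw [Rat.smul_def]; push_cast; ring
    · show s • ((Real.log (s - t 0) : ℝ) : ℂ) - ((Real.log Y : ℝ) : ℂ) = _
      rw [Rat.smul_def]; push_cast; ring
  rwa [e] at h

/-- `π ^ π` is rational -/
theorem caseB2 {t : ℕ → ℝ} (ht : FreeR fun n => (t n : ℂ)) (s : ℚ) {q : ℝ} (hq0 : 0 < q)
    (hq1 : q ≠ 1) (hqa : (q : ℂ) ∈ M.closure ∅)
    (he : 2 < t 0 ∧ t 0 < 3) (hp : 3 < s - t 0 ∧ s - t 0 < 4) :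
    Vals (t 0) (s - t 0) (t 1) (t 2) (Real.exp (s * Real.log (s - t 0) - Real.log q)) q 2 := by
  have hp0 : 0 < s - t 0 := by linarith
  have hsc : ∀ A : Set ℂ, ((s : ℝ) : ℂ) ∈ M.closure A := fun A => by
    have := cl_ratCast A s
    exact_mod_cast this
  have hpn : ((s - t 0 : ℝ) : ℂ) ∉ M.closure ∅ := by
    intro h
    apply Fn_not_empty ht 0
    have : (t 0 : ℂ) = ((s : ℝ) : ℂ) - ((s - t 0 : ℝ) : ℂ) := by push_cast; ring
    rw [this]
    exact cl_sub (hsc _) h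
  obtain ⟨hB, hk⟩ := baseB ht s hq0 hq1 hqa True hp0 (s - t 0) hpn (by
    rw [Complex.ofReal_sub]; exact cl_sub (hsc _) (Fn_mem one_pos))
  rw [if_pos trivial] at hB hk
  rw [if_pos trivial] at hk
  have hqR : (0 : ℝ) < q := hq0
  set p : ℝ := s - t 0 with hpdef
  have v1 := vT_mem (x := ![1, t 1, t 0, p * t 1]) (y := ![t 0, p, t 2, q]) (p := p) 1
  have v2 := vT_mem (x := ![1, t 1, t 0, p * t 1]) (y := ![t 0, p, t 2, q]) (p := p) 2
  have v3 := vT_mem (x := ![1, t 1, t 0, p * t 1]) (y := ![t 0, p, t 2, q]) (p := p) 3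
  have v3' : ((p : ℂ) * t 1, ((Real.log q : ℝ) : ℂ)) ∈
      PP ![1, t 1, t 0, p * t 1] ![t 0, p, t 2, q] p := by
    have e : (((p * t 1 : ℝ)) : ℂ) = (p : ℂ) * t 1 := by push_cast; rfl
    rw [← e]; exact v3
  refine hB.vals ht he hp (pos_t ht 2) (Real.exp_pos _) hqR v2 ?_ v3' hk
    (SX.xb t ht s p q hp0 (Or.inr rfl)) ((finrank_PP _ _ _).trans (by norm_num))
  have h := Submodule.sub_mem _ (Submodule.smul_mem _ s v1) v3'
  have e : s • ((((![1, t 1, t 0, p * t 1] : Fin 4 → ℝ) 1 : ℝ) : ℂ),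
      ((Real.log ((![t 0, p, t 2, q] : Fin 4 → ℝ) 1) : ℝ) : ℂ)) -
      ((p : ℂ) * t 1, ((Real.log q : ℝ) : ℂ)) =
      ((t 0 : ℂ) * t 1,
        ((Real.log (Real.exp (s * Real.log p - Real.log q)) : ℝ) : ℂ)) := by
    rw [Real.log_exp]
    refine Prod.ext ?_ ?_
    · show s • (t 1 : ℂ) - (p : ℂ) * t 1 = _
      rw [Rat.smul_def, hpdef]; push_cast; ring
    · show s • ((Real.log p : ℝ) : ℂ) - ((Real.log q : ℝ) : ℂ) = _
      rw [Rat.smul_def]; push_cast; ring
  rwa [e] at h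

end Pool.Agent.Helper56.SA
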