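import Pool.Agent.Helper56.SA.Mk

/-! The defect of the bases. -/

set_option autoImplicit false

namespace Pool.Agent.Helper56.SA

open Pool.Agent.Helper35.EM Pool.Agent.Helper56.EM Module Submodule Set

/-- the span of a list -/
noncomputable def sp : List (ℂ × ℂ) → Submodule ℚ (ℂ × ℂ)
  | [] => ⊥
  | w :: ws => sp ws ⊔ span ℚ {w}

theorem mem_sp {w : ℂ × ℂ} {ws : List (ℂ × ℂ)} (h : w ∈ ws) : w ∈ sp ws := by
  induction ws with
  | nil => simp at h
  | cons v ws ih =>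
    rcases List.mem_cons.1 h with rfl | h
    · exact Submodule.mem_sup_right (Submodule.mem_span_singleton_self _)
    · exact Submodule.mem_sup_left (ih h)

section

variable {ws : List (ℂ × ℂ)} {s s' : Set ℂ} {k : ℕ}

/-- the pair of a real number and a logarithm -/
noncomputable abbrev rp (x y : ℝ) : ℂ × ℂ := ((x : ℂ), ((Real.log y : ℝ) : ℂ))

theorem Dfk.good (h : Dfk (sp ws) s k) (hs : s ⊆ s') {x y : ℝ} (hy : 0 < y)
    (h1 : (x : ℂ) ∈ M.closure s') (h2 : (y : ℂ) ∈ M.closure s')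
    (h3 : (x : ℂ) ∉ M.closure s ∨ (y : ℂ) ∉ M.closure s) : Dfk (sp (rp x y :: ws)) s' k := by
  have := h.step (w := rp x y) (fun z hz => cl_self (hs hz)) h1 (by rw [exp_rlog hy]; exact h2) True
    (fun _ => by rw [exp_rlog hy]; exact h3)
  simpa [sp] using this

theorem Dfk.ite (h : Dfk (sp ws) s k) (hs : s ⊆ s') {x y : ℝ} (hy : 0 < y)
    (h1 : (x : ℂ) ∈ M.closure s') (h2 : (y : ℂ) ∈ M.closure s') (S : Prop) [Decidable S]
    (h3 : ¬ S → (y : ℂ) ∉ M.closure s) :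
    Dfk (sp (rp x y :: ws)) s' (k + if S then 1 else 0) := by
  have := h.step (w := rp x y) (fun z hz => cl_self (hs hz)) h1 (by rw [exp_rlog hy]; exact h2)
    (¬ S) (fun hS => by rw [exp_rlog hy]; exact Or.inr (h3 hS))
  by_cases hS : S
  · simpa [hS, sp] using this
  · simpa [hS, sp] using this

theorem Dfk.kgood (h : Dfk (sp ws) s k) (hs : s ⊆ s') {p : ℝ} (h1 : (p : ℂ) ∈ M.closure s')
    (h3 : (p : ℂ) ∉ M.closure s) : Dfk (sp (kp p :: ws)) s' k := by
  have := h.step (w := kp p) (fun z hz => cl_self (hs hz)) (cl_mul (two_I_mem _) h1) (by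
    show Complex.exp (2 * (Real.pi : ℂ) * Complex.I) ∈ _
    rw [Complex.exp_two_pi_mul_I]; exact cl_one _) True (fun _ => Or.inl fun h4 => h3 ?_)
  · simpa [sp] using this
  · exact (cl_mul_iff (two_I_mem _) two_I_ne).1 h4

theorem Dfk.kbad (h : Dfk (sp ws) s k) {p : ℝ} (h1 : (p : ℂ) ∈ M.closure s) :
    Dfk (sp (kp p :: ws)) s (k + 1) := by
  have := h.step (w := kp p) (fun z hz => cl_self hz) (cl_mul (two_I_mem _) h1) (by
    show Complex.exp (2 * (Real.pi : ℂ) * Complex.I) ∈ _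
    rw [Complex.exp_two_pi_mul_I]; exact cl_one _) False (fun h => h.elim)
  simpa [sp] using this

theorem Dfk.pp {m : ℕ} {x y : Fin (m + 1) → ℝ} {p : ℝ} (h : Dfk (sp ws) s k) (h1 : kp p ∈ ws)
    (h2 : ∀ i, rp (x i) (y i) ∈ ws) : Dfk (PP x y p) s k := by
  refine h.mono (span_le.2 ?_)
  rintro _ ⟨(i | _), rfl⟩
  · exact mem_sp (h2 i)
  · exact mem_sp h1

end

theorem finrank_PP {m : ℕ} (x y : Fin (m + 1) → ℝ) (p : ℝ) : finrank ℚ (PP x y p) ≤ m + 2 := by
  have h := finrank_range_le_card (R := ℚ) (vv x y p)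
  have h2 : Fintype.card (Fin (m + 1) ⊕ Unit) = m + 2 := by simp
  rw [h2] at h
  exact h

end Pool.Agent.Helper56.SA
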