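import Pool.Agent.Helper56.SA.Hb
import Pool.Agent.Helper56.SA.Dc
import Pool.Agent.Helper56.SX.Extra
import Pool.Agent.Helper56.SX.XC

/-! The models in which `π` and `e` are independent. -/

set_option autoImplicit false

namespace Pool.Agent.Helper56.SA

open Pool.Agent.Helper35.EM Pool.Agent.Helper56.EM Module Submodule Set ComplexConjugate

/-- there is a field with given constants and values and with defect `k` -/
structure Vals (e p l D B C : ℝ) (k : ℕ) : Prop where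
  ex : ∃ F : ExpField, F.e = e ∧ F.p = p ∧ F.l = l ∧ F.E (e : ℂ) = D ∧ F.E ((e : ℂ) * l) = B ∧
    F.E ((p : ℂ) * l) = C ∧ Theorems F ∧ SchanuelDefect F k ∧ Extra F

theorem BD.vals {t : ℕ → ℂ} (ht : FreeR t) {N : ℕ} {P0 : Submodule ℚ (ℂ × ℂ)}
    {L0 : Submodule ℚ ℂ} {W0 : Submodule kk ℂ} {e p l : ℝ} (h : BD t N P0 L0 W0 e p l)
    (he : 2 < e ∧ e < 3) (hp : 3 < p ∧ p < 4) {D B C : ℝ} (hD : 0 < D) (hB : 0 < B) (hC : 0 < C)
    (h1 : ((e : ℂ), ((Real.log D : ℝ) : ℂ)) ∈ P0)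
    (h2 : ((e : ℂ) * l, ((Real.log B : ℝ) : ℂ)) ∈ P0)
    (h3 : ((p : ℂ) * l, ((Real.log C : ℝ) : ℂ)) ∈ P0) {s : Set ℂ} {k : ℕ} (hk : Dfk P0 s k)
    (hX : SX.XH P0 e p) (hd : finrank ℚ P0 ≤ 6) : Vals e p l D B C k := by
  obtain ⟨F, g1, g2, g3, g4, g5, g6, g7⟩ := h.field ht he hp
  refine ⟨F, g1, g2, g3, ?_, ?_, ?_, g5, g6 s k hk,
    SX.extra_of g7 hX g1 g2 hd g4 ⟨_, h1, Or.inl rfl⟩ ⟨_, h.kap, Or.inl rfl⟩⟩
  · exact (g4 _ h1).trans (exp_rlog hD)
  · exact (g4 _ h2).trans (exp_rlog hB)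
  · exact (g4 _ h3).trans (exp_rlog hC)

theorem caseC {t : ℕ → ℝ} (ht : FreeR fun n => (t n : ℂ)) {q : Fin 3 → ℝ} (hq : AlgInd q)
    (S : Fin 3 → Prop)
    [DecidablePred S] (he : 2 < t 0 ∧ t 0 < 3) (hp : 3 < t 1 ∧ t 1 < 4) :
    Vals (t 0) (t 1) (t 2) (if S 0 then q 0 else t 3) (if S 1 then q 1 else t 4)
      (if S 2 then q 2 else t 5)
      (0 + (if S 0 then 1 else 0) + (if S 1 then 1 else 0) + (if S 2 then 1 else 0)) := by
  set Y : Fin 3 → ℝ := fun i => if S i then q i else t (3 + i) with hY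
  have hYpos : ∀ i, 0 < Y i := by
    intro i
    simp only [hY]
    split_ifs
    · exact hq.pos i
    · exact pos_t ht _
  have hYcl : ∀ i : Fin 3, (Y i : ℂ) ∈ M.closure (Fn t (4 + i)) := by
    intro i
    simp only [hY]
    split_ifs
    · exact cl_empty_le (hq.alg i)
    · exact Fn_mem (by omega)
  have hYn : ∀ i : Fin 3, ¬ S i → (Y i : ℂ) ∉ M.closure (Fn t (3 + i)) := by
    intro i hi
    simp only [hY, if_neg hi]
    exact Fn_not ht le_rfl
  have hYr : ∀ i : Fin 3, ¬ S i ∨ (Y i : ℂ) ∈ M.closure ∅ := by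
    intro i
    by_cases hi : S i
    · right
      simp only [hY, if_pos hi]
      exact hq.alg i
    · exact Or.inl hi
  set x : Fin 5 → ℝ := ![1, t 2, t 0, t 0 * t 2, t 1 * t 2] with hx
  set y : Fin 5 → ℝ := ![t 0, t 1, Y 0, Y 1, Y 2] with hy
  set τ : Fin 5 → Prop := ![True, True, ¬ S 0, ¬ S 1, ¬ S 2] with hτ
  have m0 : (t 0 : ℂ) ∈ M.closure (Fn t 6) := Fn_mem (by norm_num)
  have m1 : (t 1 : ℂ) ∈ M.closure (Fn t 6) := Fn_mem (by norm_num)
  have m2 : (t 2 : ℂ) ∈ M.closure (Fn t 6) := Fn_mem (by norm_num)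
  have hypos : ∀ i, 0 < y i := by
    intro i
    fin_cases i
    exacts [pos_t ht 0, pos_t ht 1, hYpos 0, hYpos 1, hYpos 2]
  have hB : BD (fun n => (t n : ℂ)) 6 (PP x y (t 1)) (LL x (t 1) τ) (WW x (t 1) τ) (t 0) (t 1)
      (t 2) := by
    refine mkBD rfl rfl trivial hypos ?_ ?_ m1 (vT_mem 1) ?_ ?_ ?_ ?_ ?_
    · intro i
      fin_cases i
      · show ((1 : ℝ) : ℂ) ∈ _
        rw [Complex.ofReal_one]; exact cl_one _
      · exact m2
      · exact m0
      · show ((t 0 * t 2 : ℝ) : ℂ) ∈ _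
        rw [Complex.ofReal_mul]; exact cl_mul m0 m2
      · show ((t 1 * t 2 : ℝ) : ℂ) ∈ _
        rw [Complex.ofReal_mul]; exact cl_mul m1 m2
    · intro i
      fin_cases i
      · exact m0
      · exact m1
      · exact Fn_mono (by norm_num) (hYcl 0)
      · exact Fn_mono (by norm_num) (hYcl 1)
      · exact hYcl 2
    · intro c g hc hg h
      rw [Fin.sum_univ_five] at h
      change c 0 * ((1 : ℝ) : ℂ) + c 1 * ((t 2 : ℝ) : ℂ) + c 2 * ((t 0 : ℝ) : ℂ) +
        c 3 * ((t 0 * t 2 : ℝ) : ℂ) + c 4 * ((t 1 * t 2 : ℝ) : ℂ) + g * ((t 1 : ℝ) : ℂ) = 0 at h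
      rw [Complex.ofReal_mul, Complex.ofReal_mul, Complex.ofReal_one, mul_one] at h
      have hcs : ∀ i (s : Set ℂ), c i ∈ M.closure s := fun i s => cl_empty_le (hc i)
      have hgs : ∀ (s : Set ℂ), g ∈ M.closure s := fun s => cl_empty_le hg
      have n0 : (t 0 : ℂ) ∈ M.closure (Fn t 2) := Fn_mem (by norm_num)
      have n1 : (t 1 : ℂ) ∈ M.closure (Fn t 2) := Fn_mem (by norm_num)
      obtain ⟨k1, k2⟩ := l2 (s := Fn t 2) (b := (t 2 : ℂ)) (u := c 0 + c 2 * t 0 + g * t 1)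
        (v := c 1 + c 3 * t 0 + c 4 * t 1) (Fn_not ht le_rfl)
        (cl_add (cl_add (hcs _ _) (cl_mul (hcs _ _) n0)) (cl_mul (hgs _) n1))
        (cl_add (cl_add (hcs _ _) (cl_mul (hcs _ _) n0)) (cl_mul (hcs _ _) n1))
        (by linear_combination h)
      have n00 : (t 0 : ℂ) ∈ M.closure (Fn t 1) := Fn_mem (by norm_num)
      obtain ⟨k3, k4⟩ := l2 (Fn_not ht le_rfl) (cl_add (hcs 0 (Fn t 1)) (cl_mul (hcs 2 _) n00))
        (hgs _) k1
      obtain ⟨k5, k6⟩ := l2 (Fn_not ht le_rfl) (cl_add (hcs 1 (Fn t 1)) (cl_mul (hcs 3 _) n00))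
        (hcs 4 _) k2
      obtain ⟨k7, k8⟩ := l2 (Fn_not_empty ht 0) (hc 0) (hc 2) k3
      obtain ⟨k9, k10⟩ := l2 (Fn_not_empty ht 0) (hc 1) (hc 3) k5
      refine ⟨fun i => ?_, k4⟩
      fin_cases i
      exacts [k7, k9, k8, k10, k6]
    · intro α hα
      refine H2chain (t := t) hypos τ ![1, 2, 4, 5, 6] ![0, 1, 3, 4, 5] (by decide) ?_ ?_ ?_ α hα
      · intro i hi
        fin_cases i
        · exact Fn_not ht le_rfl
        · exact Fn_not ht le_rfl
        · exact hYn 0 hi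
        · exact hYn 1 hi
        · exact hYn 2 hi
      · intro i
        fin_cases i
        · exact Fn_mem (by norm_num)
        · exact Fn_mem (by norm_num)
        · exact hYcl 0
        · exact hYcl 1
        · exact hYcl 2
      · intro i j _ _
        fin_cases j
        · exact Or.inl trivial
        · exact Or.inl trivial
        · exact hYr 0
        · exact hYr 1
        · exact hYr 2
    · intro β hβ h
      rw [Fin.sum_univ_five] at h
      have b0 : β 0 = 0 := hβ 0 trivial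
      have b1 : β 1 = 0 := hβ 1 trivial
      have hT : ∀ (j : Fin 3) (b : ℚ), (¬ S j → b = 0) →
          (b : ℝ) * Real.log (Y j) = (b : ℝ) * Real.log (q j) := by
        intro j b hb
        by_cases hj : S j
        · simp only [hY, if_pos hj]
        · rw [hb hj]; simp
      change (β 0 : ℝ) * Real.log (t 0) + (β 1 : ℝ) * Real.log (t 1) + (β 2 : ℝ) * Real.log (Y 0) +
        (β 3 : ℝ) * Real.log (Y 1) + (β 4 : ℝ) * Real.log (Y 2) = 0 at h
      rw [b0, b1, hT 0 (β 2) (fun h0 => hβ 2 h0), hT 1 (β 3) (fun h0 => hβ 3 h0),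
        hT 2 (β 4) (fun h0 => hβ 4 h0)] at h
      have h' := hq.ind ![β 2, β 3, β 4] (by
        rw [Fin.sum_univ_three]
        simpa using h)
      intro j
      fin_cases j
      exacts [b0, b1, h' 0, h' 1, h' 2]
    · refine (nbC (a := (t 0 : ℂ)) (p := (t 1 : ℂ)) (l := (t 2 : ℂ)) ?_ ?_).mono (span_le.2 ?_)
      · rw [← Fn_one]; exact Fn_not ht le_rfl
      · rw [← Fn_two]; exact Fn_not ht le_rfl
      · rintro _ (⟨j, hj, rfl⟩ | rfl | rfl)
        · fin_cases j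
          · exact absurd trivial hj
          · exact absurd trivial hj
          · exact subset_span (by simp [hx])
          · exact subset_span (by simp [hx])
          · exact subset_span (by simp [hx])
        · exact subset_span (by simp)
        · exact subset_span (by simp)
    · refine ⟨1, one_ne_zero, (hrC (a := (t 0 : ℂ)) (p := (t 1 : ℂ)) (l := (t 2 : ℂ)) ?_ ?_
        ?_).mono (span_le.2 ?_)⟩
      · exact Fn_not_empty ht 0
      · rw [← Fn_one]; exact Fn_not ht le_rfl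
      · rw [← Fn_two]; exact Fn_not ht le_rfl
      · rintro _ (⟨j, hj, rfl⟩ | rfl | rfl)
        · fin_cases j
          · exact absurd trivial hj
          · exact absurd trivial hj
          · exact subset_span ⟨2, rfl⟩
          · exact subset_span ⟨3, by simp [hx]⟩
          · exact subset_span ⟨4, by simp [hx]⟩
        · exact subset_span ⟨0, rfl⟩
        · exact subset_span ⟨1, rfl⟩
  have v2 := vT_mem (x := x) (y := y) (p := t 1) 2
  have v3 := vT_mem (x := x) (y := y) (p := t 1) 3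
  have v4 := vT_mem (x := x) (y := y) (p := t 1) 4
  have hsub : ∀ n, Fn t n ⊆ Fn t (n + 1) := fun n => image_mono (Iio_subset_Iio (Nat.le_succ n))
  have d1 := Dfk.good (ws := []) Dfk.bot (empty_subset (Fn t 1)) (pos_t ht 0) (x := 1)
    (by rw [Complex.ofReal_one]; exact cl_one _) (Fn_mem one_pos) (Or.inr (Fn_not_empty ht 0))
  have d2 := d1.kgood (hsub 1) (Fn_mem (k := 1) (by norm_num)) (Fn_not ht le_rfl)
  have d3 := d2.good (hsub 2) (pos_t ht 1) (Fn_mem (k := 2) (by norm_num))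
    (Fn_mem (k := 1) (by norm_num)) (Or.inl (Fn_not ht le_rfl))
  have d4 := d3.ite (hsub 3) (hYpos 0) (Fn_mem (k := 0) (by norm_num)) (hYcl 0) (S 0) (hYn 0)
  have d5 := d4.ite (hsub 4) (hYpos 1) (x := t 0 * t 2) (by
    rw [Complex.ofReal_mul]
    exact cl_mul (Fn_mem (by norm_num)) (Fn_mem (by norm_num))) (hYcl 1) (S 1) (hYn 1)
  have d6 := d5.ite (hsub 5) (hYpos 2) (x := t 1 * t 2) (by
    rw [Complex.ofReal_mul]
    exact cl_mul (Fn_mem (by norm_num)) (Fn_mem (by norm_num))) (hYcl 2) (S 2) (hYn 2)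
  have hk := d6.pp (x := x) (y := y) (p := t 1) (by simp) (by
    intro i
    fin_cases i <;> simp [hx, hy])
  refine hB.vals ht he hp (hYpos 0) (hYpos 1) (hYpos 2) v2 ?_ ?_ hk (SX.xc t ht y)
    (finrank_PP _ _ _)
  · have e : ((x 3 : ℝ) : ℂ) = (t 0 : ℂ) * t 2 := by
      show ((t 0 * t 2 : ℝ) : ℂ) = _
      rw [Complex.ofReal_mul]
    rw [e] at v3
    exact v3
  · have e : ((x 4 : ℝ) : ℂ) = (t 1 : ℂ) * t 2 := by
      show ((t 1 * t 2 : ℝ) : ℂ) = _
      rw [Complex.ofReal_mul]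
    rw [e] at v4
    exact v4

end Pool.Agent.Helper56.SA
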