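import Pool.Agent.Helper56.SA.CasB
import Pool.Agent.Helper56.SX.XD

/-! The models in which `π + e` is algebraic and irrational. -/

set_option autoImplicit false

namespace Pool.Agent.Helper56.SA

open Pool.Agent.Helper35.EM Pool.Agent.Helper56.EM Module Submodule Set ComplexConjugate

theorem nbD {a l : ℂ} (hl : l ∉ M.closure {a}) {s : ℂ} (hs : s ∈ M.closure ∅) :
    Nb 2 (span kk {1, s - a, a * l, (s - a) * l}) := by
  have h1 : ∀ x ∈ ({1, a} : Set ℂ), x ∈ M.closure {a} := by
    rintro x (rfl | rfl)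
    · exact cl_one _
    · exact cl_self rfl
  have hp : s - a ∈ span kk {1, a} := by
    refine Submodule.mem_span_pair.2 ⟨⟨s, kk_mem.2 hs⟩, -1, ?_⟩
    rw [Algebra.smul_def, mul_one, neg_smul, one_smul, ← sub_eq_add_neg]
    rfl
  refine (Nb.prod (m0 := 1) (m1 := 1) (m := 2) hl (A := span kk {1, a}) (B := span kk {1, a})
    (Nb.of_finrank (fin_span (by simp)) (fr2 _ _)) (Nb.of_finrank (fin_span (by simp)) (fr2 _ _))
    (fun x hx => span_cl h1 hx) (fun x hx => span_cl h1 hx) le_rfl (fr2 _ _)).mono (span_le.2 ?_)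
  rintro z (rfl | rfl | rfl | rfl)
  · exact mem_ev (u := 1) (v := 0) (subset_span (by simp)) (Submodule.zero_mem _) (by ring)
  · exact mem_ev (u := s - a) (v := 0) hp (Submodule.zero_mem _) (by ring)
  · exact mem_ev (u := 0) (v := a) (Submodule.zero_mem _) (subset_span (by simp)) (by ring)
  · exact mem_ev (u := 0) (v := s - a) (Submodule.zero_mem _) hp (by ring)

theorem caseD {t : ℕ → ℝ} (ht : FreeR fun n => (t n : ℂ)) {s : ℝ} (hsa : (s : ℂ) ∈ M.closure ∅)
    (hsi : Irrational s) {q : Fin 2 → ℝ} (hq : AlgInd q) (S : Fin 2 → Prop) [DecidablePred S]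
    (he : 2 < t 0 ∧ t 0 < 3) (hp : 3 < s - t 0 ∧ s - t 0 < 4) :
    Vals (t 0) (s - t 0) (t 1) (t 2) (if S 0 then q 0 else t 3) (if S 1 then q 1 else t 4)
      (0 + 1 + (if S 0 then 1 else 0) + (if S 1 then 1 else 0)) := by
  set Y : Fin 2 → ℝ := fun i => if S i then q i else t (3 + i) with hY
  have hYpos : ∀ i, 0 < Y i := by
    intro i
    simp only [hY]
    split_ifs
    · exact hq.pos i
    · exact pos_t ht _
  have hYcl : ∀ i : Fin 2, (Y i : ℂ) ∈ M.closure (Fn t (4 + i)) := by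
    intro i
    simp only [hY]
    split_ifs
    · exact cl_empty_le (hq.alg i)
    · exact Fn_mem (by omega)
  have hYn : ∀ i : Fin 2, ¬ S i → (Y i : ℂ) ∉ M.closure (Fn t (3 + i)) := by
    intro i hi
    simp only [hY, if_neg hi]
    exact Fn_not ht le_rfl
  have hYS : ∀ i : Fin 2, S i → (Y i : ℂ) ∈ M.closure ∅ := by
    intro i hi
    simp only [hY, if_pos hi]
    exact hq.alg i
  have hYr : ∀ i : Fin 2, ¬ S i ∨ (Y i : ℂ) ∈ M.closure ∅ := by
    intro i
    by_cases hi : S i
    · exact Or.inr (hYS i hi)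
    · exact Or.inl hi
  have hsc : ∀ A : Set ℂ, (s : ℂ) ∈ M.closure A := fun A => cl_empty_le hsa
  set p : ℝ := s - t 0 with hpdef
  have hp0 : 0 < p := by linarith
  have hpc : (p : ℂ) = (s : ℂ) - t 0 := by rw [hpdef, Complex.ofReal_sub]
  have hpcl : ∀ n, 0 < n → (p : ℂ) ∈ M.closure (Fn t n) := fun n hn => by
    rw [hpc]; exact cl_sub (hsc _) (Fn_mem hn)
  have hs0 : (s : ℂ) ≠ 0 := by
    intro h
    have : s = 0 := by exact_mod_cast h
    rw [this] at hsi
    exact hsi ⟨0, by simp⟩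
  set x : Fin 5 → ℝ := ![1, t 1, t 0, t 0 * t 1, p * t 1] with hx
  set y : Fin 5 → ℝ := ![t 0, p, t 2, Y 0, Y 1] with hy
  set τ : Fin 5 → Prop := ![True, True, True, ¬ S 0, ¬ S 1] with hτ
  have e3 : ((x 3 : ℝ) : ℂ) = (t 0 : ℂ) * t 1 := by
    show ((t 0 * t 1 : ℝ) : ℂ) = _
    push_cast; rfl
  have e4 : ((x 4 : ℝ) : ℂ) = (p : ℂ) * t 1 := by
    show ((p * t 1 : ℝ) : ℂ) = _
    push_cast; rfl
  have m0 : (t 0 : ℂ) ∈ M.closure (Fn t 5) := Fn_mem (by norm_num)
  have m1 : (t 1 : ℂ) ∈ M.closure (Fn t 5) := Fn_mem (by norm_num)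
  have m2 : (t 2 : ℂ) ∈ M.closure (Fn t 5) := Fn_mem (by norm_num)
  have hypos : ∀ i, 0 < y i := by
    intro i
    fin_cases i
    exacts [pos_t ht 0, hp0, pos_t ht 2, hYpos 0, hYpos 1]
  have n0 : (t 0 : ℂ) ∈ M.closure (Fn t 1) := Fn_mem (by norm_num)
  have np : (p : ℂ) ∈ M.closure (Fn t 1) := hpcl 1 (by norm_num)
  have v2 := vT_mem (x := x) (y := y) (p := p) 2
  have v3 := vT_mem (x := x) (y := y) (p := p) 3
  have v4 := vT_mem (x := x) (y := y) (p := p) 4
  have hB : BD (fun n => (t n : ℂ)) 5 (PP x y p) (LL x p τ) (WW x p τ) (t 0) p (t 1) := by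
    refine mkBD2 rfl rfl trivial hypos ?_ ?_ (hpcl 5 (by norm_num)) (vT_mem 1) ?_ ?_ ?_ ?_ ?_ ?_
    · intro i
      fin_cases i
      · show ((1 : ℝ) : ℂ) ∈ _
        rw [Complex.ofReal_one]; exact cl_one _
      · exact m1
      · exact m0
      · show ((x 3 : ℝ) : ℂ) ∈ _
        rw [e3]; exact cl_mul m0 m1
      · show ((x 4 : ℝ) : ℂ) ∈ _
        rw [e4]; exact cl_mul (hpcl 5 (by norm_num)) m1
    · intro i
      fin_cases i
      · exact m0
      · exact hpcl 5 (by norm_num)
      · exact m2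
      · exact Fn_mono (by norm_num) (hYcl 0)
      · exact hYcl 1
    · intro α γ z hz h
      rw [Fin.sum_univ_five] at h
      have h' : (α 0 : ℂ) * ((1 : ℝ) : ℂ) + (α 1 : ℂ) * (t 1 : ℂ) + (α 2 : ℂ) * (t 0 : ℂ) +
          (α 3 : ℂ) * ((x 3 : ℝ) : ℂ) + (α 4 : ℂ) * ((x 4 : ℝ) : ℂ) +
          γ * (2 * Complex.I * (p : ℂ)) = z := h
      rw [e3, e4, Complex.ofReal_one, mul_one, hpc] at h'
      have hzs : ∀ A : Set ℂ, z ∈ M.closure A := fun A => cl_empty_le hz
      have hqq : ∀ (r : ℚ) (A : Set ℂ), (r : ℂ) ∈ M.closure A := fun r A => cl_ratCast A r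
      have h2I : ∀ A : Set ℂ, (2 * Complex.I : ℂ) ∈ M.closure A := fun A => two_I_mem A
      obtain ⟨k1, k2⟩ := l2 (s := Fn t 1) (b := (t 1 : ℂ))
        (u := α 0 + α 2 * t 0 + γ * (2 * Complex.I) * ((s : ℂ) - t 0) - z)
        (v := α 1 + α 3 * t 0 + α 4 * ((s : ℂ) - t 0)) (Fn_not ht le_rfl)
        (cl_sub (cl_add (cl_add (hqq _ _) (cl_mul (hqq _ _) n0)) (cl_mul (cl_mul (hqq _ _) (h2I _))
          (cl_sub (hsc _) n0))) (hzs _))
        (cl_add (cl_add (hqq _ _) (cl_mul (hqq _ _) n0)) (cl_mul (hqq _ _) (cl_sub (hsc _) n0)))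
        (by linear_combination h')
      obtain ⟨k3, k4⟩ := l2 (s := ∅) (b := (t 0 : ℂ)) (u := α 1 + α 4 * (s : ℂ))
        (v := (α 3 : ℂ) - α 4) (Fn_not_empty ht 0)
        (cl_add (hqq _ _) (cl_mul (hqq _ _) hsa)) (cl_sub (hqq _ _) (hqq _ _))
        (by linear_combination k2)
      have a4 : α 4 = 0 := by
        by_contra h4
        apply hsi
        refine ⟨-α 1 / α 4, ?_⟩
        have h4' : (α 4 : ℝ) ≠ 0 := by exact_mod_cast h4
        have k3' : (α 1 : ℝ) + α 4 * s = 0 := by exact_mod_cast k3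
        push_cast
        field_simp
        linarith
      have a3 : α 3 = 0 := by
        rw [a4] at k4
        push_cast at k4
        rw [sub_zero] at k4
        exact_mod_cast k4
      have a1 : α 1 = 0 := by
        rw [a4] at k3
        push_cast at k3
        rw [zero_mul, add_zero] at k3
        exact_mod_cast k3
      obtain ⟨k5, k6⟩ := l2 (s := ∅) (b := (t 0 : ℂ))
        (u := α 0 + γ * (2 * Complex.I) * (s : ℂ) - z)
        (v := α 2 - γ * (2 * Complex.I)) (Fn_not_empty ht 0)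
        (cl_sub (cl_add (hqq _ _) (cl_mul (cl_mul (hqq _ _) (h2I _)) (hsc _))) hz)
        (cl_sub (hqq _ _) (cl_mul (hqq _ _) (h2I _))) (by linear_combination k1)
      have a2 : α 2 = 0 := by
        have := congrArg Complex.re k6
        simp at this
        exact this
      have g0 : γ = 0 := by
        rw [a2] at k6
        have := congrArg Complex.im k6
        simp at this
        exact this
      refine ⟨fun i hi => ?_, g0, ?_⟩
      · fin_cases i
        · exact absurd rfl hi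
        · exact a1
        · exact a2
        · exact a3
        · exact a4
      · rw [g0] at k5
        push_cast at k5
        linear_combination k5
    · intro c g hc hg hτc h
      rw [Fin.sum_univ_five] at h
      have h' : c 0 * ((1 : ℝ) : ℂ) + c 1 * (t 1 : ℂ) + c 2 * (t 0 : ℂ) +
          c 3 * ((x 3 : ℝ) : ℂ) + c 4 * ((x 4 : ℝ) : ℂ) + g * (p : ℂ) = 0 := h
      have c1 : c 1 = 0 := hτc 1 (by decide) trivial
      have c2 : c 2 = 0 := hτc 2 (by decide) trivial
      rw [e3, e4, Complex.ofReal_one, mul_one, hpc, c1, c2] at h'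
      obtain ⟨k1, k2⟩ := l2 (s := Fn t 1) (b := (t 1 : ℂ))
        (u := c 0 + g * ((s : ℂ) - t 0)) (v := c 3 * t 0 + c 4 * ((s : ℂ) - t 0)) (Fn_not ht le_rfl)
        (cl_add (cl_empty_le (hc 0)) (cl_mul (cl_empty_le hg) (cl_sub (hsc _) n0)))
        (cl_add (cl_mul (cl_empty_le (hc 3)) n0) (cl_mul (cl_empty_le (hc 4))
          (cl_sub (hsc _) n0))) (by linear_combination h')
      obtain ⟨k5, k6⟩ := l2 (s := ∅) (b := (t 0 : ℂ)) (u := c 4 * s) (v := c 3 - c 4)
        (Fn_not_empty ht 0) (cl_mul (hc 4) hsa) (cl_sub (hc 3) (hc 4))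
        (by linear_combination k2)
      have c4 : c 4 = 0 := (mul_eq_zero.1 k5).resolve_right hs0
      have c3 : c 3 = 0 := by rw [c4, sub_zero] at k6; exact k6
      obtain ⟨k3, k4⟩ := l2 (s := ∅) (b := (t 0 : ℂ)) (u := c 0 + g * (s : ℂ)) (v := -g)
        (Fn_not_empty ht 0) (cl_add (hc 0) (cl_mul hg (hsc _))) (cl_neg hg)
        (by linear_combination k1)
      have g0 : g = 0 := neg_eq_zero.1 k4
      rw [g0, zero_mul, add_zero] at k3
      refine ⟨fun i => ?_, g0⟩
      fin_cases i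
      exacts [k3, c1, c2, c3, c4]
    · intro α hα
      have hch := H2chain (t := t) hypos ![False, False, True, ¬ S 0, ¬ S 1] ![1, 1, 3, 4, 5]
        ![0, 1, 2, 3, 4] (by decide) (by
          intro i hi
          fin_cases i
          · exact hi.elim
          · exact hi.elim
          · exact Fn_not ht le_rfl
          · exact hYn 0 hi
          · exact hYn 1 hi) (by
          intro i
          fin_cases i
          · exact Fn_mem (by norm_num)
          · exact hpcl 1 (by norm_num)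
          · exact Fn_mem (by norm_num)
          · exact hYcl 0
          · exact hYcl 1) (by
          intro i j hi hij
          fin_cases j
          · exact absurd hij (by simp)
          · fin_cases i
            · exact hi.elim
            · exact absurd hij (by simp)
            · exact absurd hij (by simp)
            · exact absurd hij (by simp)
            · exact absurd hij (by simp)
          · exact Or.inl trivial
          · exact hYr 0
          · exact hYr 1) α hα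
      have a2 : α 2 = 0 := hch 2 trivial
      have a3 : ¬ S 0 → α 3 = 0 := fun h => hch 3 h
      have a4 : ¬ S 1 → α 4 = 0 := fun h => hch 4 h
      rw [Fin.sum_univ_five] at hα
      have h' : Complex.exp ((α 0 : ℂ) * ((Real.log (t 0) : ℝ) : ℂ) +
          (α 1 : ℂ) * ((Real.log p : ℝ) : ℂ) + (α 2 : ℂ) * ((Real.log (t 2) : ℝ) : ℂ) +
          (α 3 : ℂ) * ((Real.log (Y 0) : ℝ) : ℂ) + (α 4 : ℂ) * ((Real.log (Y 1) : ℝ) : ℂ)) ∈
          M.closure ∅ := hα
      have h3 : ∀ (j : Fin 2) (r : ℚ), (¬ S j → r = 0) →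
          Complex.exp ((r : ℂ) * ((Real.log (Y j) : ℝ) : ℂ)) ∈ M.closure ∅ := by
        intro j r hr
        by_cases hS : S j
        · rw [← Rat.smul_def]
          apply cl_exp_smul
          rw [exp_rlog (hYpos j)]
          exact hYS j hS
        · rw [hr hS, Rat.cast_zero, zero_mul, Complex.exp_zero]; exact cl_one _
      rw [Complex.exp_add] at h'
      have h4 := cl_div h' (h3 1 (α 4) a4)
      rw [mul_div_cancel_right₀ _ (Complex.exp_ne_zero _), Complex.exp_add] at h4
      have h5 := cl_div h4 (h3 0 (α 3) a3)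
      rw [mul_div_cancel_right₀ _ (Complex.exp_ne_zero _), a2, Rat.cast_zero, zero_mul,
        add_zero] at h5
      obtain ⟨a0, a1⟩ := powind (Fn_not_empty ht 0) hsa (pos_t ht 0) hp0 h5
      intro i hi
      fin_cases i
      exacts [a0, a1, a2, a3 hi, a4 hi]
    · intro β hβ h
      rw [Fin.sum_univ_five] at h
      have b0 : β 0 = 0 := hβ 0 trivial
      have b1 : β 1 = 0 := hβ 1 trivial
      have b2 : β 2 = 0 := hβ 2 trivial
      have hT : ∀ (j : Fin 2) (b : ℚ), (¬ S j → b = 0) →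
          (b : ℝ) * Real.log (Y j) = (b : ℝ) * Real.log (q j) := by
        intro j b hb
        by_cases hj : S j
        · simp only [hY, if_pos hj]
        · rw [hb hj]; simp
      change (β 0 : ℝ) * Real.log (t 0) + (β 1 : ℝ) * Real.log p + (β 2 : ℝ) * Real.log (t 2) +
        (β 3 : ℝ) * Real.log (Y 0) + (β 4 : ℝ) * Real.log (Y 1) = 0 at h
      rw [b0, b1, b2, hT 0 (β 3) (fun h0 => hβ 3 h0), hT 1 (β 4) (fun h0 => hβ 4 h0)] at h
      have h' := hq.ind ![β 3, β 4] (by
        rw [Fin.sum_univ_two]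
        simpa using h)
      intro j
      fin_cases j
      exacts [b0, b1, b2, h' 0, h' 1]
    · refine (nbD (a := (t 0 : ℂ)) (l := (t 1 : ℂ)) (s := (s : ℂ)) (by
        rw [← Fn_one]; exact Fn_not ht le_rfl) hsa).mono (span_le.2 ?_)
      rintro _ (⟨j, hj, rfl⟩ | rfl | rfl)
      · fin_cases j
        · exact absurd trivial hj
        · exact absurd trivial hj
        · exact absurd trivial hj
        · refine subset_span ?_
          show ((x 3 : ℝ) : ℂ) ∈ _
          rw [e3]; simp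
        · refine subset_span ?_
          show ((x 4 : ℝ) : ℂ) ∈ _
          rw [e4, hpc]; simp
      · exact subset_span (by simp)
      · refine subset_span ?_
        rw [hpc]; simp
    · refine ⟨1, one_ne_zero, (hrT (Fn_not_empty ht 0) (by
        rw [← Fn_one]; exact Fn_not ht le_rfl : (t 1 : ℂ) ∉ M.closure {(t 0 : ℂ)})).mono
          (span_le.2 ?_)⟩
      have g1 : (1 : ℂ) ∈ span kk (range (![1, (t 0 : ℂ), (t 1 : ℂ), t 0 * t 1] : Fin 4 → ℂ)) :=
        subset_span ⟨0, rfl⟩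
      have ga : (t 0 : ℂ) ∈ span kk (range (![1, (t 0 : ℂ), (t 1 : ℂ), t 0 * t 1] : Fin 4 → ℂ)) :=
        subset_span ⟨1, rfl⟩
      have gl : (t 1 : ℂ) ∈ span kk (range (![1, (t 0 : ℂ), (t 1 : ℂ), t 0 * t 1] : Fin 4 → ℂ)) :=
        subset_span ⟨2, rfl⟩
      have gal : (t 0 : ℂ) * t 1 ∈
          span kk (range (![1, (t 0 : ℂ), (t 1 : ℂ), t 0 * t 1] : Fin 4 → ℂ)) :=
        subset_span ⟨3, rfl⟩
      have hs1 : ∀ z ∈ span kk (range (![1, (t 0 : ℂ), (t 1 : ℂ), t 0 * t 1] : Fin 4 → ℂ)),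
          (s : ℂ) * z ∈ span kk (range (![1, (t 0 : ℂ), (t 1 : ℂ), t 0 * t 1] : Fin 4 → ℂ)) := by
        intro z hz
        have := Submodule.smul_mem _ (⟨(s : ℂ), kk_mem.2 hsa⟩ : kk) hz
        rwa [kk_smul] at this
      rintro _ (⟨j, hj, rfl⟩ | rfl | rfl)
      · fin_cases j
        · exact absurd trivial hj
        · exact absurd trivial hj
        · exact absurd trivial hj
        · show ((x 3 : ℝ) : ℂ) ∈ _
          rw [e3]; exact gal
        · show ((x 4 : ℝ) : ℂ) ∈ _
          rw [e4, hpc, show ((s : ℂ) - t 0) * t 1 = s * t 1 - t 0 * t 1 by ring]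
          exact Submodule.sub_mem _ (hs1 _ gl) gal
      · exact g1
      · show (p : ℂ) ∈ _
        rw [hpc, show (s : ℂ) - t 0 = s * 1 - t 0 by ring]
        exact Submodule.sub_mem _ (hs1 _ g1) ga
  have hsub : ∀ {m n : ℕ}, m ≤ n → Fn t m ⊆ Fn t n := fun h => image_mono (Iio_subset_Iio h)
  have d1 := Dfk.good (ws := []) Dfk.bot (empty_subset (Fn t 1)) (pos_t ht 0) (x := 1)
    (by rw [Complex.ofReal_one]; exact cl_one _) (Fn_mem one_pos) (Or.inr (Fn_not_empty ht 0))
  have d2 := d1.kbad (hpcl 1 one_pos)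
  have d3 := d2.good (hsub (show 1 ≤ 2 by norm_num)) hp0 (Fn_mem (k := 1) (by norm_num))
    (hpcl 2 (by norm_num)) (Or.inl (Fn_not ht le_rfl))
  have d4 := d3.good (hsub (show 2 ≤ 3 by norm_num)) (pos_t ht 2) (Fn_mem (k := 0) (by norm_num))
    (Fn_mem (k := 2) (by norm_num)) (Or.inr (Fn_not ht le_rfl))
  have d5 := d4.ite (hsub (show 3 ≤ 4 by norm_num)) (hYpos 0) (x := t 0 * t 1) (by
    rw [Complex.ofReal_mul]
    exact cl_mul (Fn_mem (by norm_num)) (Fn_mem (by norm_num))) (hYcl 0) (S 0) (hYn 0)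
  have d6 := d5.ite (hsub (show 4 ≤ 5 by norm_num)) (hYpos 1) (x := p * t 1) (by
    rw [Complex.ofReal_mul]
    exact cl_mul (hpcl _ (by norm_num)) (Fn_mem (by norm_num))) (hYcl 1) (S 1) (hYn 1)
  have hk := d6.pp (x := x) (y := y) (p := p) (by simp) (by
    intro i
    fin_cases i <;> simp [hx, hy])
  refine hB.vals ht he hp (pos_t ht 2) (hYpos 0) (hYpos 1) v2 ?_ ?_ hk
    (SX.xd t ht s hsa hsi y) (finrank_PP _ _ _)
  · rw [e3] at v3
    exact v3
  · rw [e4] at v4
    exact v4

end Pool.Agent.Helper56.SA
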