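import Pool.Agent.Helper56.SA.Def

/-! The six exclusions. -/

set_option autoImplicit false

namespace Pool.Agent.Helper56.SA

open Complex

variable {F : ExpField}

theorem alg_mem {z : ℂ} (h : IsAlgebraic ℚ z) : z ∈ F.K := F.closed z (h.tower_top F.K)

theorem alg_I : IsAlgebraic ℚ I := by
  refine IsAlgebraic.of_pow (n := 2) two_pos ?_
  rw [I_sq]
  exact (isAlgebraic_one (R := ℚ)).neg

theorem alg_rat (q : ℚ) : IsAlgebraic ℚ (q : ℂ) := isAlgebraic_algebraMap (A := ℂ) q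

theorem rat_alg {z : ℂ} (h : Rat' z) : IsAlgebraic ℚ z := by
  obtain ⟨q, rfl⟩ := h
  exact alg_rat q

theorem E_zero : F.E 0 = 1 := (F.ker 0 (zero_mem _)).2 ⟨0, by simp⟩

theorem E_ne {x : ℂ} (hx : x ∈ F.K) : F.E x ≠ 0 := by
  intro h
  have h1 := F.E_add x hx (-x) (neg_mem hx)
  rw [add_neg_cancel, E_zero, h, zero_mul] at h1
  exact one_ne_zero h1

theorem E_neg {x : ℂ} (hx : x ∈ F.K) : F.E (-x) = (F.E x)⁻¹ := by
  have h1 := F.E_add x hx (-x) (neg_mem hx)
  rw [add_neg_cancel, E_zero] at h1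
  exact eq_inv_of_mul_eq_one_right h1.symm

theorem E_nat {x : ℂ} (hx : x ∈ F.K) (n : ℕ) : F.E (n * x) = F.E x ^ n := by
  induction n with
  | zero => simp [E_zero]
  | succ n ih =>
    rw [Nat.cast_succ, add_mul, one_mul, F.E_add _ (mul_mem (natCast_mem _ n) hx) _ hx, ih, pow_succ]

theorem E_int {x : ℂ} (hx : x ∈ F.K) (n : ℤ) : F.E (n * x) = F.E x ^ n := by
  obtain ⟨m, rfl | rfl⟩ := n.eq_nat_or_neg
  · simpa using E_nat hx m
  · have : ((-(m : ℤ) : ℤ) : ℂ) * x = -((m : ℂ) * x) := by push_cast; ring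
    rw [this, E_neg (mul_mem (natCast_mem _ m) hx), E_nat hx, zpow_neg, zpow_natCast]

theorem E_rat {x : ℂ} (hx : x ∈ F.K) (q : ℚ) (h : IsAlgebraic ℚ (F.E x)) :
    IsAlgebraic ℚ (F.E (q * x)) := by
  have hq : (q : ℂ) * x ∈ F.K := mul_mem (SubfieldClass.ratCast_mem _ q) hx
  refine IsAlgebraic.of_pow (n := q.den) q.den_pos ?_
  rw [← E_nat hq, ← mul_assoc]
  have : ((q.den : ℂ) * (q : ℂ)) = (q.num : ℂ) := by
    have h1 : (q.den : ℚ) * q = q.num := by rw [mul_comm]; exact Rat.mul_den_eq_num q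
    exact_mod_cast congrArg (fun x : ℚ => (x : ℂ)) h1
  rw [this, E_int hx]
  obtain ⟨m, hm | hm⟩ := q.num.eq_nat_or_neg
  · rw [hm, zpow_natCast]; exact h.pow m
  · rw [hm, zpow_neg, zpow_natCast]; exact (h.pow m).inv

theorem log_zero : IsLog F 0 := ⟨zero_mem _, by rw [E_zero]; exact isAlgebraic_one⟩

theorem log_add {u v : ℂ} (hu : IsLog F u) (hv : IsLog F v) : IsLog F (u + v) :=
  ⟨add_mem hu.1 hv.1, by rw [F.E_add _ hu.1 _ hv.1]; exact hu.2.mul hv.2⟩

theorem log_rat {u : ℂ} (hu : IsLog F u) (q : ℚ) : IsLog F (q * u) :=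
  ⟨mul_mem (SubfieldClass.ratCast_mem _ q) hu.1, E_rat hu.1 q hu.2⟩

theorem kap_mem : (2 * F.p * I : ℂ) ∈ F.K :=
  mul_mem (mul_mem (natCast_mem _ 2) F.p_mem) (alg_mem alg_I)

theorem kap_log : IsLog F (2 * F.p * I) :=
  ⟨kap_mem, by rw [(F.ker _ kap_mem).2 ⟨1, by simp⟩]; exact isAlgebraic_one⟩

theorem p_ne : (F.p : ℂ) ≠ 0 := by
  have := F.p_bound.1
  exact_mod_cast (by linarith : (0 : ℝ) < F.p).ne'

theorem kap_ne : (2 * F.p * I : ℂ) ≠ 0 :=
  mul_ne_zero (mul_ne_zero two_ne_zero p_ne) I_ne_zero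

theorem e_ne : (F.e : ℂ) ≠ 0 := by
  have := F.e_bound.1
  exact_mod_cast (by linarith : (0 : ℝ) < F.e).ne'

/-- `log π + 1`, the logarithm of `π e` -/
theorem lam_E : F.E (F.l + 1) = F.p * F.e := by
  rw [F.E_add _ F.l_mem _ (one_mem _), F.E_l, F.E_one]

theorem lam_ne : (F.l + 1 : ℂ) ≠ 0 := by
  intro h
  have h1 := lam_E (F := F)
  rw [h, E_zero] at h1
  have h2 : (1 : ℝ) = F.p * F.e := by exact_mod_cast h1
  nlinarith [F.p_bound.1, F.e_bound.1]

theorem l_ne : (F.l : ℂ) ≠ 0 := by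
  intro h
  have h1 := F.E_l
  rw [h, E_zero] at h1
  have h2 : (1 : ℝ) = F.p := by exact_mod_cast h1
  linarith [F.p_bound.1]

theorem e_tr (hL : LindemannWeierstrass F) : ¬ IsAlgebraic ℚ (F.e : ℂ) := by
  have h := hL 1 ![1] (by intro i; fin_cases i; exact isAlgebraic_one)
    (by
      rw [linearIndependent_unique_iff]
      simp)
  have h1 := h.transcendental 0
  have h2 : F.E ((![1] : Fin 1 → ℂ) 0) = F.e := by simpa using F.E_one
  rw [h2] at h1
  exact h1

/-- one logarithm -/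
theorem B1 (hB : Baker F) {u : ℂ} (hu : IsLog F u) (ha : IsAlgebraic ℚ u) : u = 0 := by
  by_contra hne
  have := hB 1 ![u] (by intro i; fin_cases i; exact hu)
    (by
      rw [linearIndependent_unique_iff]
      simpa using hne) (-u) ![1] ha.neg (by intro i; fin_cases i; exact isAlgebraic_one) (by simp)
  have h1 := this.2 0
  simp at h1

theorem p_tr (hB : Baker F) : ¬ IsAlgebraic ℚ (F.p : ℂ) := by
  intro h
  exact kap_ne (B1 hB (F := F) kap_log (((alg_rat 2).mul h).mul alg_I |> fun h => by simpa using h))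

/-- two independent logarithms -/
theorem B2 (hB : Baker F) {u v : ℂ} (hu : IsLog F u) (hv : IsLog F v)
    (hi : LinearIndependent ℚ ![u, v]) {c₀ c d : ℂ} (h0 : IsAlgebraic ℚ c₀) (hc : IsAlgebraic ℚ c)
    (hd : IsAlgebraic ℚ d) (h : c₀ + c * u + d * v = 0) : c₀ = 0 ∧ c = 0 ∧ d = 0 := by
  have := hB 2 ![u, v] (by intro i; fin_cases i; exacts [hu, hv]) hi c₀ ![c, d] h0
    (by intro i; fin_cases i; exacts [hc, hd]) (by
      rw [Fin.sum_univ_two]; simpa [add_assoc] using h)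
  exact ⟨this.1, this.2 0, this.2 1⟩

theorem ratio (hB : Baker F) {u v : ℂ} (hu : IsLog F u) (hv : IsLog F v) (hv0 : v ≠ 0) {α β : ℂ}
    (ha : IsAlgebraic ℚ α) (hb : IsAlgebraic ℚ β) (h : u = α * v + β) : ∃ q : ℚ, u = q * v := by
  by_cases hi : LinearIndependent ℚ ![u, v]
  · have := B2 hB hu hv hi hb.neg isAlgebraic_one ha.neg (by rw [h]; ring)
    exact absurd this.2.1 one_ne_zero
  · rw [LinearIndependent.pair_iff] at hi
    push Not at hi
    obtain ⟨s, t, hst, hne⟩ := hi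
    by_cases hs : s = 0
    · subst hs
      rw [zero_smul, zero_add, smul_eq_zero] at hst
      rcases hst with h1 | h1
      · exact absurd h1 (hne rfl)
      · exact absurd h1 hv0
    · refine ⟨-t / s, ?_⟩
      have hs' : (s : ℂ) ≠ 0 := by exact_mod_cast hs
      have h1 : (s : ℂ) * u + (t : ℂ) * v = 0 := by
        simpa [Algebra.smul_def] using hst
      push_cast
      field_simp
      linear_combination h1

/-- no constant term -/
theorem B0 (hB : Baker F) {n : ℕ} (u : Fin n → ℂ) (hu : ∀ i, IsLog F (u i)) {c₀ : ℂ}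
    (c : Fin n → ℂ) (h0 : IsAlgebraic ℚ c₀) (hc : ∀ i, IsAlgebraic ℚ (c i))
    (h : c₀ + ∑ i, c i * u i = 0) : c₀ = 0 := by
  obtain ⟨b, hb, hs, hi⟩ := exists_linearIndependent ℚ (Set.range u)
  have hfin : b.Finite := (Set.finite_range u).subset hb
  have := hfin.fintype
  have hmem : ∀ i, ∃ f : b → ℚ, u i = ∑ j, f j • (j : ℂ) := by
    intro i
    have h1 : u i ∈ Submodule.span ℚ b := by
      rw [hs]; exact Submodule.subset_span ⟨i, rfl⟩
    have h2 : u i ∈ Submodule.span ℚ (Set.range (Subtype.val : b → ℂ)) := by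
      rwa [Subtype.range_coe]
    obtain ⟨f, hf⟩ := (Submodule.mem_span_range_iff_exists_fun ℚ).1 h2
    exact ⟨f, hf.symm⟩
  choose f hf using hmem
  let g : Fin (Fintype.card b) ≃ b := (Fintype.equivFin b).symm
  have := hB (Fintype.card b) (fun j => (g j : ℂ)) (fun j => by
      obtain ⟨i, hi⟩ := hb (g j).2
      rw [← hi]; exact hu i) (hi.comp g g.injective) c₀
    (fun j => ∑ i, c i * (f i (g j) : ℂ)) h0
    (fun j => by
      rw [← mem_algebraicClosure_iff]
      exact sum_mem fun i _ => mem_algebraicClosure_iff.2 ((hc i).mul (alg_rat _))) ?_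
  · exact this.1
  · rw [← h]
    congr 1
    have e1 : ∀ i, c i * u i = ∑ j, c i * (f i (g j) : ℂ) * (g j : ℂ) := by
      intro i
      rw [hf i, Finset.mul_sum, ← Equiv.sum_comp g]
      refine Finset.sum_congr rfl fun j _ => ?_
      rw [Algebra.smul_def]
      simp only [eq_ratCast]
      ring
    simp_rw [e1]
    rw [Finset.sum_comm]
    refine Finset.sum_congr rfl fun j _ => ?_
    rw [Finset.sum_mul]

/-- a real number and the kernel -/
theorem indep_real {x : ℝ} (hx : x ≠ 0) : LinearIndependent ℚ ![(x : ℂ), 2 * F.p * I] := by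
  rw [LinearIndependent.pair_iff]
  intro s t h
  have h1 : (s : ℂ) * x + (t : ℂ) * (2 * F.p * I) = 0 := by
    simpa [Algebra.smul_def] using h
  have hre := congrArg Complex.re h1
  have him := congrArg Complex.im h1
  have hp := F.p_bound.1
  simp at hre him
  refine ⟨hre.resolve_right hx, ?_⟩
  rcases him with h2 | h2
  · exact h2
  · linarith

theorem lam_real : ((F.l + 1 : ℝ) : ℂ) = F.l + 1 := by push_cast; ring

theorem lam_log (h : IsAlgebraic ℚ ((F.p : ℂ) * F.e)) : IsLog F (F.l + 1) :=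
  ⟨add_mem F.l_mem (one_mem _), by rw [lam_E]; exact h⟩

theorem lf_log {u : ℂ} (h : IsLog F u) : LogForm F u :=
  ⟨1, ![u], 0, ![1], by intro i; fin_cases i; exact h, isAlgebraic_zero,
    by intro i; fin_cases i; exact isAlgebraic_one, by simp⟩

theorem lf_add_alg {u c a : ℂ} (h : IsLog F u) (hc : IsAlgebraic ℚ c) (ha : IsAlgebraic ℚ a) :
    LogForm F (a + c * u) :=
  ⟨1, ![u], a, ![c], by intro i; fin_cases i; exact h, ha, by intro i; fin_cases i; exact hc,
    by simp⟩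

theorem lf_alg {a : ℂ} (ha : IsAlgebraic ℚ a) : LogForm F a :=
  ⟨0, Fin.elim0, a, Fin.elim0, fun i => i.elim0, ha, fun i => i.elim0, by simp⟩

theorem alg_half_I : IsAlgebraic ℚ (1 / (2 * I) : ℂ) := by
  rw [one_div]
  exact (((alg_rat 2).mul alg_I).inv |> fun h => by simpa using h)

theorem p_kap : (F.p : ℂ) = 1 / (2 * I) * (2 * F.p * I) := by
  field_simp

theorem lf_p : LogForm F (F.p : ℂ) := by
  have := lf_add_alg (F := F) kap_log alg_half_I isAlgebraic_zero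
  rwa [zero_add, ← p_kap] at this

theorem lf_l (h : IsAlgebraic ℚ ((F.p : ℂ) * F.e)) : LogForm F (F.l : ℂ) := by
  have := lf_add_alg (F := F) (lam_log h) isAlgebraic_one (isAlgebraic_one (R := ℚ)).neg
  have e : (-1 : ℂ) + 1 * (F.l + 1) = F.l := by ring
  rwa [e] at this

theorem indep_one {z : ℂ} (h : ¬ IsAlgebraic ℚ z) : Indep ![1, z] := by
  intro c hc hs
  rw [Fin.sum_univ_two] at hs
  simp at hs
  have h1 : c 1 = 0 := by
    by_contra hne
    apply h
    have e : z = -(c 0) * (c 1)⁻¹ := by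
      field_simp
      linear_combination hs
    rw [e]
    exact (hc 0).neg.mul (hc 1).inv
  intro i
  fin_cases i
  · simpa [h1] using hs
  · exact h1

theorem six (hS : StrongSixExponentials F) {a b c d : ℂ} (h : Indep ![1, a])
    (h1 : LogForm F b) (h2 : LogForm F c) (h3 : LogForm F d)
    (h4 : LogForm F (a * b)) (h5 : LogForm F (a * c)) (h6 : LogForm F (a * d)) :
    ¬ Indep ![b, c, d] := by
  intro hi
  obtain ⟨i, j, hij⟩ := hS ![1, a] ![b, c, d] h hi
  fin_cases i <;> fin_cases j <;> simp at hij <;> contradiction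

/-- linear dependence of `1, l, x` when `l + 1` is a logarithm -/
theorem dep_ratio (hB : Baker F) {x : ℂ} (hr : IsAlgebraic ℚ ((F.p : ℂ) * F.e)) (hx : IsLog F x)
    (h : ¬ Indep ![1, (F.l : ℂ), x]) : ∃ q : ℚ, x = q * (F.l + 1) := by
  rw [Indep] at h
  push Not at h
  obtain ⟨c, hc, hs, i, hi⟩ := h
  rw [Fin.sum_univ_three] at hs
  simp at hs
  by_cases h2 : c 2 = 0
  · rw [h2, zero_mul, add_zero] at hs
    have h1 : c 1 = 0 := by
      by_contra hne
      apply lam_ne (F := F)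
      refine B1 hB (lam_log hr) ?_
      have e : (F.l : ℂ) + 1 = -(c 0) * (c 1)⁻¹ + 1 := by
        field_simp
        linear_combination hs
      rw [e]
      exact ((hc 0).neg.mul (hc 1).inv).add isAlgebraic_one
    rw [h1, zero_mul, add_zero] at hs
    fin_cases i
    · exact absurd hs hi
    · exact absurd h1 hi
    · exact absurd h2 hi
  · refine ratio hB hx (lam_log hr) lam_ne (α := -(c 1) * (c 2)⁻¹) (β := (c 1 - c 0) * (c 2)⁻¹)
      ((hc 1).neg.mul (hc 2).inv) (((hc 1).sub (hc 0)).mul (hc 2).inv) ?_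
    field_simp
    linear_combination hs

section

variable (hL : LindemannWeierstrass F) (hB : Baker F) (hS : StrongSixExponentials F)
include hL hB hS

omit hB hS in
theorem x1 (h0 : IsAlgebraic ℚ (F.p + F.e : ℂ)) (h1 : IsAlgebraic ℚ ((F.p : ℂ) * F.e)) : False := by
  apply e_tr hL
  have h2 : IsAlgebraic ℚ (((2 : ℚ) : ℂ) * F.e - (F.p + F.e)) := by
    refine IsAlgebraic.of_pow (n := 2) two_pos ?_
    have e : (((2 : ℚ) : ℂ) * F.e - (F.p + F.e)) ^ 2 =
        (F.p + F.e) ^ 2 - ((4 : ℚ) : ℂ) * (F.p * F.e) := by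
      push_cast; ring
    rw [e]
    exact (h0.pow 2).sub ((alg_rat 4).mul h1)
  have e : (F.e : ℂ) = ((1 / 2 : ℚ) : ℂ) * ((((2 : ℚ) : ℂ) * F.e - (F.p + F.e)) + (F.p + F.e)) := by
    push_cast; ring
  rw [e]
  exact (alg_rat _).mul (h2.add h0)

omit hL hS in
theorem x2 (h0 : IsAlgebraic ℚ (F.p + F.e : ℂ)) (h1 : IsAlgebraic ℚ (F.E F.e)) : False := by
  have he : F.e ≠ 0 := by linarith [F.e_bound.1]
  have := B2 hB (F := F) ⟨F.e_mem, h1⟩ kap_log (indep_real he) h0.neg isAlgebraic_one alg_half_I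
    (by rw [← p_kap]; ring)
  exact one_ne_zero this.2.1

theorem x3 (h1 : IsAlgebraic ℚ ((F.p : ℂ) * F.e)) (h2 : IsAlgebraic ℚ (F.E (F.e * F.l)))
    (h3 : IsAlgebraic ℚ (F.E F.e)) : False := by
  have hel : IsLog F (F.e * F.l : ℂ) := ⟨mul_mem F.e_mem F.l_mem, h2⟩
  have he : IsLog F (F.e : ℂ) := ⟨F.e_mem, h3⟩
  refine six hS (indep_one (e_tr hL)) (b := 1) (c := F.p) (d := F.l + 1)
    (lf_alg isAlgebraic_one) lf_p (lf_log (lam_log h1))
    (by rw [mul_one]; exact lf_log he) (by rw [mul_comm]; exact lf_alg h1)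
    (by rw [mul_add, mul_one]; exact lf_log (log_add hel he)) ?_
  intro c hc hs
  rw [Fin.sum_univ_three] at hs
  simp at hs
  have hlr : F.l + 1 ≠ 0 := by
    have := lam_ne (F := F)
    intro h
    apply this
    rw [← lam_real, h, ofReal_zero]
  have := B2 hB (F := F) (u := ((F.l + 1 : ℝ) : ℂ)) (by rw [lam_real]; exact lam_log h1) kap_log
    (indep_real hlr) (hc 0) (hc 2) (d := c 1 * (1 / (2 * I))) ((hc 1).mul alg_half_I) (by
      rw [mul_assoc (c 1), ← p_kap, lam_real]; linear_combination hs)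
  intro i
  fin_cases i
  · exact this.1
  · have h5 := this.2.2
    have h6 : (1 / (2 * I) : ℂ) ≠ 0 := by simp
    exact (mul_eq_zero.1 h5).resolve_right h6
  · exact this.2.1

omit hL in
theorem x4 (h1 : IsAlgebraic ℚ ((F.p : ℂ) * F.e)) (h2 : IsAlgebraic ℚ (F.E (F.e * F.l)))
    (h3 : IsAlgebraic ℚ (F.E (F.p * F.l))) : False := by
  have hel : IsLog F (F.e * F.l : ℂ) := ⟨mul_mem F.e_mem F.l_mem, h2⟩
  have hpl : IsLog F (F.p * F.l : ℂ) := ⟨mul_mem F.p_mem F.l_mem, h3⟩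
  have hd := six hS (indep_one (p_tr hB)) (b := 1) (c := F.l) (d := F.e * F.l)
    (lf_alg isAlgebraic_one) (lf_l h1) (lf_log hel)
    (by rw [mul_one]; exact lf_p) (lf_log hpl)
    (by
      have := lf_add_alg (F := F) (lam_log h1) h1 h1.neg
      have e : -((F.p : ℂ) * F.e) + (F.p : ℂ) * F.e * (F.l + 1) = F.p * (F.e * F.l) := by ring
      rwa [e] at this)
  obtain ⟨q, hq⟩ := dep_ratio hB h1 hel hd
  have hq0 : (q : ℂ) ≠ 0 := by
    intro h
    rw [h, zero_mul] at hq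
    exact mul_ne_zero e_ne l_ne hq
  have hr0 : (F.p : ℂ) * F.e ≠ 0 := mul_ne_zero p_ne e_ne
  have := B0 hB (F := F) ![F.p * F.l, 2 * F.p * I, F.l + 1]
    (by intro i; fin_cases i; exacts [hpl, kap_log, lam_log h1])
    (c₀ := (F.p : ℂ) * F.e / q) ![1, 1 / (2 * I), -((F.p : ℂ) * F.e / q)]
    (by rw [div_eq_mul_inv]; exact h1.mul (alg_rat q).inv)
    (by
      intro i
      fin_cases i
      · exact isAlgebraic_one
      · exact alg_half_I
      · show IsAlgebraic ℚ (-((F.p : ℂ) * F.e / q))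
        rw [div_eq_mul_inv]; exact (h1.mul (alg_rat q).inv).neg)
    (by
      rw [Fin.sum_univ_three]
      show (F.p : ℂ) * F.e / q + (1 * (F.p * F.l) + 1 / (2 * I) * (2 * F.p * I) +
        -((F.p : ℂ) * F.e / q) * (F.l + 1)) = 0
      rw [← p_kap]
      field_simp
      linear_combination (-(F.p : ℂ)) * hq)
  exact div_ne_zero hr0 hq0 this

omit hL in
theorem x5 (h1 : IsAlgebraic ℚ ((F.p : ℂ) * F.e)) (h2 : IsAlgebraic ℚ (F.E F.e))
    (h3 : IsAlgebraic ℚ (F.E (F.p * F.l))) : False := by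
  have he : IsLog F (F.e : ℂ) := ⟨F.e_mem, h2⟩
  have hpl : IsLog F (F.p * F.l : ℂ) := ⟨mul_mem F.p_mem F.l_mem, h3⟩
  have hd := six hS (indep_one (p_tr hB)) (b := 1) (c := F.l) (d := F.e)
    (lf_alg isAlgebraic_one) (lf_l h1) (lf_log he)
    (by rw [mul_one]; exact lf_p) (lf_log hpl) (lf_alg h1)
  obtain ⟨q, hq⟩ := dep_ratio hB h1 he hd
  have hq0 : (q : ℂ) ≠ 0 := by
    intro h
    rw [h, zero_mul] at hq
    exact e_ne hq
  have hr0 : (F.p : ℂ) * F.e ≠ 0 := mul_ne_zero p_ne e_ne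
  have := B0 hB (F := F) ![F.p * F.l, 2 * F.p * I]
    (by intro i; fin_cases i; exacts [hpl, kap_log])
    (c₀ := -((F.p : ℂ) * F.e / q)) ![1, 1 / (2 * I)]
    (by rw [div_eq_mul_inv]; exact (h1.mul (alg_rat q).inv).neg)
    (by
      intro i
      fin_cases i
      · exact isAlgebraic_one
      · exact alg_half_I)
    (by
      rw [Fin.sum_univ_two]
      show -((F.p : ℂ) * F.e / q) + (1 * (F.p * F.l) + 1 / (2 * I) * (2 * F.p * I)) = 0
      rw [← p_kap]
      field_simp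
      linear_combination (-(F.p : ℂ)) * hq)
  exact neg_ne_zero.2 (div_ne_zero hr0 hq0) this

omit hL hS in
theorem x6 (h0 : Rat' (F.p + F.e : ℂ)) (h2 : IsAlgebraic ℚ (F.E (F.e * F.l)))
    (h3 : IsAlgebraic ℚ (F.E (F.p * F.l))) : False := by
  obtain ⟨s, hs⟩ := h0
  have hel : IsLog F (F.e * F.l : ℂ) := ⟨mul_mem F.e_mem F.l_mem, h2⟩
  have hpl : IsLog F (F.p * F.l : ℂ) := ⟨mul_mem F.p_mem F.l_mem, h3⟩
  have h4 := log_add hpl hel
  rw [← add_mul, hs] at h4
  have hs0 : s ≠ 0 := by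
    rintro rfl
    have h5 : F.p + F.e = 0 := by exact_mod_cast hs
    linarith [F.p_bound.1, F.e_bound.1]
  have h6 := log_rat h4 s⁻¹
  have e : ((s⁻¹ : ℚ) : ℂ) * ((s : ℂ) * F.l) = F.l := by
    have : (s : ℂ) ≠ 0 := by exact_mod_cast hs0
    push_cast
    field_simp
  rw [e] at h6
  have h7 := h6.2
  rw [F.E_l] at h7
  exact p_tr hB h7

/-- the six exclusions -/
theorem excl : ¬ (Rat' (five F 0) ∧ Rat' (five F 1)) ∧ ¬ (Rat' (five F 0) ∧ Rat' (five F 3)) ∧
    ¬ (Rat' (five F 1) ∧ Rat' (five F 2) ∧ Rat' (five F 3)) ∧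
    ¬ (Rat' (five F 1) ∧ Rat' (five F 2) ∧ Rat' (five F 4)) ∧
    ¬ (Rat' (five F 1) ∧ Rat' (five F 3) ∧ Rat' (five F 4)) ∧
    ¬ (Rat' (five F 0) ∧ Rat' (five F 2) ∧ Rat' (five F 4)) := by
  have f0 : five F 0 = F.p + F.e := rfl
  have f1 : five F 1 = F.p * F.e := rfl
  have f2 : five F 2 = F.E (F.e * F.l) := rfl
  have f3 : five F 3 = F.E F.e := rfl
  have f4 : five F 4 = F.E (F.p * F.l) := rfl
  rw [f0, f1, f2, f3, f4]
  exact ⟨fun h => x1 hL (rat_alg h.1) (rat_alg h.2), fun h => x2 hB (rat_alg h.1) (rat_alg h.2),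
    fun h => x3 hL hB hS (rat_alg h.1) (rat_alg h.2.1) (rat_alg h.2.2),
    fun h => x4 hB hS (rat_alg h.1) (rat_alg h.2.1) (rat_alg h.2.2),
    fun h => x5 hB hS (rat_alg h.1) (rat_alg h.2.1) (rat_alg h.2.2),
    fun h => x6 hB h.1 (rat_alg h.2.1) (rat_alg h.2.2)⟩

end

end Pool.Agent.Helper56.SA
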