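import Pool.Agent.Helper56.SA.Vl

/-! The models of all admissible patterns. -/

set_option autoImplicit false

namespace Pool.Agent.Helper56.SA

open Pool.Agent.Helper35.EM Pool.Agent.Helper56.EM Set

/-- `F` has the given constants and values, and the theorems hold in it -/
structure FV (F : ExpField) (e p l D B C : ℝ) (k : ℕ) : Prop where
  he : F.e = e
  hp : F.p = p
  hl : F.l = l
  hD : F.E (e : ℂ) = D
  hB : F.E ((e : ℂ) * l) = B
  hC : F.E ((p : ℂ) * l) = C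
  thm : Theorems F
  df : SchanuelDefect F k
  ex : Extra F

theorem Vals.fv {e p l D B C : ℝ} {k : ℕ} (h : Vals e p l D B C k) :
    ∃ F, FV F e p l D B C k := by
  obtain ⟨F, h1, h2, h3, h4, h5, h6, h7, h8, h9⟩ := h.ex
  exact ⟨F, h1, h2, h3, h4, h5, h6, h7, h8, h9⟩

/-- the number of algebraic values -/
def nalg (f : Fin 5 → Fin 3) : ℕ := (Finset.univ.filter fun i => f i ≠ 2).card

theorem nalg_eq (f : Fin 5 → Fin 3) : nalg f = (if f 0 ≠ 2 then 1 else 0) +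
    (if f 1 ≠ 2 then 1 else 0) + (if f 2 ≠ 2 then 1 else 0) + (if f 3 ≠ 2 then 1 else 0) +
    (if f 4 ≠ 2 then 1 else 0) := by
  rw [nalg, Finset.card_filter, Fin.sum_univ_five]

theorem SchanuelDefect.mono {F : ExpField} {k k' : ℕ} (h : SchanuelDefect F k) (hk : k ≤ k') :
    SchanuelDefect F k' := by
  intro n z hz hi
  refine (h n z hz hi).trans ?_
  gcongr

/-- the constants and values are near the true ones -/
structure NR (ε e p l D B C : ℝ) : Prop where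
  ce : |e - Real.exp 1| < ε
  cp : |p - Real.pi| < ε
  cl : |l - Real.log Real.pi| < ε
  v0 : |p + e - val 0| < ε
  v1 : |p * e - val 1| < ε
  v2 : |B - val 2| < ε
  v3 : |D - val 3| < ε
  v4 : |C - val 4| < ε

theorem FV.five {F : ExpField} {e p l D B C : ℝ} {k : ℕ} (h : FV F e p l D B C k) (i : Fin 5) :
    five F i = (((![p + e, p * e, B, D, C] : Fin 5 → ℝ) i : ℝ) : ℂ) := by
  obtain ⟨rfl, rfl, rfl, h4, h5, h6, -, -, -⟩ := h
  fin_cases i
  · show (F.p : ℂ) + F.e = ((F.p + F.e : ℝ) : ℂ)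
    push_cast; rfl
  · show (F.p : ℂ) * F.e = ((F.p * F.e : ℝ) : ℂ)
    push_cast; rfl
  · exact h5
  · exact h4
  · exact h6

theorem norm_ofReal_sub (x y : ℝ) : ‖(x : ℂ) - (y : ℂ)‖ = |x - y| := by
  rw [← Complex.ofReal_sub, Complex.norm_real, Real.norm_eq_abs]

theorem FV.near {F : ExpField} {ε e p l D B C : ℝ} {k : ℕ} (h : FV F e p l D B C k)
    (hn : NR ε e p l D B C) : Near F ε := by
  refine ⟨by rw [h.he]; exact hn.ce, by rw [h.hp]; exact hn.cp, by rw [h.hl]; exact hn.cl, ?_⟩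
  intro i
  rw [h.five i, norm_ofReal_sub]
  fin_cases i
  exacts [hn.v0, hn.v1, hn.v2, hn.v3, hn.v4]

/-- the conclusion -/
def Goal (f : Fin 5 → Fin 3) (ε : ℝ) : Prop :=
  ∃ F : ExpField, (Theorems F ∧ Extra F) ∧ SchanuelDefect F (nalg f) ∧ Near F ε ∧
    ∀ i, Is (five F i) (f i)

theorem is_two {z : ℝ} (h : (z : ℂ) ∉ M.closure ∅) : Is (z : ℂ) 2 := fun h' => h (mem_cl_empty.2 h')

theorem is_two' {z : ℂ} (h : ¬ IsAlgebraic ℚ z) : Is z 2 := h

theorem is_alg {z : ℂ} {k : Fin 3} (h : Is z k) (hk : k ≠ 2) : IsAlgebraic ℚ z := by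
  fin_cases k
  · exact rat_alg h
  · exact h.1
  · exact absurd rfl hk

/-- the type of the value -/
def ty (k : Fin 3) : Fin 3 := if k = 2 then 0 else k

theorem ty_ne (k : Fin 3) : ty k ≠ 2 := by revert k; decide

theorem ite_is {k : Fin 3} {z w : ℝ} (hz : Is (z : ℂ) (ty k)) (hw : (w : ℂ) ∉ M.closure ∅)
    {S : Prop} [Decidable S] (hS : S ↔ k ≠ 2) : Is ((if S then z else w : ℝ) : ℂ) k := by
  by_cases hk : k = 2
  · rw [if_neg (fun h => hS.1 h hk), hk]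
    exact is_two hw
  · rw [if_pos (hS.2 hk)]
    rwa [ty, if_neg hk] at hz

theorem ite_near {v ε z w : ℝ} (hz : |z - v| < ε) (hw : |w - v| < ε) (S : Prop) [Decidable S] :
    |(if S then z else w) - v| < ε := by
  split_ifs
  exacts [hz, hw]

theorem val_pos (i : Fin 5) : 0 < val i := by
  have h1 := Real.pi_pos
  have h2 := Real.exp_pos 1
  fin_cases i
  · exact add_pos h1 h2
  · exact mul_pos h1 h2
  · exact Real.rpow_pos_of_pos h1 _
  · exact Real.rpow_pos_of_pos h2 _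
  · exact Real.rpow_pos_of_pos h1 _

theorem log_pi_pos : 0 < Real.log Real.pi := Real.log_pos (by linarith [Real.pi_gt_three])

theorem base_near {ε : ℝ} (hε : 0 < ε) : ∃ δ > 0, ∀ a p, |a - Real.exp 1| < δ →
    |p - Real.pi| < δ → |a - Real.exp 1| < ε ∧ |p - Real.pi| < ε ∧ |p + a - val 0| < ε ∧
      |p * a - val 1| < ε ∧ (2 < a ∧ a < 3) ∧ (3 < p ∧ p < 4) := by
  obtain ⟨δ, hδ, h⟩ := near2 (g := fun a p => p * a) (x := Real.exp 1) (y := Real.pi)
    (by fun_prop) hε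
  refine ⟨min (min (ε / 2) δ) (1 / 10), by positivity, fun a p ha hp => ?_⟩
  simp only [lt_min_iff] at ha hp
  have h1 := Real.exp_one_gt_d9
  have h2 := Real.exp_one_lt_d9
  have h3 := Real.pi_gt_d2
  have h4 := Real.pi_lt_d2
  have ha1 := abs_lt.1 ha.2
  have hp1 := abs_lt.1 hp.2
  have ha2 := abs_lt.1 ha.1.1
  have hp2 := abs_lt.1 hp.1.1
  refine ⟨by linarith [ha.1.1], by linarith [hp.1.1], ?_, h a p ha.1.2 hp.1.2, ⟨?_, ?_⟩, ?_, ?_⟩
  · show |p + a - (Real.pi + Real.exp 1)| < ε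
    rw [abs_lt]
    constructor <;> linarith
  all_goals linarith

theorem finC {f : Fin 5 → Fin 3} (h0 : f 0 = 2) (h1 : f 1 = 2) {ε : ℝ} (hε : 0 < ε) :
    Goal f ε := by
  classical
  obtain ⟨δ, hδ, hb⟩ := base_near hε
  obtain ⟨D0, d1, d2, d3, -⟩ := exists_val 1 (ty (f 3)) (ty_ne _) (val 3) ε (val_pos 3) hε
  obtain ⟨B0, b1, b2, b3, -⟩ := exists_val 2 (ty (f 2)) (ty_ne _) (val 2) ε (val_pos 2) hε
  obtain ⟨C0, c1, c2, c3, -⟩ := exists_val 3 (ty (f 4)) (ty_ne _) (val 4) ε (val_pos 4) hε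
  let yy : ℕ → ℝ := fun n => if n = 0 then Real.exp 1 else if n = 1 then Real.pi else
    if n = 2 then Real.log Real.pi else if n = 3 then val 3 else if n = 4 then val 2 else
    if n = 5 then val 4 else 1
  have hyy : ∀ n, 0 < yy n := by
    intro n
    simp only [yy]
    split_ifs
    exacts [Real.exp_pos 1, Real.pi_pos, log_pi_pos, val_pos 3, val_pos 2, val_pos 4, one_pos]
  obtain ⟨t, ht, htn⟩ := exists_freeR yy hyy (min δ ε) (lt_min hδ hε)
  have n0 := lt_min_iff.1 (htn 0)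
  have n1 := lt_min_iff.1 (htn 1)
  have n2 := lt_min_iff.1 (htn 2)
  have n3 := lt_min_iff.1 (htn 3)
  have n4 := lt_min_iff.1 (htn 4)
  have n5 := lt_min_iff.1 (htn 5)
  simp only [yy] at n0 n1 n2 n3 n4 n5
  norm_num at n0 n1 n2 n3 n4 n5
  obtain ⟨g1, g2, g3, g4, g5, g6⟩ := hb _ _ n0.1 n1.1
  have hq : AlgInd ![D0, B0, C0] := algInd_of ![1, 2, 3] (by decide) (by
    intro j
    fin_cases j
    exacts [d1, b1, c1])
  obtain ⟨F, hF⟩ := (caseC ht hq ![f 3 ≠ 2, f 2 ≠ 2, f 4 ≠ 2] g5 g6).fv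
  refine ⟨F, ⟨hF.thm, hF.ex⟩, hF.df.mono ?_, hF.near ⟨g1, g2, n2.2, g3, g4, ?_, ?_, ?_⟩, ?_⟩
  · rw [nalg_eq, h0, h1]
    by_cases k2 : f 2 = 2 <;> by_cases k3 : f 3 = 2 <;> by_cases k4 : f 4 = 2 <;>
      simp [k2, k3, k4]
  · exact ite_near b2 n4.2 _
  · exact ite_near d2 n3.2 _
  · exact ite_near c2 n5.2 _
  · intro i
    rw [hF.five i]
    fin_cases i
    · show Is ((t 1 + t 0 : ℝ) : ℂ) (f 0)
      rw [h0]
      apply is_two
      intro h
      apply Fn_not ht (le_refl 1)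
      have e : (t 1 : ℂ) = ((t 1 + t 0 : ℝ) : ℂ) - t 0 := by push_cast; ring
      rw [e]
      exact cl_sub (cl_empty_le h) (Fn_mem one_pos)
    · show Is ((t 1 * t 0 : ℝ) : ℂ) (f 1)
      rw [h1]
      apply is_two
      intro h
      apply Fn_not ht (le_refl 1)
      have ht0 : (t 0 : ℂ) ≠ 0 := ne_zero_of (Fn_not_empty ht 0)
      have e : (t 1 : ℂ) = ((t 1 * t 0 : ℝ) : ℂ) / t 0 := by push_cast; field_simp
      rw [e]
      exact cl_div (cl_empty_le h) (Fn_mem one_pos)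
    · exact ite_is b3 (Fn_not_empty ht 4) Iff.rfl
    · exact ite_is d3 (Fn_not_empty ht 3) Iff.rfl
    · exact ite_is c3 (Fn_not_empty ht 5) Iff.rfl

end Pool.Agent.Helper56.SA
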