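import Pool.Agent.Helper56.SA.Fin

/-! The models of all admissible patterns, continued. -/

set_option autoImplicit false

namespace Pool.Agent.Helper56.SA

open Pool.Agent.Helper35.EM Pool.Agent.Helper56.EM Set

theorem Adm.e01 {f : Fin 5 → Fin 3} (h : Adm f) : f 0 = 2 ∨ f 1 = 2 := by
  have := h.1 {0, 1} (by decide)
  simpa using this

theorem Adm.e03 {f : Fin 5 → Fin 3} (h : Adm f) : f 0 = 2 ∨ f 3 = 2 := by
  have := h.1 {0, 3} (by decide)
  simpa using this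

theorem Adm.e123 {f : Fin 5 → Fin 3} (h : Adm f) : f 1 = 2 ∨ f 2 = 2 ∨ f 3 = 2 := by
  have := h.1 {1, 2, 3} (by decide)
  simpa using this

theorem Adm.e124 {f : Fin 5 → Fin 3} (h : Adm f) : f 1 = 2 ∨ f 2 = 2 ∨ f 4 = 2 := by
  have := h.1 {1, 2, 4} (by decide)
  simpa using this

theorem Adm.e134 {f : Fin 5 → Fin 3} (h : Adm f) : f 1 = 2 ∨ f 3 = 2 ∨ f 4 = 2 := by
  have := h.1 {1, 3, 4} (by decide)
  simpa using this

theorem finA {f : Fin 5 → Fin 3} (ha : Adm f) (h1 : f 1 ≠ 2) {ε : ℝ} (hε : 0 < ε) : Goal f ε := by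
  classical
  obtain ⟨δ, hδ, hb⟩ := base_near hε
  obtain ⟨δ2, hδ2, hc⟩ := near2 (g := fun r a => r / a) (x := val 1) (y := Real.exp 1)
    (ContinuousAt.div continuousAt_fst continuousAt_snd (Real.exp_ne_zero 1)) hδ
  have hv1 : val 1 / Real.exp 1 = Real.pi := by
    show Real.pi * Real.exp 1 / Real.exp 1 = Real.pi
    field_simp
  obtain ⟨r, r1, r2, r3, -⟩ := exists_val 0 (ty (f 1)) (ty_ne _) (val 1) δ2 (val_pos 1) hδ2
  obtain ⟨D0, d1, d2, d3, -⟩ := exists_val 1 (ty (f 3)) (ty_ne _) (val 3) ε (val_pos 3) hε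
  obtain ⟨B0, b1, b2, b3, -⟩ := exists_val 2 (ty (f 2)) (ty_ne _) (val 2) ε (val_pos 2) hε
  obtain ⟨C0, c1, c2, c3, -⟩ := exists_val 3 (ty (f 4)) (ty_ne _) (val 4) ε (val_pos 4) hε
  let yy : ℕ → ℝ := fun n => if n = 0 then Real.exp 1 else if n = 1 then Real.log Real.pi + 1 else
    if n = 3 then val 3 else if n = 4 then val 2 else if n = 5 then val 4 else 1
  have hyy : ∀ n, 0 < yy n := by
    intro n
    simp only [yy]
    split_ifs
    exacts [Real.exp_pos 1, add_pos log_pi_pos one_pos, val_pos 3, val_pos 2, val_pos 4, one_pos]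
  obtain ⟨t, ht, htn⟩ := exists_freeR yy hyy (min (min δ δ2) ε) (lt_min (lt_min hδ hδ2) hε)
  have n0 := lt_min_iff.1 (htn 0)
  have n1 := lt_min_iff.1 (htn 1)
  have n3 := lt_min_iff.1 (htn 3)
  have n4 := lt_min_iff.1 (htn 4)
  have n5 := lt_min_iff.1 (htn 5)
  simp only [yy, lt_min_iff] at n0 n1 n3 n4 n5
  norm_num at n0 n1 n3 n4 n5
  have hp := hc r (t 0) r2 n0.1.2
  rw [hv1] at hp
  obtain ⟨g1, g2, g3, g4, g5, g6⟩ := hb _ _ n0.1.1 hp
  have hq : AlgInd ![r, D0, B0, C0] := algInd_of ![0, 1, 2, 3] (by decide) (by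
    intro j
    fin_cases j
    exacts [r1, d1, b1, c1])
  obtain ⟨F, hF⟩ := (caseA ht hq ![f 3 ≠ 2, f 2 ≠ 2, f 4 ≠ 2] (by
    have k1 := ha.e123.resolve_left h1
    have k2 := ha.e124.resolve_left h1
    have k3 := ha.e134.resolve_left h1
    show (¬ ¬ f 2 = 2 ∧ ¬ ¬ f 4 = 2) ∨ (¬ ¬ f 3 = 2 ∧ ¬ ¬ f 4 = 2) ∨ (¬ ¬ f 3 = 2 ∧ ¬ ¬ f 2 = 2)
    tauto) g5 g6).fv
  have halg : IsAlgebraic ℚ ((F.p : ℂ) * F.e) := by
    have h5 := hF.five 1
    change (F.p : ℂ) * F.e = ((r / t 0 * t 0 : ℝ) : ℂ) at h5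
    rw [h5, div_mul_cancel₀ _ (pos_t ht 0).ne']
    exact mem_cl_empty.1 r1.alg
  have h0 : f 0 = 2 := ha.e01.resolve_right h1
  refine ⟨F, ⟨hF.thm, hF.ex⟩, hF.df.mono ?_, hF.near ⟨g1, g2, ?_, g3, g4, ?_, ?_, ?_⟩, ?_⟩
  · rw [nalg_eq, h0, if_pos h1]
    by_cases k2 : f 2 = 2 <;> by_cases k3 : f 3 = 2 <;> by_cases k4 : f 4 = 2 <;>
      simp [k2, k3, k4]
  · have e : t 1 - 1 - Real.log Real.pi = t 1 - (Real.log Real.pi + 1) := by ring
    rw [e]; exact n1.2
  · exact ite_near b2 n4.2 _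
  · exact ite_near d2 n3.2 _
  · exact ite_near c2 n5.2 _
  · intro i
    fin_cases i
    · show Is ((F.p : ℂ) + F.e) (f 0)
      rw [h0]
      exact is_two' fun h => x1 hF.thm.lw h halg
    · rw [hF.five]
      show Is ((r / t 0 * t 0 : ℝ) : ℂ) (f 1)
      rw [div_mul_cancel₀ _ (pos_t ht 0).ne']
      rwa [ty, if_neg h1] at r3
    · rw [hF.five]
      exact ite_is b3 (Fn_not_empty ht 4) Iff.rfl
    · rw [hF.five]
      exact ite_is d3 (Fn_not_empty ht 3) Iff.rfl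
    · rw [hF.five]
      exact ite_is c3 (Fn_not_empty ht 5) Iff.rfl

theorem sub_near {δ : ℝ} (hδ : 0 < δ) : ∃ δ2 > 0, ∀ s a, |s - val 0| < δ2 →
    |a - Real.exp 1| < δ2 → |s - a - Real.pi| < δ := by
  refine ⟨δ / 2, by positivity, fun s a h1 h2 => ?_⟩
  change |s - (Real.pi + Real.exp 1)| < δ / 2 at h1
  rw [abs_lt] at *
  constructor <;> linarith [h1.1, h1.2, h2.1, h2.2]

theorem pow_near {i : Fin 5} {ε : ℝ} (hε : 0 < ε) : ∃ δ > 0, ∀ s a Y, |s - val 0| < δ →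
    |a - Real.exp 1| < δ → |Y - val i| < δ →
    |Real.exp (s * Real.log (s - a) - Real.log Y) -
      Real.exp (val 0 * Real.log Real.pi - Real.log (val i))| < ε := by
  have hv : val 0 - Real.exp 1 = Real.pi := by
    show Real.pi + Real.exp 1 - Real.exp 1 = Real.pi
    ring
  have hcont : ContinuousAt (fun q : ℝ × ℝ × ℝ =>
      Real.exp (q.1 * Real.log (q.1 - q.2.1) - Real.log q.2.2)) (val 0, Real.exp 1, val i) := by
    refine Real.continuous_exp.continuousAt.comp ?_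
    refine ContinuousAt.sub (ContinuousAt.mul continuousAt_fst ?_) ?_
    · refine ContinuousAt.log (by fun_prop) ?_
      show val 0 - Real.exp 1 ≠ 0
      rw [hv]; exact Real.pi_pos.ne'
    · refine ContinuousAt.log (by fun_prop) ?_
      exact (val_pos i).ne'
  obtain ⟨δ, hδ, h⟩ := near3 (g := fun s a Y => Real.exp (s * Real.log (s - a) - Real.log Y))
    hcont hε
  refine ⟨δ, hδ, fun s a Y h1 h2 h3 => ?_⟩
  have := h s a Y h1 h2 h3
  simp only [hv] at this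
  exact this

theorem val2_eq : Real.exp (val 0 * Real.log Real.pi - Real.log (val 2)) = val 4 := by
  show Real.exp ((Real.pi + Real.exp 1) * Real.log Real.pi - Real.log (Real.pi ^ Real.exp 1)) =
    Real.pi ^ Real.pi
  rw [Real.log_rpow Real.pi_pos, Real.rpow_def_of_pos Real.pi_pos]
  congr 1; ring

theorem val4_eq : Real.exp (val 0 * Real.log Real.pi - Real.log (val 4)) = val 2 := by
  show Real.exp ((Real.pi + Real.exp 1) * Real.log Real.pi - Real.log (Real.pi ^ Real.pi)) =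
    Real.pi ^ Real.exp 1
  rw [Real.log_rpow Real.pi_pos, Real.rpow_def_of_pos Real.pi_pos]
  congr 1; ring

theorem finB1 {f : Fin 5 → Fin 3} (ha : Adm f) (h0 : f 0 = 0) (h4 : f 4 = 2) {ε : ℝ}
    (hε : 0 < ε) : Goal f ε := by
  classical
  have h1 : f 1 = 2 := ha.e01.resolve_left (by rw [h0]; decide)
  have h3 : f 3 = 2 := ha.e03.resolve_left (by rw [h0]; decide)
  obtain ⟨δ, hδ, hb⟩ := base_near hε
  obtain ⟨δ2, hδ2, hc⟩ := sub_near hδ
  obtain ⟨δ3, hδ3, hd⟩ := pow_near (i := 2) hε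
  rw [val2_eq] at hd
  obtain ⟨s, s1, s2, -⟩ := exists_rat 0 (val 0) (min δ2 δ3) (val_pos 0) (lt_min hδ2 hδ3)
  rw [lt_min_iff] at s2
  obtain ⟨B0, b1, b2, b3, -⟩ := exists_val 2 (ty (f 2)) (ty_ne _) (val 2) (min ε δ3) (val_pos 2)
    (lt_min hε hδ3)
  rw [lt_min_iff] at b2
  let yy : ℕ → ℝ := fun n => if n = 0 then Real.exp 1 else if n = 1 then Real.log Real.pi else
    if n = 2 then val 3 else if n = 3 then val 2 else 1
  have hyy : ∀ n, 0 < yy n := by
    intro n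
    simp only [yy]
    split_ifs
    exacts [Real.exp_pos 1, log_pi_pos, val_pos 3, val_pos 2, one_pos]
  obtain ⟨t, ht, htn⟩ := exists_freeR yy hyy (min (min δ δ2) (min δ3 ε))
    (lt_min (lt_min hδ hδ2) (lt_min hδ3 hε))
  have n0 := lt_min_iff.1 (htn 0)
  have n1 := lt_min_iff.1 (htn 1)
  have n2 := lt_min_iff.1 (htn 2)
  have n3 := lt_min_iff.1 (htn 3)
  simp only [yy, lt_min_iff] at n0 n1 n2 n3
  norm_num at n0 n1 n2 n3
  have hp := hc s (t 0) s2.1 n0.1.2
  obtain ⟨g1, g2, g3, g4, g5, g6⟩ := hb _ _ n0.1.1 hp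
  obtain ⟨F, hF⟩ := (caseB1 ht s b1.pos b1.ne_one b1.alg (f 2 ≠ 2) g5 g6).fv
  have hYn : |(if f 2 ≠ 2 then B0 else t 3) - val 2| < δ3 := ite_near b2.2 n3.2.1 _
  have hY2 : |(if f 2 ≠ 2 then B0 else t 3) - val 2| < ε := ite_near b2.1 n3.2.2 _
  have hYp : 0 < (if f 2 ≠ 2 then B0 else t 3) := by
    split_ifs
    exacts [b1.pos, pos_t ht 3]
  have hYis : Is (((if f 2 ≠ 2 then B0 else t 3) : ℝ) : ℂ) (f 2) :=
    ite_is b3 (Fn_not_empty ht 3) Iff.rfl
  have hrat : Rat' ((F.p : ℂ) + F.e) := by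
    have h5 := hF.five 0
    change (F.p : ℂ) + F.e = ((s - t 0 + t 0 : ℝ) : ℂ) at h5
    refine ⟨s, ?_⟩
    rw [h5, sub_add_cancel]
    push_cast; rfl
  refine ⟨F, ⟨hF.thm, hF.ex⟩, hF.df.mono ?_, hF.near ⟨g1, g2, n1.2.2, g3, g4, hY2, n2.2.2, ?_⟩, ?_⟩
  · rw [nalg_eq, h0, h1, h3, h4]
    by_cases k2 : f 2 = 2 <;> simp [k2]
  · exact hd _ _ _ s2.2 n0.2.1 hYn
  · intro i
    fin_cases i
    · show Is ((F.p : ℂ) + F.e) (f 0)
      rw [h0]
      exact hrat
    · show Is ((F.p : ℂ) * F.e) (f 1)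
      rw [h1]
      exact is_two' fun h => x1 hF.thm.lw (rat_alg hrat) h
    · rw [hF.five]
      exact hYis
    · rw [hF.five]
      show Is (t 2 : ℂ) (f 3)
      rw [h3]
      exact is_two (Fn_not_empty ht 2)
    · show Is (five F 4) (f 4)
      rw [h4]
      apply is_two'
      intro halg
      by_cases h2 : f 2 = 2
      · have h5 := hF.five 4
        rw [h5] at halg
        change IsAlgebraic ℚ (((Real.exp (s * Real.log (s - t 0) -
          Real.log (if f 2 ≠ 2 then B0 else t 3)) : ℝ)) : ℂ) at halg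
        rw [if_neg (by simpa using h2)] at halg
        apply Fn_not ht (show 1 ≤ 3 by norm_num)
        have hp0 : 0 < s - t 0 := by linarith [g6.1]
        have e : (t 3 : ℂ) = Complex.exp (s • ((Real.log (s - t 0) : ℝ) : ℂ)) /
            ((Real.exp (s * Real.log (s - t 0) - Real.log (t 3)) : ℝ) : ℂ) := by
          rw [Real.exp_sub, Real.exp_log (pos_t ht 3), Rat.smul_def]
          have e1 : Complex.exp ((s : ℂ) * ((Real.log (s - t 0) : ℝ) : ℂ)) =
              ((Real.exp (s * Real.log (s - t 0)) : ℝ) : ℂ) := by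
            rw [Complex.ofReal_exp]; push_cast; rfl
          rw [e1]
          have e2 : ((Real.exp (s * Real.log (s - t 0)) : ℝ) : ℂ) ≠ 0 := by
            exact_mod_cast (Real.exp_pos _).ne'
          have e3 : (t 3 : ℂ) ≠ 0 := by exact_mod_cast (pos_t ht 3).ne'
          rw [Complex.ofReal_div]
          field_simp
        rw [e]
        refine cl_div (cl_exp_smul s ?_) (cl_empty_le (mem_cl_empty.2 halg))
        rw [exp_rlog hp0, Complex.ofReal_sub]
        refine cl_sub ?_ (Fn_mem one_pos)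
        have := cl_ratCast (Fn t 1) s
        exact_mod_cast this
      · have h5 : IsAlgebraic ℚ (F.E (F.e * F.l)) := by
          have h6 := hF.five 2
          change F.E (F.e * F.l) = (((if f 2 ≠ 2 then B0 else t 3) : ℝ) : ℂ) at h6
          rw [h6]
          exact is_alg hYis h2
        exact x6 hF.thm.baker hrat h5 halg

theorem finB2 {f : Fin 5 → Fin 3} (ha : Adm f) (h0 : f 0 = 0) (h4 : f 4 ≠ 2) {ε : ℝ}
    (hε : 0 < ε) : Goal f ε := by
  classical
  have h1 : f 1 = 2 := ha.e01.resolve_left (by rw [h0]; decide)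
  have h3 : f 3 = 2 := ha.e03.resolve_left (by rw [h0]; decide)
  have h2 : f 2 = 2 := (ha.2 h0).resolve_right h4
  obtain ⟨δ, hδ, hb⟩ := base_near hε
  obtain ⟨δ2, hδ2, hc⟩ := sub_near hδ
  obtain ⟨δ3, hδ3, hd⟩ := pow_near (i := 4) hε
  rw [val4_eq] at hd
  obtain ⟨s, s1, s2, -⟩ := exists_rat 0 (val 0) (min δ2 δ3) (val_pos 0) (lt_min hδ2 hδ3)
  rw [lt_min_iff] at s2
  obtain ⟨C0, c1, c2, c3, -⟩ := exists_val 3 (ty (f 4)) (ty_ne _) (val 4) (min ε δ3) (val_pos 4)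
    (lt_min hε hδ3)
  rw [lt_min_iff] at c2
  let yy : ℕ → ℝ := fun n => if n = 0 then Real.exp 1 else if n = 1 then Real.log Real.pi else
    if n = 2 then val 3 else 1
  have hyy : ∀ n, 0 < yy n := by
    intro n
    simp only [yy]
    split_ifs
    exacts [Real.exp_pos 1, log_pi_pos, val_pos 3, one_pos]
  obtain ⟨t, ht, htn⟩ := exists_freeR yy hyy (min (min δ δ2) (min δ3 ε))
    (lt_min (lt_min hδ hδ2) (lt_min hδ3 hε))
  have n0 := lt_min_iff.1 (htn 0)
  have n1 := lt_min_iff.1 (htn 1)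
  have n2 := lt_min_iff.1 (htn 2)
  simp only [yy, lt_min_iff] at n0 n1 n2
  norm_num at n0 n1 n2
  have hp := hc s (t 0) s2.1 n0.1.2
  obtain ⟨g1, g2, g3, g4, g5, g6⟩ := hb _ _ n0.1.1 hp
  obtain ⟨F, hF⟩ := (caseB2 ht s c1.pos c1.ne_one c1.alg g5 g6).fv
  have hrat : Rat' ((F.p : ℂ) + F.e) := by
    have h5 := hF.five 0
    change (F.p : ℂ) + F.e = ((s - t 0 + t 0 : ℝ) : ℂ) at h5
    refine ⟨s, ?_⟩
    rw [h5, sub_add_cancel]
    push_cast; rfl
  refine ⟨F, ⟨hF.thm, hF.ex⟩, hF.df.mono ?_, hF.near ⟨g1, g2, n1.2.2, g3, g4, ?_, n2.2.2, c2.1⟩, ?_⟩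
  · rw [nalg_eq, h0, h1, h2, h3, if_pos h4]
    simp
  · exact hd _ _ _ s2.2 n0.2.1 c2.2
  · intro i
    fin_cases i
    · show Is ((F.p : ℂ) + F.e) (f 0)
      rw [h0]
      exact hrat
    · show Is ((F.p : ℂ) * F.e) (f 1)
      rw [h1]
      exact is_two' fun h => x1 hF.thm.lw (rat_alg hrat) h
    · show Is (F.E (F.e * F.l)) (f 2)
      rw [h2]
      apply is_two'
      intro halg
      refine x6 hF.thm.baker hrat halg ?_
      have h6 := hF.five 4
      change F.E (F.p * F.l) = ((C0 : ℝ) : ℂ) at h6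
      rw [h6]
      exact mem_cl_empty.1 c1.alg
    · rw [hF.five]
      show Is (t 2 : ℂ) (f 3)
      rw [h3]
      exact is_two (Fn_not_empty ht 2)
    · rw [hF.five]
      show Is (C0 : ℂ) (f 4)
      rwa [ty, if_neg h4] at c3

theorem finD {f : Fin 5 → Fin 3} (ha : Adm f) (h0 : f 0 = 1) {ε : ℝ} (hε : 0 < ε) :
    Goal f ε := by
  classical
  have h1 : f 1 = 2 := ha.e01.resolve_left (by rw [h0]; decide)
  have h3 : f 3 = 2 := ha.e03.resolve_left (by rw [h0]; decide)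
  obtain ⟨δ, hδ, hb⟩ := base_near hε
  obtain ⟨δ2, hδ2, hc⟩ := sub_near hδ
  obtain ⟨s, s1, s2, s3, -, s4⟩ := exists_val 0 1 (by decide) (val 0) δ2 (val_pos 0) hδ2
  obtain ⟨B0, b1, b2, b3, -⟩ := exists_val 2 (ty (f 2)) (ty_ne _) (val 2) ε (val_pos 2) hε
  obtain ⟨C0, c1, c2, c3, -⟩ := exists_val 3 (ty (f 4)) (ty_ne _) (val 4) ε (val_pos 4) hε
  let yy : ℕ → ℝ := fun n => if n = 0 then Real.exp 1 else if n = 1 then Real.log Real.pi else
    if n = 2 then val 3 else if n = 3 then val 2 else if n = 4 then val 4 else 1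
  have hyy : ∀ n, 0 < yy n := by
    intro n
    simp only [yy]
    split_ifs
    exacts [Real.exp_pos 1, log_pi_pos, val_pos 3, val_pos 2, val_pos 4, one_pos]
  obtain ⟨t, ht, htn⟩ := exists_freeR yy hyy (min (min δ δ2) ε) (lt_min (lt_min hδ hδ2) hε)
  have n0 := lt_min_iff.1 (htn 0)
  have n1 := lt_min_iff.1 (htn 1)
  have n2 := lt_min_iff.1 (htn 2)
  have n3 := lt_min_iff.1 (htn 3)
  have n4 := lt_min_iff.1 (htn 4)
  simp only [yy, lt_min_iff] at n0 n1 n2 n3 n4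
  norm_num at n0 n1 n2 n3 n4
  have hp := hc s (t 0) s2 n0.1.2
  obtain ⟨g1, g2, g3, g4, g5, g6⟩ := hb _ _ n0.1.1 hp
  have hq : AlgInd ![B0, C0] := algInd_of ![2, 3] (by decide) (by
    intro j
    fin_cases j
    exacts [b1, c1])
  obtain ⟨F, hF⟩ := (caseD ht s1.alg (s4 rfl) hq ![f 2 ≠ 2, f 4 ≠ 2] g5 g6).fv
  have hs : Is ((F.p : ℂ) + F.e) 1 := by
    have h5 := hF.five 0
    change (F.p : ℂ) + F.e = ((s - t 0 + t 0 : ℝ) : ℂ) at h5
    rw [h5, sub_add_cancel]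
    exact s3
  refine ⟨F, ⟨hF.thm, hF.ex⟩, hF.df.mono ?_, hF.near ⟨g1, g2, n1.2, g3, g4, ?_, n2.2, ?_⟩, ?_⟩
  · rw [nalg_eq, h0, h1, h3]
    by_cases k2 : f 2 = 2 <;> by_cases k4 : f 4 = 2 <;> simp [k2, k4]
  · exact ite_near b2 n3.2 _
  · exact ite_near c2 n4.2 _
  · intro i
    fin_cases i
    · show Is ((F.p : ℂ) + F.e) (f 0)
      rw [h0]
      exact hs
    · show Is ((F.p : ℂ) * F.e) (f 1)
      rw [h1]
      exact is_two' fun h => x1 hF.thm.lw hs.1 h
    · rw [hF.five]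
      exact ite_is b3 (Fn_not_empty ht 3) Iff.rfl
    · rw [hF.five]
      show Is (t 2 : ℂ) (f 3)
      rw [h3]
      exact is_two (Fn_not_empty ht 2)
    · rw [hF.five]
      exact ite_is c3 (Fn_not_empty ht 4) Iff.rfl

/-- all admissible patterns occur -/
theorem exists_model {f : Fin 5 → Fin 3} (ha : Adm f) {ε : ℝ} (hε : 0 < ε) : Goal f ε := by
  by_cases h1 : f 1 = 2
  · by_cases h0 : f 0 = 2
    · exact finC h0 h1 hε
    · by_cases h0' : f 0 = 0
      · by_cases h4 : f 4 = 2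
        · exact finB1 ha h0' h4 hε
        · exact finB2 ha h0' h4 hε
      · have : f 0 = 1 := by omega
        exact finD ha this hε
  · exact finA ha h1 hε

/-- only admissible patterns occur -/
theorem adm_of {F : ExpField} {f : Fin 5 → Fin 3} (hL : LindemannWeierstrass F) (hB : Baker F)
    (hS : StrongSixExponentials F) (hf : ∀ i, Is (five F i) (f i)) : Adm f := by
  have ha : ∀ i, f i ≠ 2 → IsAlgebraic ℚ (five F i) := fun i hi => is_alg (hf i) hi
  refine ⟨?_, ?_⟩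
  · intro C hC
    by_contra hcon
    push Not at hcon
    simp only [Sets, Finset.mem_insert, Finset.mem_singleton] at hC
    rcases hC with rfl | rfl | rfl | rfl | rfl
    · exact x1 hL (ha 0 (hcon 0 (by simp))) (ha 1 (hcon 1 (by simp)))
    · exact x2 hB (ha 0 (hcon 0 (by simp))) (ha 3 (hcon 3 (by simp)))
    · exact x3 hL hB hS (ha 1 (hcon 1 (by simp))) (ha 2 (hcon 2 (by simp)))
        (ha 3 (hcon 3 (by simp)))
    · exact x4 hB hS (ha 1 (hcon 1 (by simp))) (ha 2 (hcon 2 (by simp)))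
        (ha 4 (hcon 4 (by simp)))
    · exact x5 hB hS (ha 1 (hcon 1 (by simp))) (ha 3 (hcon 3 (by simp)))
        (ha 4 (hcon 4 (by simp)))
  · intro h0
    by_contra hcon
    push Not at hcon
    have h5 := hf 0
    rw [h0] at h5
    exact x6 hB h5 (ha 2 hcon.1) (ha 4 hcon.2)

/-- the complex numbers -/
theorem complex_field : ∃ F : ExpField, F.K = ⊤ ∧ F.E = Complex.exp ∧ F.e = Real.exp 1 ∧
    F.p = Real.pi ∧ F.l = Real.log Real.pi := by
  refine ⟨{
    K := ⊤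
    E := Complex.exp
    e := Real.exp 1
    p := Real.pi
    l := Real.log Real.pi
    closed := fun z _ => Subfield.mem_top z
    conj_mem := fun x _ => Subfield.mem_top _
    E_mem := fun x _ => Subfield.mem_top _
    E_add := fun x _ y _ => Complex.exp_add x y
    E_surj := fun y _ hy => ⟨Complex.log y, Subfield.mem_top _, Complex.exp_log hy⟩
    E_conj := fun x _ => Complex.exp_conj x
    ker := fun x _ => by
      rw [Complex.exp_eq_one_iff]
      refine exists_congr fun n => ?_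
      rw [mul_comm]
    e_mem := Subfield.mem_top _
    p_mem := Subfield.mem_top _
    l_mem := Subfield.mem_top _
    E_one := by rw [Complex.ofReal_exp, Complex.ofReal_one]
    E_l := by rw [← Complex.ofReal_exp, Real.exp_log Real.pi_pos]
    e_bound := ⟨by linarith [Real.exp_one_gt_d9], by linarith [Real.exp_one_lt_d9]⟩
    p_bound := ⟨Real.pi_gt_three, by linarith [Real.pi_lt_d2]⟩ }, rfl, rfl, rfl, rfl, rfl⟩

/-- the five numbers of the complex numbers -/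
theorem complex_five {F : ExpField} (h1 : F.E = Complex.exp) (h2 : F.e = Real.exp 1)
    (h3 : F.p = Real.pi) (h4 : F.l = Real.log Real.pi) (i : Fin 5) : five F i = val i := by
  have e2 : ((Real.exp 1 * Real.log Real.pi : ℝ) : ℂ) = (Real.exp 1 : ℂ) * (Real.log Real.pi : ℝ) := by
    push_cast; rfl
  fin_cases i
  · show (F.p : ℂ) + F.e = ((Real.pi + Real.exp 1 : ℝ) : ℂ)
    rw [h2, h3]; push_cast; rfl
  · show (F.p : ℂ) * F.e = ((Real.pi * Real.exp 1 : ℝ) : ℂ)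
    rw [h2, h3]; push_cast; rfl
  · show F.E (F.e * F.l) = ((Real.pi ^ Real.exp 1 : ℝ) : ℂ)
    rw [h1, h2, h4, Real.rpow_def_of_pos Real.pi_pos, ← Complex.ofReal_mul, ← Complex.ofReal_exp,
      mul_comm]
  · show F.E F.e = ((Real.exp 1 ^ Real.exp 1 : ℝ) : ℂ)
    rw [h1, h2, Real.rpow_def_of_pos (Real.exp_pos 1), Real.log_exp, one_mul]
    exact (Complex.ofReal_exp _).symm
  · show F.E (F.p * F.l) = ((Real.pi ^ Real.pi : ℝ) : ℂ)
    rw [h1, h3, h4, Real.rpow_def_of_pos Real.pi_pos, ← Complex.ofReal_mul, ← Complex.ofReal_exp,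
      mul_comm]

end Pool.Agent.Helper56.SA
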