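import Pool.Agent.Helper56.SA.Tow

/-! Consequences of the relative rank inequality in the field of a base (by helper35, `Helper35/XT/Wit.lean`). -/

set_option autoImplicit false

namespace Pool.Agent.Helper56.SA

open Set Module Submodule Pool.Agent.Helper35.EM Pool.Agent.Helper56.EM

/-- the field comes from a tower over the base `P0` -/
structure Wit (F : Pool.Agent.Helper56.SA.ExpField) (P0 : Submodule ℚ (ℂ × ℂ)) : Prop where
  ex : ∃ (K : IntermediateField ℚ ℂ) (lam : K →ₗ[ℚ] ℂ), F.K = K.toSubfield ∧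
    (∀ x : K, F.E x = Complex.exp (lam x)) ∧ Tw lam P0

theorem Wit.gen {F : Pool.Agent.Helper56.SA.ExpField} {P0 : Submodule ℚ (ℂ × ℂ)} (hW : Wit F P0)
    {x : ℂ} (hx : x ∈ F.K) (hc : x ∈ M.closure (co P0)) (hn : ∀ z, (x, z) ∉ P0) :
    F.E x ∉ M.closure (co P0) := by
  obtain ⟨K, lam, hK, hE, hT⟩ := hW.ex
  have hxK : x ∈ K := by rw [hK] at hx; exact hx
  set x' : K := ⟨x, hxK⟩ with hx'
  intro hcl
  have hE' : F.E x = Complex.exp (lam x') := hE x'
  rw [hE'] at hcl
  have hf0 := hT.finX0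
  have hn' : x' ∉ P0.comap (gr lam) := fun h => hn _ h
  have hd := finrank_sup_one (A := P0.comap (gr lam)) hf0 hn'
  rw [hT.finrankX0] at hd
  set V : Submodule ℚ K := P0.comap (gr lam) ⊔ span ℚ {x'} with hV
  have hfV : FiniteDimensional ℚ V := by rw [hV]; infer_instance
  have hP : V.map (gr lam) ⊓ P0 = P0 := by
    rw [inf_eq_right, ← hT.map_X0]
    exact Submodule.map_mono le_sup_left
  have h1 := hT.rk V hfV
  rw [hP] at h1
  have h2 : M.eRk (co (V.map (gr lam))) ≤ M.eRk (co P0) := by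
    have h3 : co (V.map (gr lam)) ⊆ M.closure (co P0) := by
      have hmem : ∀ y ∈ V, (y : ℂ) ∈ M.closure (co P0) ∧
          Complex.exp (lam y) ∈ M.closure (co P0) := by
        intro y hy
        obtain ⟨x0, h0, z, hz, rfl⟩ := Submodule.mem_sup.1 hy
        obtain ⟨q, rfl⟩ := Submodule.mem_span_singleton.1 hz
        have k1 : (x0 : ℂ) ∈ M.closure (co P0) := cl_self ⟨_, h0, Or.inl rfl⟩
        have k2 : Complex.exp (lam x0) ∈ M.closure (co P0) := cl_self ⟨_, h0, Or.inr rfl⟩
        refine ⟨cl_add k1 (cl_smul q hc), ?_⟩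
        rw [map_add, map_smul]
        exact cl_exp_add k2 (cl_exp_smul q hcl)
      rintro a ⟨p, ⟨y, hy, rfl⟩, ha⟩
      rcases ha with rfl | rfl
      · exact (hmem y hy).1
      · exact (hmem y hy).2
    calc M.eRk (co (V.map (gr lam))) ≤ M.eRk (M.closure (co P0)) := M.eRk_mono h3
      _ = M.eRk (co P0) := M.eRk_closure_eq _
  rw [hd] at h1
  obtain ⟨r, hr⟩ := ENat.ne_top_iff_exists.1 hT.top
  have h4 := h1.trans (add_le_add_left h2 _)
  rw [← hr] at h4
  norm_cast at h4
  omega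

/-- rank form of Schanuel's inequality over the base -/
theorem Wit.rk {F : Pool.Agent.Helper56.SA.ExpField} {P0 : Submodule ℚ (ℂ × ℂ)} (hW : Wit F P0) :
    FiniteDimensional ℚ (P0.map (LinearMap.fst ℚ ℂ ℂ)) ∧
    finrank ℚ (P0.map (LinearMap.fst ℚ ℂ ℂ)) ≤ finrank ℚ P0 ∧
    (∀ x ∈ P0.map (LinearMap.fst ℚ ℂ ℂ), x ∈ F.K) ∧
    co P0 = (P0.map (LinearMap.fst ℚ ℂ ℂ) : Set ℂ) ∪ F.E '' (P0.map (LinearMap.fst ℚ ℂ ℂ)) ∧
    M.eRk (co P0) ≠ ⊤ ∧
    ∀ (n : ℕ) (z : Fin n → ℂ), (∀ i, z i ∈ F.K) →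
      LinearIndependent ℚ (fun i => (P0.map (LinearMap.fst ℚ ℂ ℂ)).mkQ (z i)) →
      M.eRk (co P0) + (n : ℕ∞) ≤ M.eRk (co P0 ∪ (range z ∪ range fun j => F.E (z j))) := by
  obtain ⟨K, lam, hK, hE, hT⟩ := hW.ex
  have hfP := hT.fin
  have hgr : ∀ q ∈ P0, ∃ x : K, (x : ℂ) = q.1 ∧ lam x = q.2 := hT.mem
  have hEq : ∀ q ∈ P0, F.E q.1 = Complex.exp q.2 := by
    intro q hq
    obtain ⟨x, h1, h2⟩ := hgr q hq
    rw [← h1, ← h2]; exact hE x
  refine ⟨inferInstance, Submodule.finrank_map_le _ _, ?_, ?_, hT.top, ?_⟩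
  · rintro _ ⟨q, hq, rfl⟩
    obtain ⟨x, h1, -⟩ := hgr q hq
    rw [hK]
    have : LinearMap.fst ℚ ℂ ℂ q = (x : ℂ) := h1.symm
    rw [this]; exact x.2
  · ext a
    constructor
    · rintro ⟨q, hq, rfl | rfl⟩
      · exact Or.inl ⟨q, hq, rfl⟩
      · exact Or.inr ⟨q.1, ⟨q, hq, rfl⟩, hEq q hq⟩
    · rintro (⟨q, hq, rfl⟩ | ⟨_, ⟨q, hq, rfl⟩, rfl⟩)
      · exact ⟨q, hq, Or.inl rfl⟩
      · exact ⟨q, hq, Or.inr (hEq q hq)⟩
  · intro n z hz hi
    have hzK : ∀ i, z i ∈ K := fun i => by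
      have := hz i
      rw [hK] at this; exact this
    set z' : Fin n → K := fun i => ⟨z i, hzK i⟩ with hz'
    have hf0 := hT.finX0
    have hfs : FiniteDimensional ℚ (span ℚ (range z')) :=
      FiniteDimensional.span_of_finite ℚ (finite_range z')
    set V : Submodule ℚ K := P0.comap (gr lam) ⊔ span ℚ (range z') with hV
    have hfV : FiniteDimensional ℚ V := by rw [hV]; infer_instance
    have hP : V.map (gr lam) ⊓ P0 = P0 := by
      rw [inf_eq_right, ← hT.map_X0]
      exact Submodule.map_mono le_sup_left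
    -- dimension
    have hdisj : P0.comap (gr lam) ⊓ span ℚ (range z') = ⊥ := by
      rw [eq_bot_iff]
      rintro y ⟨h1, h2⟩
      obtain ⟨c, hc⟩ := (Submodule.mem_span_range_iff_exists_fun ℚ).1 h2
      have h3 : (y : ℂ) ∈ P0.map (LinearMap.fst ℚ ℂ ℂ) := ⟨gr lam y, h1, rfl⟩
      have h4 : (y : ℂ) = ∑ i, c i • z i := by
        rw [← hc]
        have : (((∑ i, c i • z' i : K)) : ℂ) = K.val.toLinearMap (∑ i, c i • z' i) := rfl
        rw [this, map_sum]
        refine Finset.sum_congr rfl fun i _ => ?_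
        rw [map_smul]; rfl
      have h5 : ∑ i, c i • (P0.map (LinearMap.fst ℚ ℂ ℂ)).mkQ (z i) = 0 := by
        have h6 : (P0.map (LinearMap.fst ℚ ℂ ℂ)).mkQ (∑ i, c i • z i) = 0 := by
          rw [Submodule.mkQ_apply, Submodule.Quotient.mk_eq_zero, ← h4]; exact h3
        rw [map_sum] at h6
        rw [← h6]
        exact Finset.sum_congr rfl fun i _ => (map_smul _ _ _).symm
      have h7 := Fintype.linearIndependent_iff.1 hi c h5
      rw [Submodule.mem_bot, ← hc]
      exact Finset.sum_eq_zero fun i _ => by rw [h7 i, zero_smul]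
    have hli : LinearIndependent ℚ z' := by
      rw [Fintype.linearIndependent_iff]
      intro c hc
      have h5 : ∑ i, c i • (P0.map (LinearMap.fst ℚ ℂ ℂ)).mkQ (z i) = 0 := by
        have h4 : ∑ i, c i • z i = 0 := by
          have h3 := congrArg K.val.toLinearMap hc
          rw [map_sum, map_zero] at h3
          rw [← h3]
          refine Finset.sum_congr rfl fun i _ => ?_
          rw [map_smul]; rfl
        have h6 : (P0.map (LinearMap.fst ℚ ℂ ℂ)).mkQ (∑ i, c i • z i) = 0 := by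
          rw [h4, map_zero]
        rw [map_sum] at h6
        rw [← h6]
        exact Finset.sum_congr rfl fun i _ => (map_smul _ _ _).symm
      exact Fintype.linearIndependent_iff.1 hi c h5
    have hd : finrank ℚ V = finrank ℚ P0 + n := by
      have h1 := Submodule.finrank_sup_add_finrank_inf_eq (P0.comap (gr lam)) (span ℚ (range z'))
      rw [hdisj, finrank_bot, add_zero, hT.finrankX0, finrank_span_eq_card hli,
        Fintype.card_fin] at h1
      exact h1
    have h1 := hT.rk V hfV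
    rw [hP, hd] at h1
    have h2 : M.eRk (co (V.map (gr lam))) ≤
        M.eRk (co P0 ∪ (range z ∪ range fun j => F.E (z j))) := by
      rw [← M.eRk_closure_eq (co P0 ∪ (range z ∪ range fun j => F.E (z j)))]
      apply M.eRk_mono
      set A := co P0 ∪ (range z ∪ range fun j => F.E (z j)) with hA
      have hmem : ∀ y ∈ V, (y : ℂ) ∈ M.closure A ∧ Complex.exp (lam y) ∈ M.closure A := by
        intro y hy
        obtain ⟨x0, h0, w, hw, rfl⟩ := Submodule.mem_sup.1 hy
        have k1 : (x0 : ℂ) ∈ M.closure A := cl_self (Or.inl ⟨_, h0, Or.inl rfl⟩)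
        have k2 : Complex.exp (lam x0) ∈ M.closure A := cl_self (Or.inl ⟨_, h0, Or.inr rfl⟩)
        have k3 : (w : ℂ) ∈ M.closure A ∧ Complex.exp (lam w) ∈ M.closure A := by
          clear hy
          induction hw using Submodule.span_induction with
          | mem x hx =>
            obtain ⟨i, rfl⟩ := hx
            refine ⟨cl_self (Or.inr (Or.inl ⟨i, rfl⟩)), ?_⟩
            rw [← hE]
            exact cl_self (Or.inr (Or.inr ⟨i, rfl⟩))
          | zero =>
            refine ⟨cl_zero _, ?_⟩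
            rw [map_zero, Complex.exp_zero]; exact cl_one _
          | add x y _ _ hx hy =>
            refine ⟨cl_add hx.1 hy.1, ?_⟩
            rw [map_add]; exact cl_exp_add hx.2 hy.2
          | smul q x _ hx =>
            refine ⟨cl_smul q hx.1, ?_⟩
            rw [map_smul]; exact cl_exp_smul q hx.2
        refine ⟨cl_add k1 k3.1, ?_⟩
        rw [map_add]; exact cl_exp_add k2 k3.2
      rintro a ⟨p, ⟨y, hy, rfl⟩, rfl | rfl⟩
      · exact (hmem y hy).1
      · exact (hmem y hy).2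
    have h3 := h1.trans (add_le_add_left h2 _)
    -- cancel the dimension of the base
    have h4 : (finrank ℚ P0 : ℕ∞) + (M.eRk (co P0) + (n : ℕ∞)) ≤
        (finrank ℚ P0 : ℕ∞) + M.eRk (co P0 ∪ (range z ∪ range fun j => F.E (z j))) := by
      calc (finrank ℚ P0 : ℕ∞) + (M.eRk (co P0) + (n : ℕ∞)) =
          ((finrank ℚ P0 + n : ℕ) : ℕ∞) + M.eRk (co P0) := by push_cast; ring
        _ ≤ _ := h3
        _ = _ := by rw [add_comm]
    exact (ENat.add_le_add_iff_left (by simp)).1 h4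

end Pool.Agent.Helper56.SA
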