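import Pool.Agent.Helper56.SA.Hr
import Pool.Agent.Helper56.SA.Df
import Pool.Agent.Helper56.SA.Wt
import Pool.Agent.Helper35.EM.ConjCases

/-! The exponential field of a base. -/

set_option autoImplicit false

namespace Pool.Agent.Helper56.SA

open Pool.Agent.Helper35.EM Pool.Agent.Helper56.EM Module Submodule Set ComplexConjugate

/-- what is needed from the base -/
structure BD (t : ℕ → ℂ) (N : ℕ) (P0 : Submodule ℚ (ℂ × ℂ)) (L0 : Submodule ℚ ℂ)
    (W0 : Submodule kk ℂ) (e p l : ℝ) : Prop where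
  st : St P0 (t '' Iio N)
  cs : CS P0
  kap : (2 * Complex.I * (p : ℂ), 2 * (Real.pi : ℂ) * Complex.I) ∈ P0
  one : ((1 : ℂ), ((Real.log e : ℝ) : ℂ)) ∈ P0
  pl : ((l : ℂ), ((Real.log p : ℝ) : ℂ)) ∈ P0
  etr : (e : ℂ) ∉ M.closure ∅
  F1 : ∀ q ∈ P0, q.1 ∈ M.closure ∅ → ∃ c : ℚ, q = c • ((1 : ℂ), ((Real.log e : ℝ) : ℂ))
  F2 : ∀ q ∈ P0, Complex.exp q.2 ∈ M.closure ∅ → q.1 ∈ L0
  L0co : ∀ x ∈ L0, x ∈ M.closure (co P0)
  bk : BK L0
  W0co : ∀ x ∈ W0, x ∈ M.closure (co P0)
  L0W : ∀ x ∈ L0, x ∈ W0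
  one_mem : (1 : ℂ) ∈ W0
  nb : Nb 2 W0
  hr : ∃ v : ℂ, v ≠ 0 ∧ HR v W0

theorem Tw.lw {K : IntermediateField ℚ ℂ} {lam : K →ₗ[ℚ] ℂ} {P0 : Submodule ℚ (ℂ × ℂ)}
    (hT : Tw lam P0) {L : ℂ} (hL : Complex.exp L ∉ M.closure ∅)
    (F1 : ∀ q ∈ P0, q.1 ∈ M.closure ∅ → ∃ c : ℚ, q = c • ((1 : ℂ), L)) {n : ℕ} (α : Fin n → K)
    (ha : ∀ i, (α i : ℂ) ∈ M.closure ∅) (hi : LinearIndependent ℚ α) :
    AlgebraicIndependent ℚ fun i => Complex.exp (lam (α i)) := by
  set V : Submodule ℚ K := span ℚ (range α) with hV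
  have hfV : FiniteDimensional ℚ V := FiniteDimensional.span_of_finite ℚ (finite_range α)
  have hdim : finrank ℚ V = n := by
    have := finrank_span_eq_card hi
    simpa using this
  have h1 := hT.rk V hfV
  set I := V.map (gr lam) ⊓ P0 with hI
  have hfI : FiniteDimensional ℚ I := by
    have := hT.fin
    exact Submodule.finiteDimensional_of_le (inf_le_right : I ≤ P0)
  have hcl : ∀ y ∈ V, (y : ℂ) ∈ M.closure ∅ ∧
      Complex.exp (lam y) ∈ M.closure (range fun i => Complex.exp (lam (α i))) := by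
    intro y hy
    induction hy using Submodule.span_induction with
    | mem x hx => obtain ⟨i, rfl⟩ := hx; exact ⟨ha i, cl_self ⟨i, rfl⟩⟩
    | zero => exact ⟨cl_zero _, by rw [map_zero, Complex.exp_zero]; exact cl_one _⟩
    | add x y _ _ hx hy => exact ⟨cl_add hx.1 hy.1, by rw [map_add]; exact cl_exp_add hx.2 hy.2⟩
    | smul q x _ hx => exact ⟨cl_smul q hx.1, by rw [map_smul]; exact cl_exp_smul q hx.2⟩
  have hI1 : ∀ q ∈ I, ∃ c : ℚ, q = c • ((1 : ℂ), L) := by
    rintro q ⟨⟨y, hy, rfl⟩, hq⟩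
    exact F1 _ hq (hcl y hy).1
  have hle : (finrank ℚ I : ℕ∞) ≤ M.eRk (co I) := by
    by_cases hb : I = ⊥
    · rw [hb, finrank_bot]; simp
    · obtain ⟨q, hq, hq0⟩ := Submodule.exists_mem_ne_zero_of_ne_bot hb
      obtain ⟨c, hc⟩ := hI1 q hq
      have hc0 : c ≠ 0 := by
        rintro rfl
        rw [zero_smul] at hc
        exact hq0 hc
      have h2 : (1 : ℕ∞) ≤ M.eRk (co I) := by
        refine one_le_rk (x := Complex.exp q.2) ⟨q, hq, Or.inr rfl⟩ ?_
        rw [hc]
        change Complex.exp (c • L) ∉ _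
        intro h
        apply hc0
        refine exp_coef (w := 0) rfl hL (by rw [Complex.exp_zero]; exact cl_one _) ?_
        rw [add_zero, ← Rat.smul_def]; exact h
      have h3 : finrank ℚ I ≤ 1 := by
        have hle' : I ≤ span ℚ {((1 : ℂ), L)} := by
          intro q hq
          obtain ⟨c, hc⟩ := hI1 q hq
          exact Submodule.mem_span_singleton.2 ⟨c, hc.symm⟩
        exact (Submodule.finrank_mono hle').trans (finrank_span_singleton (by
          intro h; exact one_ne_zero (congrArg Prod.fst h))).le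
      refine le_trans ?_ h2
      exact_mod_cast h3
  have hn : (n : ℕ∞) ≤ M.eRk (co (V.map (gr lam))) := by
    rw [hdim] at h1
    have h2 := h1.trans (add_le_add_right hle _)
    have htop : M.eRk (co I) ≠ ⊤ := by
      refine ne_top_of_le_ne_top hT.top (M.eRk_mono ?_)
      exact co_mono inf_le_right
    exact (ENat.add_le_add_iff_right htop).1 h2
  apply algInd_of_rk
  refine hn.trans ?_
  rw [← M.eRk_closure_eq (range _)]
  apply M.eRk_mono
  rintro a ⟨_, ⟨y, hy, rfl⟩, rfl | rfl⟩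
  · exact cl_empty_le (hcl y hy).1
  · exact (hcl y hy).2

theorem BD.field' {t : ℕ → ℂ} {N : ℕ} {P0 : Submodule ℚ (ℂ × ℂ)}
    {L0 : Submodule ℚ ℂ} {W0 : Submodule kk ℂ} {e p l : ℝ} (h : BD t N P0 L0 W0 e p l)
    (he : 2 < e ∧ e < 3) (hp : 3 < p ∧ p < 4) {K : IntermediateField ℚ ℂ}
    (hKcl : ∀ z : ℂ, IsAlgebraic K.toSubfield z → z ∈ K) (hKk : ∀ z ∈ M.closure ∅, z ∈ K)
    (hconjK : ∀ x ∈ K, conj x ∈ K) (E : K → K) (lam : K →ₗ[ℚ] ℂ)
    (hE : ∀ x, (E x : ℂ) = Complex.exp (lam x)) (hsurj : ∀ y, y ≠ 0 → ∃ x, E x = y)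
    (hker : ∀ x, E x = 1 ↔ ∃ n : ℤ, (x : ℂ) = n * (2 * Complex.I * (p : ℂ))) (hT : Tw lam P0)
    (hconj : ∀ x y : K, (y : ℂ) = conj (x : ℂ) → lam y = conj (lam x)) :
    ∃ F : ExpField, F.e = e ∧ F.p = p ∧ F.l = l ∧ (∀ q ∈ P0, F.E q.1 = Complex.exp q.2) ∧
      Theorems F ∧ (∀ (s : Set ℂ) (k : ℕ), Dfk P0 s k → SchanuelDefect F k) ∧ Wit F P0 := by
  classical
  have he0 : 0 < e := by linarith
  have hp0 : 0 < p := by linarith
  have hP := hT.mem
  let EE : ℂ → ℂ := fun x => if hx : x ∈ K then Complex.exp (lam ⟨x, hx⟩) else 0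
  have hEE : ∀ x : K, EE x = Complex.exp (lam x) := fun x => by
    simp only [EE]
    rw [dif_pos x.2]
  have hEP : ∀ q ∈ P0, EE q.1 = Complex.exp q.2 := by
    intro q hq
    obtain ⟨x, h1, h2⟩ := hP q hq
    rw [← h1, hEE, h2]
  have hfst : ∀ q ∈ P0, q.1 ∈ K := by
    intro q hq
    obtain ⟨x, h1, h2⟩ := hP q hq
    rw [← h1]; exact x.2
  have hexpK : ∀ x : K, Complex.exp (lam x) ∈ K := fun x => by rw [← hE]; exact (E x).2
  let F : ExpField :=
    { K := K.toSubfield
      E := EE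
      e := e
      p := p
      l := l
      closed := hKcl
      conj_mem := hconjK
      E_mem := fun x hx => by
        show EE x ∈ K
        rw [hEE ⟨x, hx⟩]; exact hexpK _
      E_add := fun x hx y hy => by
        have h1 := hEE (⟨x, hx⟩ + ⟨y, hy⟩)
        rw [map_add, Complex.exp_add, ← hEE, ← hEE] at h1
        exact h1
      E_surj := fun y hy hy0 => by
        obtain ⟨x, hx⟩ := hsurj ⟨y, hy⟩ (fun h0 => hy0 (congrArg Subtype.val h0))
        refine ⟨x, x.2, ?_⟩
        rw [hEE, ← hE, hx]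
      E_conj := fun x hx => by
        have h1 := hconj ⟨x, hx⟩ ⟨conj x, hconjK x hx⟩ rfl
        have h2 := hEE ⟨conj x, hconjK x hx⟩
        rw [h1, Complex.exp_conj, ← hEE] at h2
        exact h2
      ker := fun x hx => by
        have h1 := hker ⟨x, hx⟩
        have h2 : EE x = 1 ↔ E ⟨x, hx⟩ = 1 := by
          rw [hEE ⟨x, hx⟩, ← hE]
          constructor
          · intro h0; exact Subtype.ext h0
          · intro h0; rw [h0]; rfl
        rw [h2, h1]
        refine exists_congr fun n => ?_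
        show x = n * (2 * Complex.I * p) ↔ _
        rw [show (n : ℂ) * (2 * Complex.I * p) = 2 * p * Complex.I * n by ring]
      e_mem := by
        have h1 := hexpK ⟨1, hfst _ h.one⟩
        have h2 := hEP _ h.one
        have h3 := hEE ⟨1, hfst _ h.one⟩
        have h4 : (e : ℂ) = Complex.exp (lam ⟨1, hfst _ h.one⟩) := by
          rw [← h3]
          show (e : ℂ) = EE 1
          have h5 : EE 1 = Complex.exp ((Real.log e : ℝ) : ℂ) := h2
          rw [h5, exp_rlog he0]
        show (e : ℂ) ∈ K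
        rw [h4]; exact h1
      p_mem := by
        have h1 := hfst _ h.kap
        have h2 : (2 * Complex.I : ℂ) ∈ K := hKk _ (cl_mul (cl_two _) (cl_I _))
        have h3 : (p : ℂ) = (2 * Complex.I)⁻¹ * (2 * Complex.I * p) := by
          field_simp
        show (p : ℂ) ∈ K
        rw [h3]
        exact mul_mem (inv_mem h2) h1
      l_mem := hfst _ h.pl
      E_one := by
        have h2 : EE 1 = Complex.exp ((Real.log e : ℝ) : ℂ) := hEP _ h.one
        rw [h2, exp_rlog he0]
      E_l := by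
        have h2 : EE l = Complex.exp ((Real.log p : ℝ) : ℂ) := hEP _ h.pl
        rw [h2, exp_rlog hp0]
      e_bound := he
      p_bound := hp }
  -- the logarithms of finitely many algebraic numbers
  have hstage : ∀ (ι : Type) [Finite ι] (u : ι → ℂ), (∀ i, IsLog F (u i)) →
      ∃ w : List K, Gn (co P0) w ∧ ∀ i, u i ∈ L0 ⊔ span ℚ (lc w) := by
    intro ι _ u hu
    let u' : ι → K := fun i => ⟨u i, (hu i).1⟩
    have hlog : ∀ x ∈ range u', Complex.exp (lam x) ∈ M.closure ∅ := by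
      rintro _ ⟨i, rfl⟩
      rw [← hEE]
      exact mem_cl_empty.2 (hu i).2
    obtain ⟨w, h1, h2, h3⟩ := hT.stage (finite_range u') hlog
    refine ⟨w, h2, fun i => ?_⟩
    exact hT.log_mem h.F2 h1 (hlog _ ⟨i, rfl⟩) (h3 _ ⟨i, rfl⟩)
  -- finitely many linear forms
  have hform : ∀ (ι : Type) [Finite ι] (z : ι → ℂ), (∀ i, LogForm F (z i)) →
      ∃ w : List K, Gn (co P0) w ∧ ∀ i, z i ∈ W0 ⊔ span kk (lc w) := by
    intro ι _ z hz
    choose n u c₀ c hu h0 hc hz using hz
    obtain ⟨w, hw, hmem⟩ := hstage (Σ i : ι, Fin (n i)) (fun k => u k.1 k.2)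
      (fun k => hu k.1 k.2)
    refine ⟨w, hw, fun i => ?_⟩
    set W := W0 ⊔ span kk (lc w) with hW
    have hmW : ∀ k, u i k ∈ W := by
      intro k
      have h1 : u i k ∈ L0 ⊔ span ℚ (lc w) := hmem ⟨i, k⟩
      obtain ⟨v, hv, z, hz, hvz⟩ := Submodule.mem_sup.1 h1
      rw [← hvz]
      refine Submodule.add_mem_sup (h.L0W v hv) ?_
      clear hvz
      induction hz using Submodule.span_induction with
      | mem x hx => exact subset_span hx
      | zero => exact Submodule.zero_mem _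
      | add x y _ _ hx hy => exact Submodule.add_mem _ hx hy
      | smul q x _ hx =>
        have : q • x = (⟨(q : ℂ), kk_mem.2 (cl_ratCast _ q)⟩ : kk) • x := by
          rw [Rat.smul_def, Algebra.smul_def]; rfl
        rw [this]
        exact Submodule.smul_mem _ _ hx
    rw [hz i]
    refine Submodule.add_mem _ ?_ (Submodule.sum_mem _ fun k _ => ?_)
    · have : c₀ i = (⟨c₀ i, kk_mem.2 (mem_cl_empty.2 (h0 i))⟩ : kk) • (1 : ℂ) := by
        rw [Algebra.smul_def, mul_one]; rfl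
      rw [this]
      exact Submodule.smul_mem _ _ (Submodule.mem_sup_left h.one_mem)
    · have : c i k * u i k = (⟨c i k, kk_mem.2 (mem_cl_empty.2 (hc i k))⟩ : kk) • u i k := by
        rw [Algebra.smul_def]; rfl
      rw [this]
      exact Submodule.smul_mem _ _ (hmW k)
  refine ⟨F, rfl, rfl, rfl, hEP, ⟨?_, ?_, ?_, ?_⟩, ?_, ⟨⟨K, lam, rfl, hEE, hT⟩⟩⟩
  · intro n α ha hi
    have hmem : ∀ i, α i ∈ K := fun i => hKk _ (mem_cl_empty.2 (ha i))
    let α' : Fin n → K := fun i => ⟨α i, hmem i⟩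
    have hi' : LinearIndependent ℚ α' := by
      have h1 : α = K.val.toLinearMap ∘ α' := rfl
      rw [h1] at hi
      exact hi.of_comp _
    have h1 := hT.lw (L := ((Real.log e : ℝ) : ℂ)) (by rw [exp_rlog he0]; exact h.etr) h.F1 α'
      (fun i => mem_cl_empty.2 (ha i)) hi'
    have h2 : (fun i => F.E (α i)) = fun i => Complex.exp (lam (α' i)) := by
      funext i; exact hEE (α' i)
    rw [h2]; exact h1
  · intro n u hu hi c₀ c h0 hc hs
    obtain ⟨w, h1, h2⟩ := hstage (Fin n) u hu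
    exact ((h.bk.gen h.L0co w h1).1).indep h2 hi (mem_cl_empty.2 h0)
      (fun i => mem_cl_empty.2 (hc i)) hs
  · intro x y hx hy
    by_contra hcon
    push Not at hcon
    obtain ⟨w, hw, hzW'⟩ := hform (Fin 2 × Fin 3) (fun k => x k.1 * y k.2)
      (fun k => hcon k.1 k.2)
    obtain ⟨hN, -⟩ := h.nb.gen h.W0co w hw
    set W := W0 ⊔ span kk (lc w) with hW
    have hzW : ∀ i j, x i * y j ∈ W := fun i j => hzW' (i, j)
    have hx0 : x 0 ≠ 0 := by
      intro h1
      have := hx ![1, 0] (by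
        intro i; fin_cases i
        · exact isAlgebraic_one
        · exact isAlgebraic_zero) (by rw [Fin.sum_univ_two]; simp [h1]) 0
      simp at this
    have hθ : x 1 / x 0 ∉ kk := by
      intro h1
      have h2 := mem_cl_empty.1 (kk_mem.1 h1)
      have := hx ![-(x 1 / x 0), 1] (by
        intro i; fin_cases i
        · exact h2.neg
        · exact isAlgebraic_one) (by
          rw [Fin.sum_univ_two]
          simp only [Matrix.cons_val_zero, Matrix.cons_val_one]
          field_simp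
          ring) 1
      simp at this
    have hb := hN.bd _ hθ
    have hf := finNN (θ := x 1 / x 0) hN.fin
    have hli : LinearIndependent kk (fun j : Fin 3 =>
        (⟨x 0 * y j, mem_NN.2 ⟨hzW 0 j, by
          have : x 1 / x 0 * (x 0 * y j) = x 1 * y j := by field_simp
          rw [this]; exact hzW 1 j⟩⟩ : NN (x 1 / x 0) W)) := by
      rw [Fintype.linearIndependent_iff]
      intro g hg
      have h1 : ∑ j, (g j : ℂ) * (x 0 * y j) = 0 := by
        have := congrArg Subtype.val hg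
        simpa [Algebra.smul_def] using this
      have h2 : x 0 * ∑ j, (g j : ℂ) * y j = 0 := by
        rw [← h1, Finset.mul_sum]
        exact Finset.sum_congr rfl fun j _ => by ring
      have h3 := (mul_eq_zero.1 h2).resolve_left hx0
      have h4 := hy (fun j => (g j : ℂ)) (fun j => mem_cl_empty.1 (kk_mem.1 (g j).2)) h3
      intro j
      exact Subtype.ext (h4 j)
    have h3 := hli.fintype_card_le_finrank
    rw [Fintype.card_fin] at h3
    omega
  · intro d m A φ hA hφ
    obtain ⟨w, hw, hAW⟩ := hform (Fin d × Fin m) (fun k => A k.1 k.2) (fun k => hA k.1 k.2)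
    obtain ⟨v, hv, hr⟩ := h.hr
    obtain ⟨hN, -⟩ := hr.gen h.one_mem h.W0co w hw
    let ψ : ℂ →ₗ[kk] kk :=
      { toFun := fun x => ⟨φ x, kk_mem.2 (mem_cl_empty.2 (hφ.2.2 x))⟩
        map_add' := fun x y => Subtype.ext (hφ.1 x y)
        map_smul' := fun c x => Subtype.ext (by
          have := hφ.2.1 (c : ℂ) x (mem_cl_empty.1 (kk_mem.1 c.2))
          rw [kk_smul]
          exact this) }
    exact hN.all hv A (fun i j => hAW (i, j)) ψ
  · intro s k hk n z hz hi
    let z' : Fin n → K := fun i => ⟨z i, hz i⟩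
    have hi' : LinearIndependent ℚ z' := by
      have h1 : z = K.val.toLinearMap ∘ z' := rfl
      rw [h1] at hi
      exact hi.of_comp _
    have hf : FiniteDimensional ℚ (span ℚ (range z')) :=
      FiniteDimensional.span_of_finite ℚ (finite_range z')
    have h1 := hT.defect hk (span ℚ (range z')) hf
    rw [finrank_span_eq_card hi', Fintype.card_fin] at h1
    apply trdeg_defect
    refine h1.trans ?_
    gcongr
    rw [← M.eRk_closure_eq (range z ∪ _)]
    apply M.eRk_mono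
    have hcl : ∀ y ∈ span ℚ (range z'), (y : ℂ) ∈ M.closure (range z ∪ range fun i => F.E (z i)) ∧
        Complex.exp (lam y) ∈ M.closure (range z ∪ range fun i => F.E (z i)) := by
      intro y hy
      induction hy using Submodule.span_induction with
      | mem x hx =>
        obtain ⟨i, rfl⟩ := hx
        refine ⟨cl_self (Or.inl ⟨i, rfl⟩), ?_⟩
        rw [← hEE]
        exact cl_self (Or.inr ⟨i, rfl⟩)
      | zero => exact ⟨cl_zero _, by rw [map_zero, Complex.exp_zero]; exact cl_one _⟩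
      | add x y _ _ hx hy => exact ⟨cl_add hx.1 hy.1, by rw [map_add]; exact cl_exp_add hx.2 hy.2⟩
      | smul q x _ hx => exact ⟨cl_smul q hx.1, by rw [map_smul]; exact cl_exp_smul q hx.2⟩
    rintro a ⟨_, ⟨y, hy, rfl⟩, rfl | rfl⟩
    · exact (hcl y hy).1
    · exact (hcl y hy).2

theorem BD.field {t : ℕ → ℂ} (ht : FreeR t) {N : ℕ} {P0 : Submodule ℚ (ℂ × ℂ)}
    {L0 : Submodule ℚ ℂ} {W0 : Submodule kk ℂ} {e p l : ℝ} (h : BD t N P0 L0 W0 e p l)
    (he : 2 < e ∧ e < 3) (hp : 3 < p ∧ p < 4) :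
    ∃ F : ExpField, F.e = e ∧ F.p = p ∧ F.l = l ∧ (∀ q ∈ P0, F.E q.1 = Complex.exp q.2) ∧
      Theorems F ∧ (∀ (s : Set ℂ) (k : ℕ), Dfk P0 s k → SchanuelDefect F k) ∧ Wit F P0 := by
  obtain ⟨E, lam, hE, hsurj, hker, hP, hrk, hconj⟩ := extensionC ht h.st h.cs _ h.kap
  have hT : Tw lam P0 := ⟨h.st.fin, h.st.rk_ne_top ((finite_Iio N).image t) le_rfl, hP, hrk⟩
  have hreal : ∀ y ∈ range t, conj y = y := by
    rintro _ ⟨n, rfl⟩; exact (ht.pos n).conj
  exact h.field' he hp (fun z hz => cl_idem hz) (fun z hz => mem_cl.1 (cl_empty_le hz))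
    (fun x hx => mem_cl.1 (Pool.Agent.Helper35.EM.conj_mem hreal (mem_cl.2 hx))) E lam hE hsurj
    hker hT hconj

end Pool.Agent.Helper56.SA
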