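import Mathlib

/-! Rational numbers near given ones with independent logarithms. -/

set_option autoImplicit false

namespace Pool.Agent.Helper56.SA

theorem padicValRat_prod' {p : ℕ} [hp : Fact p.Prime] {ι : Type} (S : Finset ι) (f : ι → ℚ)
    (hf : ∀ i ∈ S, f i ≠ 0) : padicValRat p (∏ i ∈ S, f i) = ∑ i ∈ S, padicValRat p (f i) := by
  classical
  induction S using Finset.induction_on with
  | empty => simp
  | insert a S ha ih =>
    rw [Finset.prod_insert ha, Finset.sum_insert ha, padicValRat.mul (hf a (by simp))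
      (Finset.prod_ne_zero_iff.2 fun i hi => hf i (by simp [hi])), ih fun i hi => hf i (by simp [hi])]

theorem logind {n : ℕ} (P : Fin n → ℕ) (hP : ∀ i, (P i).Prime) (x : Fin n → ℚ) (hx : ∀ j, 0 < x j)
    (hv : ∀ i j, padicValRat (P i) (x j) = if i = j then 1 else 0) (β : Fin n → ℚ)
    (h : ∑ j, (β j : ℝ) * Real.log (x j) = 0) : ∀ j, β j = 0 := by
  set d : ℕ := ∏ j, (β j).den with hd
  have hd0 : (d : ℚ) ≠ 0 := by
    rw [hd]
    exact_mod_cast (Finset.prod_ne_zero_iff.2 fun j _ => (β j).den_nz)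
  have hN : ∀ j, ∃ N : ℤ, (N : ℚ) = β j * d := by
    intro j
    obtain ⟨k, hk⟩ : (β j).den ∣ d := Finset.dvd_prod_of_mem _ (Finset.mem_univ j)
    refine ⟨(β j).num * k, ?_⟩
    rw [hk]
    push_cast
    rw [← mul_assoc, Rat.mul_den_eq_num]
  choose N hN using hN
  have h1 : ∑ j, (N j : ℝ) * Real.log (x j) = 0 := by
    have h2 : ∀ j, (N j : ℝ) = (β j : ℝ) * d := fun j => by exact_mod_cast congrArg (Rat.cast (K := ℝ)) (hN j)
    have h3 : ∑ j, (N j : ℝ) * Real.log (x j) = (∑ j, (β j : ℝ) * Real.log (x j)) * d := by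
      rw [Finset.sum_mul]
      exact Finset.sum_congr rfl fun j _ => by rw [h2]; ring
    rw [h3, h, zero_mul]
  have h2 : ∏ j, (x j) ^ (N j) = 1 := by
    have hxR : ∀ j, (0 : ℝ) < x j := fun j => by exact_mod_cast hx j
    have h3 : Real.log (∏ j, ((x j : ℝ)) ^ (N j)) = 0 := by
      rw [Real.log_prod (fun j _ => (zpow_pos (hxR j) _).ne')]
      rw [← h1]
      exact Finset.sum_congr rfl fun j _ => Real.log_zpow _ _
    have h4 : (0 : ℝ) < ∏ j, ((x j : ℝ)) ^ (N j) := Finset.prod_pos fun j _ => zpow_pos (hxR j) _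
    have h5 : ∏ j, ((x j : ℝ)) ^ (N j) = 1 := by
      rw [← Real.exp_log h4, h3, Real.exp_zero]
    exact_mod_cast h5
  intro i
  have : Fact (P i).Prime := ⟨hP i⟩
  have h3 := congrArg (padicValRat (P i)) h2
  rw [padicValRat_prod' _ _ (fun j _ => (zpow_pos (hx j) _).ne'), padicValRat.one] at h3
  simp_rw [padicValRat.zpow, hv] at h3
  simp only [mul_ite, mul_one, mul_zero, Finset.sum_ite_eq, Finset.mem_univ, if_true] at h3
  have h4 := hN i
  rw [h3] at h4
  push_cast at h4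
  exact (mul_eq_zero.1 h4.symm).resolve_right hd0

/-- four primes -/
def Pr : Fin 4 → ℕ := ![5, 7, 11, 13]

theorem Pr_prime (i : Fin 4) : (Pr i).Prime := by
  fin_cases i <;> (simp only [Pr]; norm_num)

theorem Pr_dvd (i : Fin 4) : Pr i ∣ 5005 := by
  fin_cases i <;> (simp only [Pr]; norm_num)

theorem Pr_pos (i : Fin 4) : 0 < Pr i := (Pr_prime i).pos

theorem padic_one (j : Fin 4) (m : ℕ) : padicValRat (Pr j) ((5005 * m + 1 : ℕ) : ℚ) = 0 := by
  have : Fact (Pr j).Prime := ⟨Pr_prime j⟩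
  rw [padicValRat.of_nat]
  have : ¬ Pr j ∣ 5005 * m + 1 := by
    intro h
    have h1 := (Nat.dvd_add_right (Dvd.dvd.mul_right (Pr_dvd j) m)).1 h
    exact (Pr_prime j).one_lt.ne' (Nat.dvd_one.1 h1)
  rw [padicValNat.eq_zero_of_not_dvd this]
  rfl

theorem padic_Pr (i j : Fin 4) : padicValRat (Pr j) ((Pr i : ℕ) : ℚ) = if j = i then 1 else 0 := by
  have : Fact (Pr j).Prime := ⟨Pr_prime j⟩
  have : Fact (Pr i).Prime := ⟨Pr_prime i⟩
  rw [padicValRat.of_nat]
  by_cases h : j = i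
  · subst h
    rw [padicValNat_self, if_pos rfl]
    rfl
  · rw [if_neg h]
    have h1 : ¬ Pr j ∣ Pr i := by
      intro h2
      have h3 := (Nat.prime_dvd_prime_iff_eq (Pr_prime j) (Pr_prime i)).1 h2
      apply h
      revert h3
      fin_cases i <;> fin_cases j <;> simp [Pr]
    rw [padicValNat.eq_zero_of_not_dvd h1]
    rfl

theorem exists_rat (i : Fin 4) (y ε : ℝ) (hy : 0 < y) (hε : 0 < ε) :
    ∃ q : ℚ, 0 < q ∧ |(q : ℝ) - y| < ε ∧ ∀ j, padicValRat (Pr j) q = if j = i then 1 else 0 := by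
  have hPi : (0 : ℝ) < Pr i := by exact_mod_cast Pr_pos i
  set z : ℝ := y / Pr i with hz
  have hz0 : 0 < z := div_pos hy hPi
  obtain ⟨n, hn⟩ := exists_nat_gt (max (Pr i / ε) (1 / z))
  have hn1 : (Pr i : ℝ) / ε < n := (le_max_left _ _).trans_lt hn
  have hn2 : 1 / z < n := (le_max_right _ _).trans_lt hn
  set A : ℝ := 5005 * n + 1 with hA
  have hn0 : (0 : ℝ) ≤ n := Nat.cast_nonneg n
  have hA0 : 0 < A := by rw [hA]; linarith
  have hA1 : 1 ≤ z * A := by
    rw [div_lt_iff₀ hz0] at hn2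
    rw [hA]
    nlinarith
  have hA2 : 5005 / A < ε / Pr i := by
    rw [div_lt_div_iff₀ hA0 hPi]
    rw [div_lt_iff₀ hε] at hn1
    rw [hA]
    nlinarith
  set m : ℕ := ⌊(z * A - 1) / 5005⌋₊ with hm
  have hm1 : (m : ℝ) ≤ (z * A - 1) / 5005 := Nat.floor_le (by
    apply div_nonneg <;> linarith)
  have hm2 : (z * A - 1) / 5005 < m + 1 := Nat.lt_floor_add_one _
  rw [le_div_iff₀ (by norm_num)] at hm1
  rw [div_lt_iff₀ (by norm_num)] at hm2
  refine ⟨(Pr i : ℕ) * (((5005 * m + 1 : ℕ) : ℚ) / ((5005 * n + 1 : ℕ) : ℚ)), ?_, ?_, ?_⟩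
  · have := Pr_pos i
    positivity
  · have e1 : ((((Pr i : ℕ) : ℚ) * (((5005 * m + 1 : ℕ) : ℚ) / ((5005 * n + 1 : ℕ) : ℚ)) : ℚ) : ℝ) =
        Pr i * ((5005 * m + 1) / A) := by
      rw [hA]; push_cast; rfl
    rw [e1]
    have e2 : y = Pr i * z := by rw [hz]; field_simp
    rw [e2, ← mul_sub, abs_mul, abs_of_pos hPi]
    have h3 : |(5005 * (m : ℝ) + 1) / A - z| < ε / Pr i := by
      refine lt_of_le_of_lt ?_ hA2
      rw [abs_le]
      have e3 : (5005 * (m : ℝ) + 1) / A - z = (5005 * m + 1 - z * A) / A := by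
        field_simp
      rw [e3]
      constructor
      · rw [neg_le_iff_add_nonneg, ← add_div]
        apply div_nonneg _ hA0.le
        linarith
      · apply div_le_div_of_nonneg_right _ hA0.le
        linarith
    calc (Pr i : ℝ) * |(5005 * (m : ℝ) + 1) / A - z| < Pr i * (ε / Pr i) := by gcongr
      _ = ε := by field_simp
  · intro j
    have : Fact (Pr j).Prime := ⟨Pr_prime j⟩
    have h1 : ((Pr i : ℕ) : ℚ) ≠ 0 := by exact_mod_cast (Pr_pos i).ne'
    have h2 : ((5005 * m + 1 : ℕ) : ℚ) ≠ 0 := by positivity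
    have h3 : ((5005 * n + 1 : ℕ) : ℚ) ≠ 0 := by positivity
    rw [padicValRat.mul h1 (div_ne_zero h2 h3), padicValRat.div h2 h3, padic_one, padic_one,
      padic_Pr]
    simp

end Pool.Agent.Helper56.SA
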