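import Pool.Agent.Helper56.SA.Nbs
import Pool.Agent.Helper56.SA.Rt

/-! The chain of closures of generic numbers. -/

set_option autoImplicit false

namespace Pool.Agent.Helper56.SA

open Pool.Agent.Helper35.EM Pool.Agent.Helper56.EM Module Submodule Set ComplexConjugate

/-- the first generic numbers -/
abbrev Fn (t : ℕ → ℝ) (n : ℕ) : Set ℂ := (fun k => (t k : ℂ)) '' Iio n

theorem Fn_mem {t : ℕ → ℝ} {k n : ℕ} (h : k < n) : (t k : ℂ) ∈ M.closure (Fn t n) :=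
  cl_self ⟨k, h, rfl⟩

theorem Fn_mono {t : ℕ → ℝ} {m n : ℕ} (h : m ≤ n) {z : ℂ} (hz : z ∈ M.closure (Fn t m)) :
    z ∈ M.closure (Fn t n) :=
  cl_mono (image_mono fun _ hk => lt_of_lt_of_le hk h) hz

theorem Fn_not {t : ℕ → ℝ} (ht : FreeR fun n => (t n : ℂ)) {k n : ℕ} (h : n ≤ k) :
    (t k : ℂ) ∉ M.closure (Fn t n) := fun hh => ht.free k (Fn_mono h hh)

theorem Fn_zero (t : ℕ → ℝ) : Fn t 0 = ∅ := by ext; simp

theorem Fn_one (t : ℕ → ℝ) : Fn t 1 = {(t 0 : ℂ)} := by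
  rw [Fn, show (Iio 1 : Set ℕ) = {0} by ext k; simp]
  simp

theorem Fn_two (t : ℕ → ℝ) : Fn t 2 = {(t 0 : ℂ), (t 1 : ℂ)} := by
  rw [Fn, show (Iio 2 : Set ℕ) = {0, 1} by
    ext k
    simp only [Set.mem_Iio, Set.mem_insert_iff, Set.mem_singleton_iff]
    omega]
  rw [Set.image_pair]

theorem Fn_not_empty {t : ℕ → ℝ} (ht : FreeR fun n => (t n : ℂ)) (k : ℕ) :
    (t k : ℂ) ∉ M.closure ∅ := fun hh => Fn_not ht (Nat.zero_le k) (cl_empty_le hh)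

theorem pos_t {t : ℕ → ℝ} (ht : FreeR fun n => (t n : ℂ)) (k : ℕ) : 0 < t k := pos_of ht k

/-- multiplicative independence, for values in the chain -/
theorem H2chain {n : ℕ} {t : ℕ → ℝ} {y : Fin n → ℝ} (hy : ∀ i, 0 < y i) (σ : Fin n → Prop)
    (K N : Fin n → ℕ) (hKN : ∀ i j, j < i → K j ≤ N i)
    (h1 : ∀ i, σ i → (y i : ℂ) ∉ M.closure (Fn t (N i)))
    (h2 : ∀ i, (y i : ℂ) ∈ M.closure (Fn t (K i)))
    (h3 : ∀ i j, σ i → i < j → σ j ∨ (y j : ℂ) ∈ M.closure ∅) (α : Fin n → ℚ)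
    (h : Complex.exp (∑ i, (α i : ℂ) * ((Real.log (y i) : ℝ) : ℂ)) ∈ M.closure ∅) :
    ∀ i, σ i → α i = 0 := by
  refine H2gen hy σ (fun i => Fn t (N i)) h1 ?_ α h
  intro i j hi hj
  rcases lt_or_gt_of_ne hj with h4 | h4
  · exact Or.inl (Fn_mono (hKN i j h4) (h2 j))
  · rcases h3 i j hi h4 with h5 | h5
    · exact Or.inr ⟨h5, h4⟩
    · exact Or.inl (cl_empty_le h5)

/-- positive algebraic numbers with independent logarithms -/
structure AlgInd {n : ℕ} (z : Fin n → ℝ) : Prop where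
  pos : ∀ i, 0 < z i
  alg : ∀ i, (z i : ℂ) ∈ M.closure ∅
  ind : ∀ β : Fin n → ℚ, ∑ j, (β j : ℝ) * Real.log (z j) = 0 → ∀ j, β j = 0

end Pool.Agent.Helper56.SA
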