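import Pool.Agent.Helper56.SA.Hr

/-! The half structural rank theorem for the bases. -/

set_option autoImplicit false

namespace Pool.Agent.Helper56.SA

open Pool.Agent.Helper35.EM Pool.Agent.Helper56.EM Module Submodule Set Matrix

theorem hrC {a p l v : ℂ} (ha : a ∉ M.closure ∅) (hp : p ∉ M.closure {a})
    (hl : l ∉ M.closure {a, p}) :
    HR v (span kk (range (![1, p, a, a * l, p * l] : Fin 5 → ℂ))) := by
  intro d m A φ hA h1 _
  have hq : ∀ i j, ∃ c : Fin 5 → kk, A i j = c 0 + c 1 * p + c 2 * a + c 3 * (a * l) +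
      c 4 * (p * l) := by
    intro i j
    obtain ⟨c, hc⟩ := (mem_span_range_iff_exists_fun kk).1 (hA i j)
    refine ⟨c, ?_⟩
    rw [← hc, Fin.sum_univ_five]
    simp only [kk_smul]
    show (c 0 : ℂ) * 1 + (c 1 : ℂ) * p + (c 2 : ℂ) * a + (c 3 : ℂ) * (a * l) +
      (c 4 : ℂ) * (p * l) = _
    ring
  choose c hc using hq
  have hk : ∀ i j k (s : Set ℂ), (c i j k : ℂ) ∈ M.closure s := fun i j k s => kk_le (c i j k).2
  have hn : ∀ (z : kk) (s : Set ℂ), (z : ℂ) ∈ M.closure s := fun z s => kk_le z.2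
  have eφ : ∀ i j, (φ (A i j) : ℂ) = c i j 0 * φ 1 + c i j 1 * φ p + c i j 2 * φ a +
      c i j 3 * φ (a * l) + c i j 4 * φ (p * l) := by
    intro i j
    rw [hc i j]
    simp only [phi_add, phi_mul, phi_kk]
  have ap : a ∈ M.closure {a, p} := cl_self (by simp)
  have pp : p ∈ M.closure {a, p} := cl_self (by simp)
  have aa : a ∈ M.closure {a} := cl_self rfl
  have hN : ∀ z w t : kk, (Matrix.of fun i j => (c i j 0 : ℂ) + c i j 1 * w + c i j 2 * z +
      c i j 3 * (z * t) + c i j 4 * (w * t)).rank ≤ A.rank := by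
    intro z w t
    have e1 : A = Matrix.of fun i j => ((c i j 0 : ℂ) + c i j 1 * p + c i j 2 * a) +
        (c i j 3 * a + c i j 4 * p) * l := by
      ext i j; rw [hc i j]; simp only [Matrix.of_apply]; ring
    have s1 := spec1 hl (t : ℂ) (Matrix.of fun i j => ((c i j 0 : ℂ) + c i j 1 * p + c i j 2 * a))
      (Matrix.of fun i j => (c i j 3 * a + c i j 4 * p))
      (fun i j => cl_add (cl_add (hk _ _ _ _) (cl_mul (hk _ _ _ _) pp)) (cl_mul (hk _ _ _ _) ap))
      (fun i j => cl_add (cl_mul (hk _ _ _ _) ap) (cl_mul (hk _ _ _ _) pp))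
    have s2 := spec1 hp (w : ℂ) (Matrix.of fun i j => ((c i j 0 : ℂ) + c i j 2 * a +
        c i j 3 * a * t)) (Matrix.of fun i j => ((c i j 1 : ℂ) + c i j 4 * t))
      (fun i j => cl_add (cl_add (hk _ _ _ _) (cl_mul (hk _ _ _ _) aa))
        (cl_mul (cl_mul (hk _ _ _ _) aa) (hn _ _)))
      (fun i j => cl_add (hk _ _ _ _) (cl_mul (hk _ _ _ _) (hn _ _)))
    have s3 := spec1 ha (z : ℂ) (Matrix.of fun i j => ((c i j 0 : ℂ) + c i j 1 * w +
        c i j 4 * w * t)) (Matrix.of fun i j => ((c i j 2 : ℂ) + c i j 3 * t))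
      (fun i j => cl_add (cl_add (hk _ _ _ _) (cl_mul (hk _ _ _ _) (hn _ _)))
        (cl_mul (cl_mul (hk _ _ _ _) (hn _ _)) (hn _ _)))
      (fun i j => cl_add (hk _ _ _ _) (cl_mul (hk _ _ _ _) (hn _ _)))
    simp only [Matrix.of_apply] at s1 s2 s3
    rw [← e1] at s1
    have e2 : (Matrix.of fun i j => ((c i j 0 : ℂ) + c i j 1 * p + c i j 2 * a) +
        (c i j 3 * a + c i j 4 * p) * (t : ℂ)) = Matrix.of fun i j => ((c i j 0 : ℂ) +
        c i j 2 * a + c i j 3 * a * t) + ((c i j 1 : ℂ) + c i j 4 * t) * p := by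
      ext i j; simp only [Matrix.of_apply]; ring
    have e3 : (Matrix.of fun i j => ((c i j 0 : ℂ) +
        c i j 2 * a + c i j 3 * a * t) + ((c i j 1 : ℂ) + c i j 4 * t) * (w : ℂ)) =
        Matrix.of fun i j => ((c i j 0 : ℂ) + c i j 1 * w +
        c i j 4 * w * t) + ((c i j 2 : ℂ) + c i j 3 * t) * a := by
      ext i j; simp only [Matrix.of_apply]; ring
    have e4 : (Matrix.of fun i j => (c i j 0 : ℂ) + c i j 1 * w + c i j 2 * z +
      c i j 3 * (z * t) + c i j 4 * (w * t)) = Matrix.of fun i j => ((c i j 0 : ℂ) + c i j 1 * w +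
        c i j 4 * w * t) + ((c i j 2 : ℂ) + c i j 3 * t) * z := by
      ext i j; simp only [Matrix.of_apply]; ring
    rw [e4]
    refine s3.trans ?_
    rw [← e3]
    refine s2.trans ?_
    rw [← e2]
    exact s1
  have hX0 : (φ 1 : ℂ) ≠ 0 := fun h0 => h1 (Subtype.ext h0)
  refine two_spec (c := φ 1 / 2) (c' := φ 1 / 2)
    (hN (φ a / φ 1 + φ (a * l) / φ 1) (φ p / φ 1 + φ (p * l) / φ 1) 1)
    (hN (φ a / φ 1 - φ (a * l) / φ 1) (φ p / φ 1 - φ (p * l) / φ 1) (-1)) fun i j => ?_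
  rw [Matrix.map_apply, eφ i j]
  simp only [Matrix.of_apply]
  push_cast
  field_simp
  ring

theorem hrT {a l v : ℂ} (ha : a ∉ M.closure ∅) (hl : l ∉ M.closure {a}) :
    HR v (span kk (range (![1, a, l, a * l] : Fin 4 → ℂ))) := by
  intro d m A φ hA h1 _
  have hq : ∀ i j, ∃ c : Fin 4 → kk, A i j = c 0 + c 1 * a + c 2 * l + c 3 * (a * l) := by
    intro i j
    obtain ⟨c, hc⟩ := (mem_span_range_iff_exists_fun kk).1 (hA i j)
    refine ⟨c, ?_⟩
    rw [← hc, Fin.sum_univ_four]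
    simp only [kk_smul]
    show (c 0 : ℂ) * 1 + (c 1 : ℂ) * a + (c 2 : ℂ) * l + (c 3 : ℂ) * (a * l) = _
    ring
  choose c hc using hq
  have hk : ∀ i j k (s : Set ℂ), (c i j k : ℂ) ∈ M.closure s := fun i j k s => kk_le (c i j k).2
  have hn : ∀ (z : kk) (s : Set ℂ), (z : ℂ) ∈ M.closure s := fun z s => kk_le z.2
  have eφ : ∀ i j, (φ (A i j) : ℂ) = c i j 0 * φ 1 + c i j 1 * φ a + c i j 2 * φ l +
      c i j 3 * φ (a * l) := by
    intro i j
    rw [hc i j]
    simp only [phi_add, phi_mul, phi_kk]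
  have aa : a ∈ M.closure {a} := cl_self rfl
  have hN : ∀ z t : kk, (Matrix.of fun i j => (c i j 0 : ℂ) + c i j 1 * z + c i j 2 * t +
      c i j 3 * (z * t)).rank ≤ A.rank := by
    intro z t
    have e1 : A = Matrix.of fun i j => ((c i j 0 : ℂ) + c i j 1 * a) +
        (c i j 2 + c i j 3 * a) * l := by
      ext i j; rw [hc i j]; simp only [Matrix.of_apply]; ring
    have s1 := spec1 hl (t : ℂ) (Matrix.of fun i j => ((c i j 0 : ℂ) + c i j 1 * a))
      (Matrix.of fun i j => ((c i j 2 : ℂ) + c i j 3 * a))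
      (fun i j => cl_add (hk _ _ _ _) (cl_mul (hk _ _ _ _) aa))
      (fun i j => cl_add (hk _ _ _ _) (cl_mul (hk _ _ _ _) aa))
    have s3 := spec1 ha (z : ℂ) (Matrix.of fun i j => ((c i j 0 : ℂ) + c i j 2 * t))
        (Matrix.of fun i j => ((c i j 1 : ℂ) + c i j 3 * t))
      (fun i j => cl_add (hk _ _ _ _) (cl_mul (hk _ _ _ _) (hn _ _)))
      (fun i j => cl_add (hk _ _ _ _) (cl_mul (hk _ _ _ _) (hn _ _)))
    simp only [Matrix.of_apply] at s1 s3
    rw [← e1] at s1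
    have e3 : (Matrix.of fun i j => ((c i j 0 : ℂ) + c i j 1 * a) +
        (c i j 2 + c i j 3 * a) * (t : ℂ)) =
        Matrix.of fun i j => ((c i j 0 : ℂ) + c i j 2 * t) + ((c i j 1 : ℂ) + c i j 3 * t) * a := by
      ext i j; simp only [Matrix.of_apply]; ring
    have e4 : (Matrix.of fun i j => (c i j 0 : ℂ) + c i j 1 * z + c i j 2 * t +
      c i j 3 * (z * t)) = Matrix.of fun i j => ((c i j 0 : ℂ) + c i j 2 * t) +
        ((c i j 1 : ℂ) + c i j 3 * t) * z := by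
      ext i j; simp only [Matrix.of_apply]; ring
    rw [e4]
    refine s3.trans ?_
    rw [← e3]
    exact s1
  have hX0 : (φ 1 : ℂ) ≠ 0 := fun h0 => h1 (Subtype.ext h0)
  refine two_spec (c := φ 1 / 2) (c' := φ 1 / 2)
    (hN (φ a / φ 1 + 1) (φ l / φ 1 + (φ (a * l) / φ 1 - φ a / φ 1 * (φ l / φ 1))))
    (hN (φ a / φ 1 - 1) (φ l / φ 1 - (φ (a * l) / φ 1 - φ a / φ 1 * (φ l / φ 1)))) fun i j => ?_
  rw [Matrix.map_apply, eφ i j]
  simp only [Matrix.of_apply]
  push_cast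
  field_simp
  ring

theorem hrA1 {a p r : ℂ} (ha : a ∉ M.closure ∅) (hr : r ∈ M.closure ∅) (hr0 : r ≠ 0)
    (hpa : p * a = r) : HR a (span kk (range (![1, a, p] : Fin 3 → ℂ))) := by
  intro d m A φ hA h1 hv
  have hq : ∀ i j, ∃ c : Fin 3 → kk, A i j = c 0 + c 1 * a + c 2 * p := by
    intro i j
    obtain ⟨c, hc⟩ := (mem_span_range_iff_exists_fun kk).1 (hA i j)
    refine ⟨c, ?_⟩
    rw [← hc, Fin.sum_univ_three]
    simp only [kk_smul]
    show (c 0 : ℂ) * 1 + (c 1 : ℂ) * a + (c 2 : ℂ) * p = _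
    ring
  choose c hc using hq
  have hk : ∀ i j k (s : Set ℂ), (c i j k : ℂ) ∈ M.closure s := fun i j k s => kk_le (c i j k).2
  have eφ : ∀ i j, (φ (A i j) : ℂ) = c i j 0 * φ 1 + c i j 1 * φ a + c i j 2 * φ p := by
    intro i j
    rw [hc i j]
    simp only [phi_add, phi_mul, phi_kk]
  have hN : ∀ z : kk, (Matrix.of fun i j => (c i j 2 : ℂ) * r + c i j 0 * z +
      c i j 1 * z ^ 2).rank ≤ A.rank := by
    intro z
    have e1 : a • A = Matrix.of fun i j => (c i j 2 : ℂ) * r + c i j 0 * a + c i j 1 * a ^ 2 := by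
      ext i j
      rw [Matrix.smul_apply, hc i j, smul_eq_mul]; simp only [Matrix.of_apply]
      rw [← hpa]; ring
    have s1 := spec2 ha (z : ℂ) (Matrix.of fun i j => (c i j 2 : ℂ) * r)
      (Matrix.of fun i j => (c i j 0 : ℂ)) (Matrix.of fun i j => (c i j 1 : ℂ))
      (fun i j => cl_mul (hk _ _ _ _) hr) (fun i j => hk _ _ _ _) (fun i j => hk _ _ _ _)
    simp only [Matrix.of_apply] at s1
    rw [← e1] at s1
    exact s1.trans (rank_smul_le _ _)
  have hX0 : (φ 1 : ℂ) ≠ 0 := fun h0 => h1 (Subtype.ext h0)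
  have hXa : (φ a : ℂ) ≠ 0 := fun h0 => hv (Subtype.ext h0)
  refine two_spec (c := φ 1 ^ 2 / φ a) (c' := φ p / r - φ 1 ^ 2 / φ a)
    (hN (φ a / φ 1)) (hN 0) fun i j => ?_
  rw [Matrix.map_apply, eφ i j]
  simp only [Matrix.of_apply]
  push_cast
  field_simp
  ring

theorem two_values {F : Type*} [Field F] [CharZero F] (m x : F) (hx : x ≠ 0) :
    ∃ z z' : F, z ≠ 0 ∧ z' ≠ 0 ∧ z' - z ≠ 0 ∧ m * z' - x ≠ 0 ∧ x - m * z ≠ 0 := by
  by_cases h1 : m = x
  · refine ⟨2, 3, two_ne_zero, three_ne_zero, by norm_num, ?_, ?_⟩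
    · rw [h1, show x * 3 - x = 2 * x by ring]
      exact mul_ne_zero two_ne_zero hx
    · rw [h1, show x - x * 2 = -x by ring]
      exact neg_ne_zero.2 hx
  · have h1' : x - m * 1 ≠ 0 := by
      intro h; apply h1; linear_combination -h
    by_cases h2 : m * 2 = x
    · refine ⟨1, 3, one_ne_zero, three_ne_zero, by norm_num, ?_, h1'⟩
      rw [← h2, show m * 3 - m * 2 = m by ring]
      rintro rfl
      simp at h2
      exact hx h2.symm
    · exact ⟨1, 2, one_ne_zero, two_ne_zero, by norm_num, sub_ne_zero.2 h2, h1'⟩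

theorem hrA2 {a b p r v : ℂ} (ha : a ∉ M.closure ∅) (hb : b ∉ M.closure {a})
    (hr : r ∈ M.closure ∅) (hr0 : r ≠ 0) (hpa : p * a = r) :
    HR v (span kk (range (![1, p, b, a * (b - 1)] : Fin 4 → ℂ))) := by
  intro d m A φ hA h1 _
  have hq : ∀ i j, ∃ c : Fin 4 → kk, A i j = c 0 + c 1 * p + c 2 * b + c 3 * (a * (b - 1)) := by
    intro i j
    obtain ⟨c, hc⟩ := (mem_span_range_iff_exists_fun kk).1 (hA i j)
    refine ⟨c, ?_⟩
    rw [← hc, Fin.sum_univ_four]
    simp only [kk_smul]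
    show (c 0 : ℂ) * 1 + (c 1 : ℂ) * p + (c 2 : ℂ) * b + (c 3 : ℂ) * (a * (b - 1)) = _
    ring
  choose c hc using hq
  have hk : ∀ i j k (s : Set ℂ), (c i j k : ℂ) ∈ M.closure s := fun i j k s => kk_le (c i j k).2
  have hn : ∀ (z : kk) (s : Set ℂ), (z : ℂ) ∈ M.closure s := fun z s => kk_le z.2
  have hrs : ∀ s : Set ℂ, r ∈ M.closure s := fun s => cl_empty_le hr
  have eφ : ∀ i j, (φ (A i j) : ℂ) = c i j 0 * φ 1 + c i j 1 * φ p + c i j 2 * φ b +
      c i j 3 * φ (a * (b - 1)) := by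
    intro i j
    rw [hc i j]
    simp only [phi_add, phi_mul, phi_kk]
  have aa : a ∈ M.closure {a} := cl_self rfl
  have hN : ∀ z y : kk, (Matrix.of fun i j => (c i j 1 : ℂ) * r +
      (c i j 0 + c i j 2 + c i j 2 * y) * z + c i j 3 * y * z ^ 2).rank ≤ A.rank := by
    intro z y
    have e1 : a • A = Matrix.of fun i j => ((c i j 0 : ℂ) * a + c i j 1 * r - c i j 3 * a ^ 2) +
        (c i j 2 * a + c i j 3 * a ^ 2) * b := by
      ext i j
      rw [Matrix.smul_apply, hc i j, smul_eq_mul]; simp only [Matrix.of_apply]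
      rw [← hpa]; ring
    have s1 := spec1 hb ((y : ℂ) + 1)
      (Matrix.of fun i j => ((c i j 0 : ℂ) * a + c i j 1 * r - c i j 3 * a ^ 2))
      (Matrix.of fun i j => ((c i j 2 : ℂ) * a + c i j 3 * a ^ 2))
      (fun i j => by
        show (c i j 0 : ℂ) * a + c i j 1 * r - c i j 3 * a ^ 2 ∈ _
        exact cl_sub (cl_add (cl_mul (hk _ _ _ _) aa) (cl_mul (hk _ _ _ _) (hrs _)))
          (cl_mul (hk _ _ _ _) (cl_pow 2 aa)))
      (fun i j => by
        show (c i j 2 : ℂ) * a + c i j 3 * a ^ 2 ∈ _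
        exact cl_add (cl_mul (hk _ _ _ _) aa) (cl_mul (hk _ _ _ _) (cl_pow 2 aa)))
    have s2 := spec2 ha (z : ℂ) (Matrix.of fun i j => (c i j 1 : ℂ) * r)
      (Matrix.of fun i j => ((c i j 0 : ℂ) + c i j 2 + c i j 2 * y))
      (Matrix.of fun i j => (c i j 3 : ℂ) * y)
      (fun i j => cl_mul (hk _ _ _ _) hr)
      (fun i j => cl_add (cl_add (hk _ _ _ _) (hk _ _ _ _)) (cl_mul (hk _ _ _ _) (hn _ _)))
      (fun i j => cl_mul (hk _ _ _ _) (hn _ _))
    simp only [Matrix.of_apply] at s1 s2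
    rw [← e1] at s1
    have e2 : (Matrix.of fun i j => ((c i j 0 : ℂ) * a + c i j 1 * r - c i j 3 * a ^ 2) +
        (c i j 2 * a + c i j 3 * a ^ 2) * ((y : ℂ) + 1)) =
        Matrix.of fun i j => (c i j 1 : ℂ) * r +
      (c i j 0 + c i j 2 + c i j 2 * y) * a + c i j 3 * y * a ^ 2 := by
      ext i j; simp only [Matrix.of_apply]; ring
    refine s2.trans ?_
    rw [← e2]
    exact s1.trans (rank_smul_le _ _)
  have hX0 : (φ 1 : ℂ) ≠ 0 := fun h0 => h1 (Subtype.ext h0)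
  obtain ⟨z, z', hz, hz', hD, hU, hV⟩ := two_values (φ p / (⟨r, kk_mem.2 hr⟩ : kk)) (φ 1) h1
  have hzc : (z : ℂ) ≠ 0 := fun h0 => hz (Subtype.ext h0)
  have hzc' : (z' : ℂ) ≠ 0 := fun h0 => hz' (Subtype.ext h0)
  have hDc : (z' : ℂ) - z ≠ 0 := fun h0 => hD (Subtype.ext (by push_cast; exact h0))
  have hUc : (φ p : ℂ) * z' - φ 1 * r ≠ 0 := by
    intro h0
    apply hU
    apply Subtype.ext
    push_cast
    show (φ p : ℂ) / r * z' - φ 1 = 0
    field_simp
    linear_combination h0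
  have hVc : (φ 1 : ℂ) * r - φ p * z ≠ 0 := by
    intro h0
    apply hV
    apply Subtype.ext
    push_cast
    show (φ 1 : ℂ) - (φ p : ℂ) / r * z = 0
    field_simp
    linear_combination h0
  set r' : kk := ⟨r, kk_mem.2 hr⟩ with hr'
  have hrr : (r' : ℂ) = r := rfl
  refine two_spec (c := (φ p * z' - φ 1 * r) / (r * (z' - z)))
    (c' := (φ 1 * r - φ p * z) / (r * (z' - z)))
    (hN z (r' * (z' * (φ b - φ 1) - φ (a * (b - 1))) / ((φ p * z' - φ 1 * r') * z)))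
    (hN z' (r' * (φ (a * (b - 1)) - z * (φ b - φ 1)) / ((φ 1 * r' - φ p * z) * z')))
    fun i j => ?_
  rw [Matrix.map_apply, eφ i j]
  simp only [Matrix.of_apply]
  push_cast
  rw [hrr]
  field_simp
  ring

end Pool.Agent.Helper56.SA
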