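import Pool.Agent.Helper56.SA.Fin
import Pool.Agent.Helper35.EM.Crit

/-! The number of algebraic values is at most the defect. -/

set_option autoImplicit false

namespace Pool.Agent.Helper56.SA

open Pool.Agent.Helper35.EM Pool.Agent.Helper56.EM Module Submodule Set

section

variable {F : ExpField} {k : ℕ}

theorem defect_span (hd : SchanuelDefect F k) {S : Set ℂ} (hS : S.Finite) (hK : ∀ x ∈ S, x ∈ F.K)
    {B : Set ℂ} {m : ℕ} (hB : B.encard ≤ m) (h1 : ∀ x ∈ S, x ∈ M.closure B)
    (h2 : ∀ x ∈ S, F.E x ∈ M.closure B) : finrank ℚ (span ℚ S) ≤ m + k := by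
  obtain ⟨b, hbS, hsp, hli⟩ := exists_linearIndependent ℚ S
  have hbf : b.Finite := hS.subset hbS
  have := hbf.fintype
  have hc : finrank ℚ (span ℚ S) = Fintype.card b := by
    rw [← hsp]
    have := finrank_span_eq_card hli
    rwa [Subtype.range_coe] at this
  let e : Fin (Fintype.card b) ≃ b := (Fintype.equivFin b).symm
  have h := hd (Fintype.card b) (fun i => (e i : ℂ)) (fun i => hK _ (hbS (e i).2))
    (hli.comp e e.injective)
  have h3 := trdeg_le (K := ℂ) (A := range (fun i => (e i : ℂ)) ∪ range fun i => F.E (e i)) hB (by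
    rintro x (⟨j, rfl⟩ | ⟨j, rfl⟩)
    · exact h1 _ (hbS (e j).2)
    · exact h2 _ (hbS (e j).2))
  rw [hc]
  have h4 := h.trans (add_le_add_left h3 _)
  exact_mod_cast h4

theorem E_rat_cl {x : ℂ} (hx : x ∈ F.K) (q : ℚ) {B : Set ℂ} (h : F.E x ∈ M.closure B) :
    F.E (q * x) ∈ M.closure B := by
  have hq : (q : ℂ) * x ∈ F.K := mul_mem (SubfieldClass.ratCast_mem _ q) hx
  refine cl_of_pow (n := q.den) q.den_pos.ne' ?_
  rw [← E_nat hq, ← mul_assoc]
  have : ((q.den : ℂ) * (q : ℂ)) = (q.num : ℂ) := by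
    have h1 : (q.den : ℚ) * q = q.num := by rw [mul_comm]; exact Rat.mul_den_eq_num q
    exact_mod_cast congrArg (fun x : ℚ => (x : ℂ)) h1
  rw [this, E_int hx]
  obtain ⟨m, hm | hm⟩ := q.num.eq_nat_or_neg
  · rw [hm, zpow_natCast]; exact cl_pow m h
  · rw [hm, zpow_neg, zpow_natCast]; exact cl_inv (cl_pow m h)

/-- the three products -/
noncomputable def yy (F : ExpField) : Fin 3 → ℂ := ![F.e, F.e * F.l, F.p * F.l]

/-- those of them which are logarithms of algebraic numbers -/
def SS (F : ExpField) (P : Fin 3 → Prop) : Set ℂ := {z | ∃ j, P j ∧ z = yy F j}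

theorem SS_fin (P : Fin 3 → Prop) : (SS F P).Finite := by
  refine (finite_range (yy F)).subset ?_
  rintro _ ⟨j, -, rfl⟩
  exact ⟨j, rfl⟩

theorem yy_K (j : Fin 3) : yy F j ∈ F.K := by
  fin_cases j
  · exact F.e_mem
  · exact mul_mem F.e_mem F.l_mem
  · exact mul_mem F.p_mem F.l_mem

theorem span_log {P : Fin 3 → Prop} (hP : ∀ j, P j → IsLog F (yy F j)) {u : ℂ}
    (hu : u ∈ span ℚ (SS F P)) : IsLog F u := by
  induction hu using Submodule.span_induction with
  | mem x hx => obtain ⟨j, hj, rfl⟩ := hx; exact hP j hj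
  | zero => exact log_zero
  | add x y _ _ hx hy => exact log_add hx hy
  | smul q x _ hx => rw [Rat.smul_def]; exact log_rat hx q

theorem one_notMem (hL : LindemannWeierstrass F) {P : Fin 3 → Prop}
    (hP : ∀ j, P j → IsLog F (yy F j)) : (1 : ℂ) ∉ span ℚ (SS F P) := by
  intro h
  have := (span_log hP h).2
  rw [F.E_one] at this
  exact e_tr hL this

theorem p_cl {P : Fin 3 → Prop} (hP : ∀ j, P j → IsLog F (yy F j))
    (h : (F.l : ℂ) ∈ span ℚ (SS F P) ⊔ span ℚ {(1 : ℂ)}) : (F.p : ℂ) ∈ M.closure {(F.e : ℂ)} := by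
  obtain ⟨u, hu, z, hz, hl⟩ := Submodule.mem_sup.1 h
  obtain ⟨q, rfl⟩ := Submodule.mem_span_singleton.1 hz
  have h1 := span_log hP hu
  have hK : (q : ℂ) * 1 ∈ F.K := mul_mem (SubfieldClass.ratCast_mem _ q) (one_mem _)
  rw [← F.E_l, ← hl, Rat.smul_def, F.E_add _ h1.1 _ hK]
  refine cl_mul (cl_empty_le (mem_cl_empty.2 h1.2)) (E_rat_cl (one_mem _) q ?_)
  rw [F.E_one]
  exact cl_self rfl

theorem fsup {A : Submodule ℚ ℂ} (hA : FiniteDimensional ℚ A) {x : ℂ} (hx : x ∉ A) :
    finrank ℚ (A ⊔ span ℚ {x} : Submodule ℚ ℂ) = finrank ℚ A + 1 := by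
  have hx0 : x ≠ 0 := fun h => hx (h ▸ A.zero_mem)
  have h1 := Submodule.finrank_sup_add_finrank_inf_eq A (span ℚ {x})
  have h2 : A ⊓ span ℚ {x} = ⊥ := ((Submodule.disjoint_span_singleton' hx0).2 hx).eq_bot
  rw [h2, finrank_bot, add_zero, finrank_span_singleton hx0] at h1
  exact h1

/-- real elements -/
theorem im_zero {S : Set ℂ} (hS : ∀ x ∈ S, x.im = 0) {z : ℂ} (hz : z ∈ span ℚ S) : z.im = 0 := by
  induction hz using Submodule.span_induction with
  | mem x hx => exact hS x hx
  | zero => rfl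
  | add x y _ _ hx hy => rw [Complex.add_im, hx, hy, add_zero]
  | smul q x _ hx =>
    rw [Rat.smul_def, ← Complex.ofReal_ratCast, Complex.im_ofReal_mul, hx, mul_zero]

theorem yy_im (j : Fin 3) : (yy F j).im = 0 := by
  fin_cases j
  · exact Complex.ofReal_im _
  · show ((F.e : ℂ) * F.l).im = 0
    rw [← Complex.ofReal_mul]; exact Complex.ofReal_im _
  · show ((F.p : ℂ) * F.l).im = 0
    rw [← Complex.ofReal_mul]; exact Complex.ofReal_im _

theorem ip_E (B : Set ℂ) : F.E (Complex.I * F.p) ∈ M.closure B := by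
  have hK : Complex.I * F.p ∈ F.K := mul_mem (alg_mem alg_I) F.p_mem
  refine cl_of_pow (n := 2) two_ne_zero ?_
  rw [← E_nat hK, (F.ker _ (mul_mem (natCast_mem _ 2) hK)).2 ⟨1, by push_cast; ring⟩]
  exact cl_one _

theorem ip_im {S : Set ℂ} (hS : ∀ x ∈ S, x.im = 0) : Complex.I * (F.p : ℂ) ∉ span ℚ S := by
  intro h
  have h1 := im_zero hS h
  have h2 : (Complex.I * (F.p : ℂ)).im = F.p := by simp
  rw [h2] at h1
  linarith [F.p_bound.1]

/-- the bound for the space generated by the logarithms, `1`, `i π` and `l` -/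
theorem bound (hL : LindemannWeierstrass F) (hd : SchanuelDefect F k) {P : Fin 3 → Prop}
    (hP : ∀ j, P j → IsLog F (yy F j)) {B : Set ℂ} {m : ℕ} (hB : B.encard ≤ m)
    (he : (F.e : ℂ) ∈ M.closure B) (hp : (F.p : ℂ) ∈ M.closure B) (hl : (F.l : ℂ) ∈ M.closure B) :
    finrank ℚ (span ℚ (SS F P)) + 2 ≤ m + k ∧
      ((F.l : ℂ) ∉ span ℚ (SS F P) ⊔ span ℚ {(1 : ℂ)} →
        finrank ℚ (span ℚ (SS F P)) + 3 ≤ m + k) := by
  have hf := FiniteDimensional.span_of_finite ℚ (SS_fin (F := F) P)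
  have hyB : ∀ j, yy F j ∈ M.closure B := by
    intro j
    fin_cases j
    exacts [he, cl_mul he hl, cl_mul hp hl]
  have e1 := fsup hf (one_notMem hL hP)
  have hip : Complex.I * (F.p : ℂ) ∈ M.closure B := cl_mul (cl_I _) hp
  have hSim : ∀ x ∈ SS F P, x.im = 0 := by rintro _ ⟨j, -, rfl⟩; exact yy_im j
  have hSK : ∀ x ∈ SS F P, x ∈ F.K := by rintro _ ⟨j, -, rfl⟩; exact yy_K j
  have hSB : ∀ x ∈ SS F P, x ∈ M.closure B := by rintro _ ⟨j, -, rfl⟩; exact hyB j
  have hSE : ∀ x ∈ SS F P, F.E x ∈ M.closure B := by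
    rintro _ ⟨j, hj, rfl⟩; exact cl_empty_le (mem_cl_empty.2 (hP j hj).2)
  have s1 : span ℚ (SS F P) ⊔ span ℚ {(1 : ℂ)} = span ℚ (SS F P ∪ {1}) := by
    rw [Submodule.span_union]
  refine ⟨?_, fun hn => ?_⟩
  · have e2 := fsup (A := span ℚ (SS F P) ⊔ span ℚ {(1 : ℂ)}) inferInstance
      (x := Complex.I * (F.p : ℂ)) (by
        rw [s1]
        apply ip_im
        rintro x (hx | rfl)
        · exact hSim x hx
        · exact Complex.one_im)
    have e3 := defect_span hd (S := SS F P ∪ {1} ∪ {Complex.I * (F.p : ℂ)})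
      (((SS_fin P).union (finite_singleton _)).union (finite_singleton _)) (by
        rintro x ((hx | rfl) | rfl)
        · exact hSK x hx
        · exact one_mem _
        · exact mul_mem (alg_mem alg_I) F.p_mem) hB (by
        rintro x ((hx | rfl) | rfl)
        · exact hSB x hx
        · exact cl_one _
        · exact hip) (by
        rintro x ((hx | rfl) | rfl)
        · exact hSE x hx
        · rw [F.E_one]; exact he
        · exact ip_E _)
    rw [Submodule.span_union, Submodule.span_union, e2, e1] at e3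
    omega
  · have e2 := fsup (A := span ℚ (SS F P) ⊔ span ℚ {(1 : ℂ)}) inferInstance hn
    have s2 : span ℚ (SS F P) ⊔ span ℚ {(1 : ℂ)} ⊔ span ℚ {(F.l : ℂ)} =
        span ℚ (SS F P ∪ {1} ∪ {(F.l : ℂ)}) := by
      rw [Submodule.span_union, Submodule.span_union]
    have e3 := fsup (A := span ℚ (SS F P) ⊔ span ℚ {(1 : ℂ)} ⊔ span ℚ {(F.l : ℂ)}) inferInstance
      (x := Complex.I * (F.p : ℂ)) (by
        rw [s2]
        apply ip_im
        rintro x ((hx | rfl) | rfl)
        · exact hSim x hx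
        · exact Complex.one_im
        · exact Complex.ofReal_im _)
    have e4 := defect_span hd (S := SS F P ∪ {1} ∪ {(F.l : ℂ)} ∪ {Complex.I * (F.p : ℂ)})
      ((((SS_fin P).union (finite_singleton _)).union (finite_singleton _)).union
        (finite_singleton _)) (by
        rintro x (((hx | rfl) | rfl) | rfl)
        · exact hSK x hx
        · exact one_mem _
        · exact F.l_mem
        · exact mul_mem (alg_mem alg_I) F.p_mem) hB (by
        rintro x (((hx | rfl) | rfl) | rfl)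
        · exact hSB x hx
        · exact cl_one _
        · exact hl
        · exact hip) (by
        rintro x (((hx | rfl) | rfl) | rfl)
        · exact hSE x hx
        · rw [F.E_one]; exact he
        · rw [F.E_l]; exact hp
        · exact ip_E _)
    rw [Submodule.span_union, Submodule.span_union, Submodule.span_union, e3, e2, e1] at e4
    omega

end

end Pool.Agent.Helper56.SA
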