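import Pool.Agent.Helper56.SA.Op
import Pool.Agent.Helper56.SA.Fin2

/-! The number of algebraic values is at most the defect, continued. -/

set_option autoImplicit false

namespace Pool.Agent.Helper56.SA

open Pool.Agent.Helper35.EM Pool.Agent.Helper56.EM Module Submodule Set

section

variable {F : ExpField} {k : ℕ}

theorem yy_ne (j : Fin 3) : yy F j ≠ 0 := by
  fin_cases j
  exacts [e_ne, mul_ne_zero e_ne l_ne, mul_ne_zero p_ne l_ne]

theorem SS_range (P : Fin 3 → Prop) : SS F P = range fun j : {j // P j} => yy F j := by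
  ext z
  constructor
  · rintro ⟨j, hj, rfl⟩; exact ⟨⟨j, hj⟩, rfl⟩
  · rintro ⟨⟨j, hj⟩, rfl⟩; exact ⟨j, hj, rfl⟩

/-- a rational multiple of `e` -/
theorem no_mult (hL : LindemannWeierstrass F) {q c : ℚ} (hl : (F.l : ℂ) = q)
    (hp : (F.p : ℂ) = c * F.e) : False := by
  have h1 : F.E ((q - 1 : ℚ) * 1) = c := by
    have h2 : (((q - 1 : ℚ) : ℂ)) * 1 = F.l + (-1) := by rw [hl]; push_cast; ring
    rw [h2, F.E_add _ F.l_mem _ (neg_mem (one_mem _)), F.E_l, E_neg (one_mem _), F.E_one, hp]
    have := e_ne (F := F)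
    field_simp
  by_cases hq : q = 1
  · rw [hq, Rat.cast_one] at hl
    have h2 := F.E_l
    rw [hl, F.E_one] at h2
    have h3 : F.e = F.p := by exact_mod_cast h2
    linarith [F.e_bound.2, F.p_bound.1]
  · have hq' : q - 1 ≠ 0 := sub_ne_zero.2 hq
    have hK : (((q - 1 : ℚ) : ℂ)) * 1 ∈ F.K := mul_mem (SubfieldClass.ratCast_mem _ _) (one_mem _)
    have h2 := E_rat (F := F) hK (q - 1)⁻¹ (by rw [h1]; exact alg_rat c)
    have h3 : (((q - 1)⁻¹ : ℚ) : ℂ) * ((((q - 1 : ℚ) : ℂ)) * 1) = 1 := by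
      rw [← mul_assoc, ← Rat.cast_mul, inv_mul_cancel₀ hq']; simp
    rw [h3, F.E_one] at h2
    exact e_tr hL h2

theorem two_le (hL : LindemannWeierstrass F) {P : Fin 3 → Prop} (h0 : P 0) (h1 : P 1) (h2 : P 2) :
    2 ≤ finrank ℚ (span ℚ (SS F P)) := by
  have hf := FiniteDimensional.span_of_finite ℚ (SS_fin (F := F) P)
  have key : ∀ u v : ℂ, u ∈ span ℚ (SS F P) → v ∈ span ℚ (SS F P) →
      (∀ s t : ℚ, (s : ℂ) * u + t * v = 0 → s = 0 ∧ t = 0) →
      2 ≤ finrank ℚ (span ℚ (SS F P)) := by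
    intro u v hu hv h
    have hli : LinearIndependent ℚ ![(⟨u, hu⟩ : span ℚ (SS F P)), ⟨v, hv⟩] := by
      rw [LinearIndependent.pair_iff]
      intro s t hst
      apply h
      have := congrArg Subtype.val hst
      simpa [Rat.smul_def] using this
    have := hli.fintype_card_le_finrank
    simpa using this
  have m0 : (F.e : ℂ) ∈ span ℚ (SS F P) := subset_span ⟨0, h0, rfl⟩
  have m1 : (F.e : ℂ) * F.l ∈ span ℚ (SS F P) := subset_span ⟨1, h1, rfl⟩
  have m2 : (F.p : ℂ) * F.l ∈ span ℚ (SS F P) := subset_span ⟨2, h2, rfl⟩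
  by_cases hl : ∃ q : ℚ, (F.l : ℂ) = q
  · obtain ⟨q, hq⟩ := hl
    have hq0 : (q : ℂ) ≠ 0 := by rw [← hq]; exact l_ne
    refine key _ _ m0 m2 fun s t h => ?_
    have ht : t = 0 := by
      by_contra ht
      have ht' : (t : ℂ) ≠ 0 := by exact_mod_cast ht
      refine no_mult hL (c := -s / (t * q)) hq ?_
      push_cast
      rw [hq] at h
      field_simp
      linear_combination h
    refine ⟨?_, ht⟩
    rw [ht, Rat.cast_zero, zero_mul, add_zero] at h
    exact_mod_cast (mul_eq_zero.1 h).resolve_right e_ne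
  · refine key _ _ m0 m1 fun s t h => ?_
    have h' : (F.e : ℂ) * (s + t * F.l) = 0 := by linear_combination h
    have h'' := (mul_eq_zero.1 h').resolve_left e_ne
    have ht : t = 0 := by
      by_contra ht
      have ht' : (t : ℂ) ≠ 0 := by exact_mod_cast ht
      apply hl
      refine ⟨-s / t, ?_⟩
      push_cast
      field_simp
      linear_combination h''
    refine ⟨?_, ht⟩
    rw [ht, Rat.cast_zero, zero_mul, add_zero] at h''
    exact_mod_cast h''

/-- the number of logarithms -/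
theorem card_P (P : Fin 3 → Prop) [DecidablePred P] : Fintype.card {j // P j} =
    (if P 0 then 1 else 0) + (if P 1 then 1 else 0) + (if P 2 then 1 else 0) := by
  rw [Fintype.card_subtype, Finset.card_filter, Fin.sum_univ_three]

theorem dich (hL : LindemannWeierstrass F) (P : Fin 3 → Prop) [DecidablePred P] :
    finrank ℚ (span ℚ (SS F P)) = Fintype.card {j // P j} ∨
    (Fintype.card {j // P j} ≤ finrank ℚ (span ℚ (SS F P)) + 1 ∧ ∃ c : Fin 3 → ℚ,
      (∀ j, ¬ P j → c j = 0) ∧ (∃ j, c j ≠ 0) ∧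
      (c 0 : ℂ) * F.e + (c 1 * F.e + c 2 * F.p) * F.l = 0) := by
  by_cases h : LinearIndependent ℚ (fun j : {j // P j} => yy F j)
  · left
    rw [SS_range, finrank_span_eq_card h]
  · right
    have hf := FiniteDimensional.span_of_finite ℚ (SS_fin (F := F) P)
    constructor
    · by_cases h3 : P 0 ∧ P 1 ∧ P 2
      · have := two_le hL h3.1 h3.2.1 h3.2.2
        rw [card_P, if_pos h3.1, if_pos h3.2.1, if_pos h3.2.2]
        omega
      · by_cases hj : ∃ j, P j
        · obtain ⟨j, hj⟩ := hj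
          have h1 : 1 ≤ finrank ℚ (span ℚ (SS F P)) := by
            rw [Nat.one_le_iff_ne_zero]
            intro h0
            rw [Submodule.finrank_eq_zero] at h0
            have : yy F j ∈ span ℚ (SS F P) := subset_span ⟨j, hj, rfl⟩
            rw [h0] at this
            exact yy_ne j this
          have h2 : Fintype.card {j // P j} ≤ 2 := by
            rw [card_P]
            split_ifs <;> first | omega | (exfalso; tauto)
          omega
        · push Not at hj
          have : Fintype.card {j // P j} = 0 := by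
            rw [card_P, if_neg (hj 0), if_neg (hj 1), if_neg (hj 2)]
          omega
    · rw [Fintype.not_linearIndependent_iff] at h
      obtain ⟨g, hg, i, hi⟩ := h
      let c : Fin 3 → ℚ := fun j => if hj : P j then g ⟨j, hj⟩ else 0
      have hc0 : ∀ j, ¬ P j → c j = 0 := fun j hj => dif_neg hj
      have hc1 : ∀ i : {j // P j}, c i = g i := fun i => dif_pos i.2
      refine ⟨c, hc0, ⟨i, by rw [hc1]; exact hi⟩, ?_⟩
      have e1 : ∑ j ∈ Finset.univ.filter P, (c j : ℂ) * yy F j =
          ∑ i : {j // P j}, (c i : ℂ) * yy F i :=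
        Finset.sum_subtype _ (by simp) (fun j => (c j : ℂ) * yy F j)
      have e2 : ∑ j ∈ Finset.univ.filter P, (c j : ℂ) * yy F j = ∑ j, (c j : ℂ) * yy F j := by
        refine Finset.sum_subset (Finset.filter_subset _ _) fun j _ hj => ?_
        have hj' : ¬ P j := fun h => hj (by simp [h])
        rw [hc0 j hj', Rat.cast_zero, zero_mul]
      have h1 : ∑ j, (c j : ℂ) * yy F j = 0 := by
        rw [← e2, e1, ← hg]
        exact Finset.sum_congr rfl fun i _ => by rw [hc1, Rat.smul_def]
      rw [Fin.sum_univ_three] at h1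
      have h2 : (c 0 : ℂ) * F.e + c 1 * (F.e * F.l) + c 2 * (F.p * F.l) = 0 := h1
      linear_combination h2

theorem en1 (a : ℂ) : ({a} : Set ℂ).encard ≤ (1 : ℕ) := by simp

theorem en2 (a b : ℂ) : ({a, b} : Set ℂ).encard ≤ (2 : ℕ) := by
  refine (encard_insert_le _ _).trans ?_
  rw [encard_singleton]
  norm_num

theorem en3 (a b c : ℂ) : ({a, b, c} : Set ℂ).encard ≤ (3 : ℕ) := by
  refine (encard_insert_le _ _).trans ?_
  refine (add_le_add_left (en2 b c) 1).trans ?_
  norm_num

/-- consequences of a relation between the logarithms -/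
theorem rel_cl {c : Fin 3 → ℚ} (hc : ∃ j, c j ≠ 0)
    (h : (c 0 : ℂ) * F.e + (c 1 * F.e + c 2 * F.p) * F.l = 0) :
    (∀ B : Set ℂ, (F.e : ℂ) ∈ M.closure B → (F.p : ℂ) ∈ M.closure B → (F.l : ℂ) ∈ M.closure B) ∨
      ∃ r : ℚ, (F.p : ℂ) = r * F.e := by
  by_cases ht : (c 1 : ℂ) * F.e + c 2 * F.p = 0
  · right
    rw [ht, zero_mul, add_zero] at h
    have h0 : c 0 = 0 := by exact_mod_cast (mul_eq_zero.1 h).resolve_right e_ne
    have h2 : c 2 ≠ 0 := by
      intro h2
      rw [h2, Rat.cast_zero, zero_mul, add_zero] at ht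
      have h1 : c 1 = 0 := by exact_mod_cast (mul_eq_zero.1 ht).resolve_right e_ne
      obtain ⟨j, hj⟩ := hc
      apply hj
      fin_cases j
      exacts [h0, h1, h2]
    have h2' : (c 2 : ℂ) ≠ 0 := by exact_mod_cast h2
    refine ⟨-c 1 / c 2, ?_⟩
    push_cast
    field_simp
    linear_combination ht
  · left
    intro B he hp
    have e : (F.l : ℂ) = (-(c 0 : ℂ) * F.e) / (c 1 * F.e + c 2 * F.p) := by
      rw [eq_div_iff ht]
      linear_combination h
    rw [e]
    exact cl_div (cl_mul (cl_neg (cl_ratCast _ _)) he)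
      (cl_add (cl_mul (cl_ratCast _ _) he) (cl_mul (cl_ratCast _ _) hp))

/-- elements of the span -/
theorem span_eq {P : Fin 3 → Prop} {u : ℂ} (hu : u ∈ span ℚ (SS F P)) : ∃ g : Fin 3 → ℚ,
    (∀ j, ¬ P j → g j = 0) ∧ u = g 0 * F.e + (g 1 * F.e + g 2 * F.p) * F.l := by
  classical
  induction hu using Submodule.span_induction with
  | mem x hx =>
    obtain ⟨i, hi, rfl⟩ := hx
    refine ⟨Pi.single i 1, fun j hj => ?_, ?_⟩
    · have : j ≠ i := fun e => hj (e ▸ hi)
      simp [this]
    · fin_cases i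
      · show (F.e : ℂ) = _
        simp
      · show (F.e : ℂ) * F.l = _
        simp
      · show (F.p : ℂ) * F.l = _
        simp
  | zero => exact ⟨0, fun _ _ => rfl, by simp⟩
  | add x y _ _ hx hy =>
    obtain ⟨g, g1, g2⟩ := hx
    obtain ⟨g', g1', g2'⟩ := hy
    refine ⟨g + g', fun j hj => by simp [g1 j hj, g1' j hj], ?_⟩
    rw [g2, g2']
    simp only [Pi.add_apply]
    push_cast; ring
  | smul r x _ hx =>
    obtain ⟨g, g1, g2⟩ := hx
    refine ⟨r • g, fun j hj => by simp [g1 j hj], ?_⟩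
    rw [g2, Rat.smul_def]
    simp only [Pi.smul_apply, smul_eq_mul]
    push_cast; ring

/-- the logarithm of `π` in the span -/
theorem l_eq {P : Fin 3 → Prop} (h : (F.l : ℂ) ∈ span ℚ (SS F P) ⊔ span ℚ {(1 : ℂ)}) :
    ∃ (g : Fin 3 → ℚ) (q : ℚ), (∀ j, ¬ P j → g j = 0) ∧
      (F.l : ℂ) * (1 - (g 1 * F.e + g 2 * F.p)) = g 0 * F.e + q := by
  obtain ⟨u, hu, z, hz, hl⟩ := Submodule.mem_sup.1 h
  obtain ⟨q, rfl⟩ := Submodule.mem_span_singleton.1 hz
  obtain ⟨g, g1, g2⟩ := span_eq hu
  refine ⟨g, q, g1, ?_⟩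
  rw [g2, Rat.smul_def] at hl
  linear_combination -hl

theorem l_cl {B : Set ℂ} (he : (F.e : ℂ) ∈ M.closure B) (hp : (F.p : ℂ) ∈ M.closure B)
    {g : Fin 3 → ℚ} {q : ℚ} (h : (F.l : ℂ) * (1 - (g 1 * F.e + g 2 * F.p)) = g 0 * F.e + q)
    (h0 : (1 : ℂ) - (g 1 * F.e + g 2 * F.p) ≠ 0) : (F.l : ℂ) ∈ M.closure B := by
  have e : (F.l : ℂ) = (g 0 * F.e + q) / (1 - (g 1 * F.e + g 2 * F.p)) := by
    rw [eq_div_iff h0]
    linear_combination h
  rw [e]
  exact cl_div (cl_add (cl_mul (cl_ratCast _ _) he) (cl_ratCast _ _))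
    (cl_sub (cl_one _) (cl_add (cl_mul (cl_ratCast _ _) he) (cl_mul (cl_ratCast _ _) hp)))

theorem one_sub_ne {x : ℂ} (hx : ¬ IsAlgebraic ℚ x) (r : ℚ) : (1 : ℂ) - r * x ≠ 0 := by
  intro h
  apply hx
  have hr : (r : ℂ) ≠ 0 := by
    intro h0
    rw [h0] at h
    simp at h
  have : x = ((1 / r : ℚ) : ℂ) := by
    push_cast
    field_simp
    linear_combination -h
  rw [this]
  exact alg_rat _

/-- the number of algebraic values is at most the defect -/
theorem nalg_le {f : Fin 5 → Fin 3} (hL : LindemannWeierstrass F) (hB : Baker F) (ha : Adm f)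
    (hf : ∀ i, Is (five F i) (f i)) (hd : SchanuelDefect F k) : nalg f ≤ k := by
  classical
  have halg : ∀ i, f i ≠ 2 → IsAlgebraic ℚ (five F i) := fun i hi => is_alg (hf i) hi
  set P : Fin 3 → Prop := ![f 3 ≠ 2, f 2 ≠ 2, f 4 ≠ 2] with hPd
  have hP : ∀ j, P j → IsLog F (yy F j) := by
    intro j hj
    refine ⟨yy_K j, ?_⟩
    fin_cases j
    · exact halg 3 hj
    · exact halg 2 hj
    · exact halg 4 hj
  have hn : nalg f = (if f 0 ≠ 2 then 1 else 0) + (if f 1 ≠ 2 then 1 else 0) +
      Fintype.card {j // P j} := by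
    rw [card_P, nalg_eq]
    have e0 : P 0 ↔ f 3 ≠ 2 := Iff.rfl
    have e1 : P 1 ↔ f 2 ≠ 2 := Iff.rfl
    have e2 : P 2 ↔ f 4 ≠ 2 := Iff.rfl
    simp only [e0, e1, e2]
    ring
  have ee : (F.e : ℂ) ∈ M.closure {(F.e : ℂ)} := cl_self rfl
  have hmono : ∀ {z w : ℂ}, z ∈ M.closure {(F.e : ℂ)} → z ∈ M.closure {(F.e : ℂ), w} := by
    intro z w hz
    exact cl_mono (by simp) hz
  have hl2 : (F.l : ℂ) ∈ M.closure {(F.e : ℂ), (F.l : ℂ)} := cl_self (by simp)
  have d := dich hL P
  by_cases h0 : f 0 = 2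
  · by_cases h1 : f 1 = 2
    · -- `π + e` and `π e` transcendental
      rw [hn, h0, h1]
      simp only [ne_eq, not_true_eq_false, if_false, zero_add]
      by_cases hl : (F.l : ℂ) ∈ span ℚ (SS F P) ⊔ span ℚ {(1 : ℂ)}
      · have hp := p_cl hP hl
        rcases d with d | ⟨d, c, hc, hc', hr⟩
        · have := (bound hL hd hP (en2 (F.e : ℂ) F.l) (hmono ee) (hmono hp) hl2).1
          omega
        · have hl1 : (F.l : ℂ) ∈ M.closure {(F.e : ℂ)} := by
            rcases rel_cl hc' hr with h | ⟨r, hr⟩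
            · exact h _ ee hp
            · obtain ⟨g, q, -, hg⟩ := l_eq hl
              refine l_cl ee hp hg ?_
              have e : (1 : ℂ) - (g 1 * F.e + g 2 * F.p) =
                  1 - ((g 1 + g 2 * r : ℚ) : ℂ) * F.e := by rw [hr]; push_cast; ring
              rw [e]
              exact one_sub_ne (e_tr hL) _
          have := (bound hL hd hP (en1 (F.e : ℂ)) ee hp hl1).1
          omega
      · rcases d with d | ⟨d, c, hc, hc', hr⟩
        · have := (bound hL hd hP (en3 (F.e : ℂ) F.p F.l) (cl_self (by simp)) (cl_self (by simp))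
            (cl_self (by simp))).2 hl
          omega
        · rcases rel_cl hc' hr with h | ⟨r, hr⟩
          · have := (bound hL hd hP (en2 (F.e : ℂ) F.p) (cl_self (by simp)) (cl_self (by simp))
              (h _ (cl_self (by simp)) (cl_self (by simp)))).2 hl
            omega
          · have := (bound hL hd hP (en2 (F.e : ℂ) F.l) (cl_self (by simp)) (by
              rw [hr]; exact cl_mul (cl_ratCast _ _) (cl_self (by simp))) hl2).2 hl
            omega
    · -- `π e` algebraic
      rw [hn, h0, if_pos h1]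
      simp only [ne_eq, not_true_eq_false, if_false, zero_add]
      have hr := halg 1 h1
      change IsAlgebraic ℚ ((F.p : ℂ) * F.e) at hr
      have hp : (F.p : ℂ) ∈ M.closure {(F.e : ℂ)} := by
        have e : (F.p : ℂ) = ((F.p : ℂ) * F.e) / F.e := by
          have := e_ne (F := F)
          field_simp
        rw [e]
        exact cl_div (cl_empty_le (mem_cl_empty.2 hr)) ee
      have k1 := ha.e123.resolve_left h1
      have k2 := ha.e124.resolve_left h1
      have k3 := ha.e134.resolve_left h1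
      have hP1 : ∀ g : Fin 3 → ℚ, (∀ j, ¬ P j → g j = 0) →
          (g 1 = 0 ∧ g 2 = 0) ∨ (g 0 = 0 ∧ g 2 = 0) ∨ (g 0 = 0 ∧ g 1 = 0) := by
        intro g hg
        have q0 : f 3 = 2 → g 0 = 0 := fun h => hg 0 fun h' => h' h
        have q1 : f 2 = 2 → g 1 = 0 := fun h => hg 1 fun h' => h' h
        have q2 : f 4 = 2 → g 2 = 0 := fun h => hg 2 fun h' => h' h
        tauto
      rcases d with d | ⟨d, c, hc, hc', hcr⟩
      · by_cases hl : (F.l : ℂ) ∈ span ℚ (SS F P) ⊔ span ℚ {(1 : ℂ)}
        · obtain ⟨g, q, hg0, hg⟩ := l_eq hl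
          have hl1 : (F.l : ℂ) ∈ M.closure {(F.e : ℂ)} := by
            refine l_cl ee hp hg ?_
            rcases hP1 g hg0 with ⟨g1, g2⟩ | ⟨-, g2⟩ | ⟨-, g1⟩
            · rw [g1, g2]; simp
            · rw [g2, Rat.cast_zero, zero_mul, add_zero]
              exact one_sub_ne (e_tr hL) _
            · rw [g1, Rat.cast_zero, zero_mul, zero_add]
              exact one_sub_ne (p_tr hB) _
          have := (bound hL hd hP (en1 (F.e : ℂ)) ee hp hl1).1
          omega
        · have := (bound hL hd hP (en2 (F.e : ℂ) F.l) (hmono ee) (hmono hp) hl2).2 hl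
          omega
      · exfalso
        obtain ⟨j, hj⟩ := hc'
        apply hj
        rcases hP1 c hc with ⟨g1, g2⟩ | ⟨g0, g2⟩ | ⟨g0, g1⟩
        · rw [g1, g2] at hcr
          simp only [Rat.cast_zero, zero_mul, add_zero] at hcr
          have g0 : c 0 = 0 := by exact_mod_cast (mul_eq_zero.1 hcr).resolve_right e_ne
          fin_cases j
          exacts [g0, g1, g2]
        · rw [g0, g2] at hcr
          simp only [Rat.cast_zero, zero_mul, add_zero, zero_add] at hcr
          have g1 : c 1 = 0 := by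
            have := (mul_eq_zero.1 hcr).resolve_right l_ne
            exact_mod_cast (mul_eq_zero.1 this).resolve_right e_ne
          fin_cases j
          exacts [g0, g1, g2]
        · rw [g0, g1] at hcr
          simp only [Rat.cast_zero, zero_mul, zero_add] at hcr
          have g2 : c 2 = 0 := by
            have := (mul_eq_zero.1 hcr).resolve_right l_ne
            exact_mod_cast (mul_eq_zero.1 this).resolve_right p_ne
          fin_cases j
          exacts [g0, g1, g2]
  · -- `π + e` algebraic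
    have h1 : f 1 = 2 := ha.e01.resolve_left h0
    have h3 : f 3 = 2 := ha.e03.resolve_left h0
    rw [hn, h1, if_pos h0]
    simp only [ne_eq, not_true_eq_false, if_false, add_zero]
    have hs := halg 0 h0
    change IsAlgebraic ℚ ((F.p : ℂ) + F.e) at hs
    have hsne : (F.p : ℂ) + F.e ≠ 0 := by
      have h : F.p + F.e ≠ 0 := by linarith [F.p_bound.1, F.e_bound.1]
      exact_mod_cast h
    have hp : (F.p : ℂ) ∈ M.closure {(F.e : ℂ)} := by
      have e : (F.p : ℂ) = ((F.p : ℂ) + F.e) - F.e := by ring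
      rw [e]
      exact cl_sub (cl_empty_le (mem_cl_empty.2 hs)) ee
    have hg0 : ∀ g : Fin 3 → ℚ, (∀ j, ¬ P j → g j = 0) → g 0 = 0 :=
      fun g hg => hg 0 fun h' => h' h3
    -- no relation
    have hrel : ∀ g1 g2 : ℚ, (g1 : ℂ) * F.e + g2 * F.p = 0 → g1 = 0 ∧ g2 = 0 := by
      intro g1 g2 h
      have h12 : g1 = g2 := by
        by_contra hne
        apply e_tr hL
        have hne' : (g1 : ℂ) - g2 ≠ 0 := sub_ne_zero.2 (by exact_mod_cast hne)
        have e : (F.e : ℂ) = (-(g2 : ℂ) * (F.p + F.e)) / (g1 - g2) := by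
          rw [eq_div_iff hne']
          linear_combination h
        rw [e, div_eq_mul_inv]
        refine ((alg_rat g2).neg.mul hs).mul ?_
        have := (alg_rat (g1 - g2)).inv
        push_cast at this
        exact this
      rw [h12] at h
      have h2 : (g2 : ℂ) * (F.p + F.e) = 0 := by linear_combination h
      have h3 : g2 = 0 := by exact_mod_cast (mul_eq_zero.1 h2).resolve_right hsne
      exact ⟨h12.trans h3, h3⟩
    rcases d with d | ⟨d, c, hc, hc', hcr⟩
    · by_cases hl : (F.l : ℂ) ∈ span ℚ (SS F P) ⊔ span ℚ {(1 : ℂ)}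
      · exfalso
        -- `p = e ^ q` times an algebraic number
        obtain ⟨u, hu, z, hz, hlu⟩ := Submodule.mem_sup.1 hl
        obtain ⟨q, rfl⟩ := Submodule.mem_span_singleton.1 hz
        have hlog := span_log hP hu
        have hK : (q : ℂ) * 1 ∈ F.K := mul_mem (SubfieldClass.ratCast_mem _ q) (one_mem _)
        have h5 : (F.p : ℂ) = F.E u * F.E (q * 1) := by
          rw [← F.E_l, ← hlu, Rat.smul_def, F.E_add _ hlog.1 _ hK]
        have h6 : F.E (q * 1) ^ q.den = (F.e : ℂ) ^ q.num := by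
          rw [← E_nat hK, ← mul_assoc]
          have : ((q.den : ℂ) * (q : ℂ)) = (q.num : ℂ) := by
            have h1 : (q.den : ℚ) * q = q.num := by rw [mul_comm]; exact Rat.mul_den_eq_num q
            exact_mod_cast congrArg (fun x : ℚ => (x : ℂ)) h1
          rw [this, E_int (one_mem _), F.E_one]
        have h7 : (F.p : ℂ) ^ q.den * (F.e : ℂ) ^ (-q.num).toNat =
            F.E u ^ q.den * (F.e : ℂ) ^ q.num.toNat := by
          have em : (q.num.toNat : ℤ) = q.num + (-q.num).toNat := by omega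
          have fa : (F.e : ℂ) ^ q.num.toNat =
              (F.e : ℂ) ^ q.num * (F.e : ℂ) ^ (-q.num).toNat := by
            rw [← zpow_natCast, ← zpow_natCast, em, zpow_add₀ e_ne]
          rw [fa, ← h6, h5]
          ring
        have h8 := polyind (a := (F.e : ℂ)) (s := (F.p : ℂ) + F.e) (c := F.E u ^ q.den)
          (fun h => e_tr hL (mem_cl_empty.1 h)) (mem_cl_empty.2 hs) hsne
          (cl_pow _ (mem_cl_empty.2 hlog.2)) (pow_ne_zero _ (E_ne hlog.1))
          (i1 := (-q.num).toNat) (i2 := q.num.toNat) (j1 := q.den) (j2 := 0) (by omega)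
          (Or.inr rfl) (by
            rw [pow_zero, mul_one, ← h7]
            have e : (F.p : ℂ) + F.e - F.e = F.p := by ring
            rw [e]; ring)
        exact q.den_pos.ne' h8.2.2.1
      · have := (bound hL hd hP (en2 (F.e : ℂ) F.l) (hmono ee) (hmono hp) hl2).2 hl
        omega
    · exfalso
      obtain ⟨j, hj⟩ := hc'
      apply hj
      have g0 := hg0 c hc
      rw [g0, Rat.cast_zero, zero_mul, zero_add] at hcr
      obtain ⟨g1, g2⟩ := hrel _ _ ((mul_eq_zero.1 hcr).resolve_right l_ne)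
      fin_cases j
      exacts [g0, g1, g2]

end

end Pool.Agent.Helper56.SA
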