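import Pool.Agent.Helper35.EM.ConjModel
import Pool.Agent.Helper56.SA.Alg
import Pool.Agent.Helper56.SA.Def

/-! Consequences of the relative rank inequality. -/

set_option autoImplicit false

namespace Pool.Agent.Helper56.SA

open Pool.Agent.Helper35.EM Pool.Agent.Helper56.EM Module Submodule Set

/-- the relative rank inequality over the base `P0` -/
structure Tw {K : IntermediateField ℚ ℂ} (lam : K →ₗ[ℚ] ℂ) (P0 : Submodule ℚ (ℂ × ℂ)) : Prop where
  fin : FiniteDimensional ℚ P0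
  top : M.eRk (co P0) ≠ ⊤
  mem : ∀ p ∈ P0, ∃ x : K, (x : ℂ) = p.1 ∧ lam x = p.2
  rk : ∀ V : Submodule ℚ K, FiniteDimensional ℚ V →
        (finrank ℚ V : ℕ∞) + M.eRk (co (V.map (gr lam) ⊓ P0)) ≤
        M.eRk (co (V.map (gr lam))) +
          (finrank ℚ (V.map (gr lam) ⊓ P0 : Submodule ℚ (ℂ × ℂ)) : ℕ∞)

section

variable {K : IntermediateField ℚ ℂ} {lam : K →ₗ[ℚ] ℂ} {P0 : Submodule ℚ (ℂ × ℂ)}

theorem Tw.map_X0 (hT : Tw lam P0) : (P0.comap (gr lam)).map (gr lam) = P0 := by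
  rw [Submodule.map_comap_eq, inf_eq_right]
  intro p hp
  obtain ⟨x, h1, h2⟩ := hT.mem p hp
  exact ⟨x, Prod.ext h1 h2⟩

theorem finrank_gr (V : Submodule ℚ K) : finrank ℚ (V.map (gr lam)) = finrank ℚ V :=
  (LinearEquiv.finrank_eq (Submodule.equivMapOfInjective (gr lam) (gr_inj lam) V)).symm

theorem Tw.finX0 (hT : Tw lam P0) : FiniteDimensional ℚ (P0.comap (gr lam)) := by
  have hf := hT.fin
  have e := Submodule.equivMapOfInjective (gr lam) (gr_inj lam) (P0.comap (gr lam))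
  rw [hT.map_X0] at e
  exact Module.Finite.equiv e.symm

theorem Tw.finrankX0 (hT : Tw lam P0) : finrank ℚ (P0.comap (gr lam)) = finrank ℚ P0 := by
  rw [← finrank_gr (lam := lam), hT.map_X0]

/-- the elements of a list -/
abbrev ls (w : List K) : Set K := {x | x ∈ w}

/-- their values in `ℂ` -/
abbrev lc (w : List K) : Set ℂ := (fun x : K => (x : ℂ)) '' ls w

/-- a finite list of logarithms, generic over the base -/
structure Sg (lam : K →ₗ[ℚ] ℂ) (P0 : Submodule ℚ (ℂ × ℂ)) (w : List K) : Prop where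
  log : ∀ x ∈ w, Complex.exp (lam x) ∈ M.closure ∅
  dim : finrank ℚ (P0.comap (gr lam) ⊔ span ℚ (ls w) : Submodule ℚ K) = finrank ℚ P0 + w.length

/-- generic lists -/
def Gn (s : Set ℂ) : List K → Prop
  | [] => True
  | x :: w => (x : ℂ) ∉ M.closure (s ∪ lc w) ∧ Gn s w

theorem ls_cons (x : K) (w : List K) : ls (x :: w) = insert x (ls w) := by
  ext y; simp [ls]

theorem lc_cons (x : K) (w : List K) : lc (x :: w) = insert (x : ℂ) (lc w) := by
  rw [lc, ls_cons, image_insert_eq]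

theorem finite_ls (w : List K) : (ls w).Finite := w.finite_toSet

theorem encard_lc (w : List K) : (lc w).encard ≤ w.length := by
  induction w with
  | nil => simp [lc, ls]
  | cons x w ih =>
    rw [lc_cons]
    refine (encard_insert_le _ _).trans ?_
    rw [List.length_cons]
    push_cast
    gcongr

theorem Tw.mem_co (_hT : Tw lam P0) {w : List K} (hw : ∀ x ∈ w, Complex.exp (lam x) ∈ M.closure ∅)
    {y : K} (hy : y ∈ (P0.comap (gr lam) ⊔ span ℚ (ls w) : Submodule ℚ K)) :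
    (y : ℂ) ∈ M.closure (co P0 ∪ lc w) ∧ Complex.exp (lam y) ∈ M.closure (co P0 ∪ lc w) := by
  obtain ⟨x0, h0, z, hz, rfl⟩ := Submodule.mem_sup.1 hy
  have h1 : (x0 : ℂ) ∈ M.closure (co P0 ∪ lc w) := cl_self (Or.inl ⟨_, h0, Or.inl rfl⟩)
  have h2 : Complex.exp (lam x0) ∈ M.closure (co P0 ∪ lc w) := cl_self (Or.inl ⟨_, h0, Or.inr rfl⟩)
  have h3 : (z : ℂ) ∈ M.closure (co P0 ∪ lc w) ∧
      Complex.exp (lam z) ∈ M.closure (co P0 ∪ lc w) := by
    clear hy
    induction hz using Submodule.span_induction with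
    | mem x hx => exact ⟨cl_self (Or.inr ⟨x, hx, rfl⟩), cl_empty_le (hw x hx)⟩
    | zero =>
      refine ⟨cl_zero _, ?_⟩
      rw [map_zero, Complex.exp_zero]; exact cl_one _
    | add x y _ _ hx hy =>
      refine ⟨cl_add hx.1 hy.1, ?_⟩
      rw [map_add]; exact cl_exp_add hx.2 hy.2
    | smul q x _ hx =>
      refine ⟨cl_smul q hx.1, ?_⟩
      rw [map_smul]; exact cl_exp_smul q hx.2
  refine ⟨cl_add h1 h3.1, ?_⟩
  rw [map_add]; exact cl_exp_add h2 h3.2

theorem finrank_sup_one {A : Submodule ℚ K} (hA : FiniteDimensional ℚ A) {x : K} (hx : x ∉ A) :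
    finrank ℚ (A ⊔ span ℚ {x} : Submodule ℚ K) = finrank ℚ A + 1 := by
  have hx0 : x ≠ 0 := fun h => hx (h ▸ A.zero_mem)
  have h1 := Submodule.finrank_sup_add_finrank_inf_eq A (span ℚ {x})
  have h2 : A ⊓ span ℚ {x} = ⊥ := ((Submodule.disjoint_span_singleton' hx0).2 hx).eq_bot
  rw [h2, finrank_bot, add_zero, finrank_span_singleton hx0] at h1
  exact h1

/-- a logarithm not in the span is generic -/
theorem Tw.gen (hT : Tw lam P0) {w : List K} (hs : Sg lam P0 w) {x : K}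
    (hx : Complex.exp (lam x) ∈ M.closure ∅)
    (hn : x ∉ (P0.comap (gr lam) ⊔ span ℚ (ls w) : Submodule ℚ K)) :
    Sg lam P0 (x :: w) ∧ (x : ℂ) ∉ M.closure (co P0 ∪ lc w) := by
  have hf0 := hT.finX0
  have hf1 : FiniteDimensional ℚ (span ℚ (ls w)) := FiniteDimensional.span_of_finite ℚ (finite_ls w)
  have e : (P0.comap (gr lam) ⊔ span ℚ (ls (x :: w)) : Submodule ℚ K) =
      (P0.comap (gr lam) ⊔ span ℚ (ls w)) ⊔ span ℚ {x} := by
    rw [ls_cons, Submodule.span_insert, sup_assoc, sup_comm (span ℚ {x})]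
  have hd := finrank_sup_one (A := P0.comap (gr lam) ⊔ span ℚ (ls w)) inferInstance hn
  have hlog : ∀ y ∈ x :: w, Complex.exp (lam y) ∈ M.closure ∅ := by
    intro y hy
    rcases List.mem_cons.1 hy with rfl | hy
    · exact hx
    · exact hs.log y hy
  have hS : Sg lam P0 (x :: w) := ⟨hlog, by rw [e, hd, hs.dim, List.length_cons]; ring⟩
  refine ⟨hS, fun hc => ?_⟩
  set V : Submodule ℚ K := P0.comap (gr lam) ⊔ span ℚ (ls (x :: w)) with hV
  have hfV : FiniteDimensional ℚ V := by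
    have := FiniteDimensional.span_of_finite ℚ (finite_ls (x :: w))
    rw [hV]; infer_instance
  have hP : V.map (gr lam) ⊓ P0 = P0 := by
    rw [inf_eq_right, ← hT.map_X0]
    exact Submodule.map_mono le_sup_left
  have h1 := hT.rk V hfV
  rw [hP] at h1
  have h2 : M.eRk (co (V.map (gr lam))) ≤ M.eRk (co P0) + w.length := by
    have h3 : co (V.map (gr lam)) ⊆ M.closure (co P0 ∪ lc w) := by
      have h4 : M.closure (co P0 ∪ lc (x :: w)) ⊆ M.closure (co P0 ∪ lc w) := by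
        apply cl_le
        rw [lc_cons]
        rintro y (hy | hy)
        · exact cl_self (Or.inl hy)
        · rcases hy with rfl | hy
          · exact hc
          · exact cl_self (Or.inr hy)
      rintro a ⟨p, ⟨y, hy, rfl⟩, ha⟩
      have h5 := hT.mem_co hlog hy
      rcases ha with rfl | rfl
      · exact h4 h5.1
      · exact h4 h5.2
    calc M.eRk (co (V.map (gr lam))) ≤ M.eRk (M.closure (co P0 ∪ lc w)) := M.eRk_mono h3
      _ = M.eRk (co P0 ∪ lc w) := M.eRk_closure_eq _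
      _ ≤ M.eRk (co P0) + M.eRk (lc w) := M.eRk_union_le_eRk_add_eRk _ _
      _ ≤ M.eRk (co P0) + w.length := by
        gcongr
        exact (M.eRk_le_encard _).trans (encard_lc w)
  have h3 : finrank ℚ V = finrank ℚ P0 + w.length + 1 := by
    rw [hS.dim, List.length_cons]; ring
  rw [h3] at h1
  obtain ⟨r, hr⟩ := ENat.ne_top_iff_exists.1 hT.top
  have h4 := h1.trans (add_le_add_left h2 _)
  rw [← hr] at h4
  norm_cast at h4
  omega

/-- finitely many logarithms are in the span of the base and a generic list -/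
theorem Tw.stage (hT : Tw lam P0) {A : Set K} (hA : A.Finite)
    (hl : ∀ x ∈ A, Complex.exp (lam x) ∈ M.closure ∅) :
    ∃ w : List K, Sg lam P0 w ∧ Gn (co P0) w ∧
      ∀ x ∈ A, x ∈ (P0.comap (gr lam) ⊔ span ℚ (ls w) : Submodule ℚ K) := by
  induction A, hA using Set.Finite.induction_on with
  | empty =>
    refine ⟨[], ⟨by simp, ?_⟩, trivial, by simp⟩
    have : (ls ([] : List K)) = ∅ := by ext; simp [ls]
    rw [this, span_empty, sup_bot_eq, hT.finrankX0]
    rfl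
  | @insert x A _ _ ih =>
    obtain ⟨w, h1, h2, h3⟩ := ih fun y hy => hl y (mem_insert_of_mem _ hy)
    by_cases hx : x ∈ (P0.comap (gr lam) ⊔ span ℚ (ls w) : Submodule ℚ K)
    · refine ⟨w, h1, h2, ?_⟩
      rintro y (rfl | hy)
      · exact hx
      · exact h3 y hy
    · obtain ⟨h4, h5⟩ := hT.gen h1 (hl x (mem_insert _ _)) hx
      refine ⟨x :: w, h4, ⟨h5, h2⟩, ?_⟩
      rintro y (rfl | hy)
      · exact Submodule.mem_sup_right (subset_span (by simp [ls]))
      · have hle : (P0.comap (gr lam) ⊔ span ℚ (ls w) : Submodule ℚ K) ≤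
            P0.comap (gr lam) ⊔ span ℚ (ls (x :: w)) := by
          apply sup_le_sup_left
          apply span_mono
          rw [ls_cons]; exact subset_insert _ _
        exact hle (h3 y hy)

/-- logarithms are in `L0` plus a span -/
theorem Tw.log_mem (_hT : Tw lam P0) {L0 : Submodule ℚ ℂ}
    (hL0 : ∀ p ∈ P0, Complex.exp p.2 ∈ M.closure ∅ → p.1 ∈ L0) {w : List K} (hs : Sg lam P0 w)
    {x : K} (hx : Complex.exp (lam x) ∈ M.closure ∅)
    (h : x ∈ (P0.comap (gr lam) ⊔ span ℚ (ls w) : Submodule ℚ K)) :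
    (x : ℂ) ∈ L0 ⊔ span ℚ (lc w) := by
  obtain ⟨x0, h0, z, hz, rfl⟩ := Submodule.mem_sup.1 h
  have h1 : Complex.exp (lam z) ∈ M.closure ∅ ∧ (z : ℂ) ∈ span ℚ (lc w) := by
    clear h hx
    induction hz using Submodule.span_induction with
    | mem x hx => exact ⟨hs.log x hx, subset_span ⟨x, hx, rfl⟩⟩
    | zero => exact ⟨by rw [map_zero, Complex.exp_zero]; exact cl_one _, Submodule.zero_mem _⟩
    | add x y _ _ hx hy =>
      exact ⟨by rw [map_add]; exact cl_exp_add hx.1 hy.1, Submodule.add_mem _ hx.2 hy.2⟩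
    | smul q x _ hx =>
      exact ⟨by rw [map_smul]; exact cl_exp_smul q hx.1, Submodule.smul_mem _ q hx.2⟩
  have h2 : Complex.exp (lam x0) ∈ M.closure ∅ := by
    rw [map_add, Complex.exp_add] at hx
    have := cl_div hx h1.1
    rwa [mul_div_cancel_right₀ _ (Complex.exp_ne_zero _)] at this
  exact Submodule.add_mem _ (Submodule.mem_sup_left (hL0 _ h0 h2)) (Submodule.mem_sup_right h1.2)

end

/-! ### Linear forms -/

/-- injectivity of the linear forms in elements of `L` with algebraic coefficients -/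
def BK (L : Submodule ℚ ℂ) : Prop :=
  ∀ (n : ℕ) (u : Fin n → ℂ) (c₀ : ℂ) (c : Fin n → ℂ), (∀ i, u i ∈ L) → c₀ ∈ M.closure ∅ →
    (∀ i, c i ∈ M.closure ∅) → c₀ + ∑ i, c i * u i = 0 →
    c₀ = 0 ∧ ∀ φ : ℂ →ₗ[ℚ] ℚ, ∑ i, (φ (c i) : ℂ) * u i = 0

theorem BK.base {m : ℕ} (x : Fin m → ℂ)
    (h : ∀ (c₀ : ℂ) (c : Fin m → ℂ), c₀ ∈ M.closure ∅ → (∀ j, c j ∈ M.closure ∅) →
      c₀ + ∑ j, c j * x j = 0 → c₀ = 0 ∧ ∀ j, c j = 0) : BK (span ℚ (range x)) := by
  intro n u c₀ c hu h0 hc hs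
  have hq : ∀ i, ∃ q : Fin m → ℚ, u i = ∑ j, (q j : ℂ) * x j := by
    intro i
    obtain ⟨q, hq⟩ := (Submodule.mem_span_range_iff_exists_fun ℚ).1 (hu i)
    refine ⟨q, ?_⟩
    rw [← hq]
    refine Finset.sum_congr rfl fun j _ => ?_
    rw [Rat.smul_def]
  choose q hq using hq
  have h1 := h c₀ (fun j => ∑ i, c i * (q i j : ℂ)) h0
    (fun j => cl_sum _ _ fun i _ => cl_mul (hc i) (cl_ratCast _ _)) (by
      rw [← hs]
      congr 1
      simp_rw [hq, Finset.mul_sum, Finset.sum_mul]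
      rw [Finset.sum_comm]
      refine Finset.sum_congr rfl fun i _ => Finset.sum_congr rfl fun j _ => by ring)
  refine ⟨h1.1, fun φ => ?_⟩
  simp_rw [hq, Finset.mul_sum]
  rw [Finset.sum_comm]
  refine Finset.sum_eq_zero fun j _ => ?_
  have h2 : ∑ i, φ (c i) * q i j = 0 := by
    have h3 := congrArg φ (h1.2 j)
    rw [map_sum, map_zero] at h3
    rw [← h3]
    refine Finset.sum_congr rfl fun i _ => ?_
    have : c i * (q i j : ℂ) = (q i j) • c i := by rw [Rat.smul_def]; ring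
    rw [this, map_smul, smul_eq_mul, mul_comm]
  have h3 : ∑ i, (φ (c i) : ℂ) * (q i j : ℂ) = 0 := by exact_mod_cast congrArg (fun r : ℚ => (r : ℂ)) h2
  have h4 : ∑ i, (φ (c i) : ℂ) * ((q i j : ℂ) * x j) = (∑ i, (φ (c i) : ℂ) * (q i j : ℂ)) * x j := by
    rw [Finset.sum_mul]
    exact Finset.sum_congr rfl fun i _ => by ring
  rw [h4, h3, zero_mul]

theorem BK.step {L : Submodule ℚ ℂ} (h : BK L) {s : Set ℂ} (hL : ∀ x ∈ L, x ∈ M.closure s) {x : ℂ}
    (hx : x ∉ M.closure s) : BK (L ⊔ span ℚ {x}) := by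
  intro n u c₀ c hu h0 hc hs
  have hq : ∀ i, ∃ v ∈ L, ∃ q : ℚ, u i = v + (q : ℂ) * x := by
    intro i
    obtain ⟨v, hv, z, hz, hvz⟩ := Submodule.mem_sup.1 (hu i)
    obtain ⟨q, rfl⟩ := Submodule.mem_span_singleton.1 hz
    exact ⟨v, hv, q, by rw [← hvz, Rat.smul_def]⟩
  choose v hv q hq using hq
  have e1 : c₀ + ∑ i, c i * u i = (c₀ + ∑ i, c i * v i) + (∑ i, c i * (q i : ℂ)) * x := by
    simp_rw [hq, mul_add, Finset.sum_add_distrib, Finset.sum_mul]
    rw [add_assoc]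
    congr 2
    exact Finset.sum_congr rfl fun i _ => by ring
  rw [e1] at hs
  have m1 : c₀ + ∑ i, c i * v i ∈ M.closure s :=
    cl_add (cl_empty_le h0) (cl_sum _ _ fun i _ => cl_mul (cl_empty_le (hc i)) (hL _ (hv i)))
  have m2 : ∑ i, c i * (q i : ℂ) ∈ M.closure s :=
    cl_sum _ _ fun i _ => cl_mul (cl_empty_le (hc i)) (cl_ratCast _ _)
  have h2 := lin2 hx m1 m2 (cl_zero s) (cl_zero s) (by rw [hs]; ring)
  obtain ⟨h3, h4⟩ := h n v c₀ c hv h0 hc h2.1
  refine ⟨h3, fun φ => ?_⟩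
  have h5 : ∑ i, φ (c i) * q i = 0 := by
    have h6 := congrArg φ h2.2
    rw [map_sum, map_zero] at h6
    rw [← h6]
    refine Finset.sum_congr rfl fun i _ => ?_
    have : c i * (q i : ℂ) = (q i) • c i := by rw [Rat.smul_def]; ring
    rw [this, map_smul, smul_eq_mul, mul_comm]
  have h6 : ∑ i, (φ (c i) : ℂ) * (q i : ℂ) = 0 := by exact_mod_cast congrArg (fun r : ℚ => (r : ℂ)) h5
  have h7 : ∑ i, (φ (c i) : ℂ) * u i =
      ∑ i, (φ (c i) : ℂ) * v i + (∑ i, (φ (c i) : ℂ) * (q i : ℂ)) * x := by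
    simp_rw [hq, mul_add, Finset.sum_add_distrib, Finset.sum_mul]
    congr 1
    exact Finset.sum_congr rfl fun i _ => by ring
  rw [h7, h4 φ, h6]
  ring

theorem BK.indep {L : Submodule ℚ ℂ} (h : BK L) {n : ℕ} {u : Fin n → ℂ} (hu : ∀ i, u i ∈ L)
    (hi : LinearIndependent ℚ u) {c₀ : ℂ} {c : Fin n → ℂ} (h0 : c₀ ∈ M.closure ∅)
    (hc : ∀ i, c i ∈ M.closure ∅) (hs : c₀ + ∑ i, c i * u i = 0) : c₀ = 0 ∧ ∀ i, c i = 0 := by
  obtain ⟨h1, h2⟩ := h n u c₀ c hu h0 hc hs
  refine ⟨h1, fun i => ?_⟩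
  rw [← Module.forall_dual_apply_eq_zero_iff ℚ]
  intro φ
  have h3 := h2 φ
  rw [Fintype.linearIndependent_iff] at hi
  exact hi (fun i => φ (c i)) (by
    rw [← h3]
    exact Finset.sum_congr rfl fun i _ => by rw [Rat.smul_def]) i

section

variable {K : IntermediateField ℚ ℂ} {lam : K →ₗ[ℚ] ℂ} {P0 : Submodule ℚ (ℂ × ℂ)}

theorem BK.gen {L : Submodule ℚ ℂ} (h : BK L) {s : Set ℂ} (hL : ∀ x ∈ L, x ∈ M.closure s)
    (w : List K) (hw : Gn s w) : BK (L ⊔ span ℚ (lc w)) ∧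
      ∀ x ∈ L ⊔ span ℚ (lc w), x ∈ M.closure (s ∪ lc w) := by
  induction w with
  | nil =>
    have : lc ([] : List K) = ∅ := by simp [lc, ls]
    rw [this, span_empty, sup_bot_eq, union_empty]
    exact ⟨h, hL⟩
  | cons x w ih =>
    obtain ⟨h1, h2⟩ := ih hw.2
    have e : L ⊔ span ℚ (lc (x :: w)) = (L ⊔ span ℚ (lc w)) ⊔ span ℚ {(x : ℂ)} := by
      rw [lc_cons, Submodule.span_insert, sup_assoc, sup_comm (span ℚ {(x : ℂ)})]
    rw [e]
    refine ⟨h1.step h2 hw.1, ?_⟩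
    intro y hy
    have hsub : s ∪ lc w ⊆ s ∪ lc (x :: w) := by
      rw [lc_cons]; exact union_subset_union_right _ (subset_insert _ _)
    obtain ⟨v, hv, z, hz, rfl⟩ := Submodule.mem_sup.1 hy
    obtain ⟨q, rfl⟩ := Submodule.mem_span_singleton.1 hz
    refine cl_add (cl_mono hsub (h2 v hv)) (cl_smul q (cl_self (Or.inr ?_)))
    rw [lc_cons]; exact mem_insert _ _

/-- the space of linear forms at a generic list -/
theorem Nb.gen {W : Submodule kk ℂ} (h : Nb 2 W) {s : Set ℂ} (hW : ∀ x ∈ W, x ∈ M.closure s)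
    (w : List K) (hw : Gn s w) : Nb 2 (W ⊔ span kk (lc w)) ∧
      ∀ x ∈ W ⊔ span kk (lc w), x ∈ M.closure (s ∪ lc w) := by
  induction w with
  | nil =>
    have : lc ([] : List K) = ∅ := by simp [lc, ls]
    rw [this, span_empty, sup_bot_eq, union_empty]
    exact ⟨h, hW⟩
  | cons x w ih =>
    obtain ⟨h1, h2⟩ := ih hw.2
    set W' := W ⊔ span kk (lc w) with hW'
    have e : W ⊔ span kk (lc (x :: w)) = (W'.prod (span kk {(1 : ℂ)})).map (ev (x : ℂ)) := by
      rw [lc_cons, Submodule.span_insert, sup_comm (span kk {(x : ℂ)}), ← sup_assoc, ← hW']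
      apply le_antisymm
      · apply sup_le
        · intro y hy
          exact ⟨(y, 0), ⟨hy, Submodule.zero_mem _⟩, by rw [ev_apply]; simp⟩
        · rw [span_le]
          rintro _ rfl
          exact ⟨(0, 1), ⟨Submodule.zero_mem _, Submodule.mem_span_singleton_self _⟩, by
            rw [ev_apply]; simp⟩
      · rintro _ ⟨⟨u, v⟩, ⟨hu, hv⟩, rfl⟩
        obtain ⟨c, rfl⟩ := Submodule.mem_span_singleton.1 (show v ∈ span kk {(1 : ℂ)} from hv)
        rw [ev_apply]
        refine Submodule.add_mem_sup hu ?_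
        rw [smul_mul_assoc, one_mul]
        exact Submodule.smul_mem _ _ (Submodule.mem_span_singleton_self _)
    rw [e]
    have hf := h1.fin
    have d0 : D0 (W'.prod (span kk {(1 : ℂ)})) = W' := by
      ext u
      rw [mem_D0]
      exact ⟨fun hu => hu.1, fun hu => ⟨hu, Submodule.zero_mem _⟩⟩
    have d1 : D1 (W'.prod (span kk {(1 : ℂ)})) = span kk {(1 : ℂ)} := by
      ext v
      rw [mem_D1]
      exact ⟨fun ⟨u, hu⟩ => hu.2, fun hv => ⟨0, Submodule.zero_mem _, hv⟩⟩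
    have r1 : finrank kk (span kk {(1 : ℂ)}) = 1 := finrank_span_singleton one_ne_zero
    have c1 : ∀ v ∈ span kk {(1 : ℂ)}, v ∈ M.closure (s ∪ lc w) := by
      intro v hv
      obtain ⟨c, rfl⟩ := Submodule.mem_span_singleton.1 hv
      exact smul_cl c (cl_one _)
    have hfD : FiniteDimensional kk (W'.prod (span kk {(1 : ℂ)})) := by
      have hle : W'.prod (span kk {(1 : ℂ)}) ≤ W'.map (LinearMap.inl kk ℂ ℂ) ⊔
          (span kk {(1 : ℂ)}).map (LinearMap.inr kk ℂ ℂ) := by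
        rintro ⟨u, v⟩ ⟨hu, hv⟩
        have e : (u, v) = LinearMap.inl kk ℂ ℂ u + LinearMap.inr kk ℂ ℂ v := by simp
        rw [e]
        exact Submodule.add_mem_sup (Submodule.mem_map_of_mem hu) (Submodule.mem_map_of_mem hv)
      exact Submodule.finiteDimensional_of_le hle
    refine ⟨Nb.filt (m0 := 2) (m1 := 0) hw.1 hfD (fun d hd => h2 _ hd.1) (fun d hd => c1 _ hd.2)
      (by rw [d0]; exact h1) (by rw [d1]; exact Nb.of_finrank inferInstance (by rw [r1]))
      le_rfl (by rw [d1, r1]; norm_num), ?_⟩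
    have hsub : s ∪ lc w ⊆ s ∪ lc (x :: w) := by
      rw [lc_cons]; exact union_subset_union_right _ (subset_insert _ _)
    rintro _ ⟨⟨u, v⟩, ⟨hu, hv⟩, rfl⟩
    rw [ev_apply]
    refine cl_add (cl_mono hsub (h2 u hu)) (cl_mul (cl_mono hsub (c1 v hv)) (cl_self (Or.inr ?_)))
    rw [lc_cons]; exact mem_insert _ _

end

end Pool.Agent.Helper56.SA
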