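import Pool.Agent.Helper56.SA.CasA
import Pool.Agent.Helper56.SA.CasD
import Pool.Agent.Helper56.SA.Excl

/-! Algebraic values near given numbers; continuity. -/

set_option autoImplicit false

namespace Pool.Agent.Helper56.SA

open Pool.Agent.Helper35.EM Pool.Agent.Helper56.EM Set

/-- a positive algebraic number whose logarithm is a rational multiple of the logarithm of a rational
number with given valuations -/
structure Val (i : Fin 4) (z : ℝ) : Prop where
  pos : 0 < z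
  alg : (z : ℂ) ∈ M.closure ∅
  log : ∃ q c : ℚ, 0 < q ∧ c ≠ 0 ∧ Real.log z = c * Real.log q ∧
    ∀ j, padicValRat (Pr j) q = if j = i then 1 else 0

theorem sqrt_irr {q : ℚ} (hq : 0 < q) {P : ℕ} [hP : Fact P.Prime] (hv : padicValRat P q = 1) :
    Irrational (Real.sqrt q) := by
  rintro ⟨w, hw⟩
  have h1 : (w : ℝ) ^ 2 = q := by
    rw [hw, Real.sq_sqrt (by exact_mod_cast hq.le)]
  have h2 : w ^ 2 = q := by exact_mod_cast h1
  have h3 : padicValRat P (w ^ 2) = 1 := by rw [h2, hv]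
  rw [padicValRat.pow] at h3
  push_cast at h3
  omega

theorem exists_val (i : Fin 4) (k : Fin 3) (hk : k ≠ 2) (y ε : ℝ) (hy : 0 < y) (hε : 0 < ε) :
    ∃ z : ℝ, Val i z ∧ |z - y| < ε ∧ Is (z : ℂ) k ∧ (k = 0 → ∃ r : ℚ, z = r) ∧
      (k = 1 → Irrational z) := by
  fin_cases k
  · obtain ⟨q, h1, h2, h3⟩ := exists_rat i y ε hy hε
    refine ⟨q, ⟨by exact_mod_cast h1, ?_, ⟨q, 1, h1, one_ne_zero, by simp, h3⟩⟩, h2, ?_,
      fun _ => ⟨q, rfl⟩, fun h => absurd h (by decide)⟩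
    · have := cl_ratCast ∅ q
      exact_mod_cast this
    · show Rat' _
      exact ⟨q, by push_cast; rfl⟩
  · obtain ⟨q, h1, h2, h3⟩ := exists_rat i (y ^ 2) (ε * y) (by positivity) (by positivity)
    have hqR : (0 : ℝ) < q := by exact_mod_cast h1
    have hs := Real.sqrt_pos.2 hqR
    have hirr : Irrational (Real.sqrt q) := by
      have : Fact (Pr i).Prime := ⟨Pr_prime i⟩
      exact sqrt_irr h1 (P := Pr i) (by rw [h3 i, if_pos rfl])
    have halg : ((Real.sqrt q : ℝ) : ℂ) ∈ M.closure ∅ := by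
      apply cl_of_pow (n := 2) two_ne_zero
      rw [← Complex.ofReal_pow, Real.sq_sqrt hqR.le]
      have := cl_ratCast ∅ q
      exact_mod_cast this
    refine ⟨Real.sqrt q, ⟨hs, halg, ⟨q, 1 / 2, h1, by norm_num, ?_, h3⟩⟩, ?_, ?_,
      fun h => absurd h (by decide), fun _ => hirr⟩
    · rw [Real.log_sqrt hqR.le]; push_cast; ring
    · have e : Real.sqrt q - y = (q - y ^ 2) / (Real.sqrt q + y) := by
        rw [eq_div_iff (by positivity)]
        nlinarith [Real.sq_sqrt hqR.le]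
      rw [e, abs_div, abs_of_pos (by positivity : 0 < Real.sqrt q + y), div_lt_iff₀ (by positivity)]
      refine h2.trans_le ?_
      nlinarith
    · show IsAlgebraic ℚ _ ∧ ¬ Rat' _
      refine ⟨mem_cl_empty.1 halg, ?_⟩
      rintro ⟨r, hr⟩
      apply hirr
      refine ⟨r, ?_⟩
      exact_mod_cast hr.symm
  · exact absurd rfl hk

theorem algInd_of {n : ℕ} (idx : Fin n → Fin 4) (hinj : Function.Injective idx) {z : Fin n → ℝ}
    (hz : ∀ j, Val (idx j) (z j)) : AlgInd z := by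
  refine ⟨fun j => (hz j).pos, fun j => (hz j).alg, ?_⟩
  intro β h
  choose q c hq hc hl hv using fun j => (hz j).log
  have h1 := logind (fun j => Pr (idx j)) (fun j => Pr_prime _) q hq (fun i j => by
    rw [hv j]
    by_cases hij : i = j
    · subst hij; simp
    · rw [if_neg hij, if_neg fun h => hij (hinj h)]) (fun j => β j * c j) (by
      rw [← h]
      refine Finset.sum_congr rfl fun j _ => ?_
      rw [hl j]; push_cast; ring)
  intro j
  exact (mul_eq_zero.1 (h1 j)).resolve_right (hc j)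

theorem Val.ne_one {i : Fin 4} {z : ℝ} (h : Val i z) : z ≠ 1 := by
  rintro rfl
  obtain ⟨q, c, hq, hc, hl, hv⟩ := h.log
  rw [Real.log_one] at hl
  have hc' : (c : ℝ) ≠ 0 := by exact_mod_cast hc
  have h1 := (mul_eq_zero.1 hl.symm).resolve_left hc'
  have hqR : (0 : ℝ) < q := by exact_mod_cast hq
  have h2 : (q : ℝ) = 1 := Real.eq_one_of_pos_of_log_eq_zero hqR h1
  have h3 : q = 1 := by exact_mod_cast h2
  have h4 := hv i
  rw [h3, padicValRat.one, if_pos rfl] at h4
  omega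

theorem near2 {g : ℝ → ℝ → ℝ} {x y : ℝ} (hg : ContinuousAt (fun q : ℝ × ℝ => g q.1 q.2) (x, y))
    {ε : ℝ} (hε : 0 < ε) : ∃ δ > 0, ∀ a b, |a - x| < δ → |b - y| < δ → |g a b - g x y| < ε := by
  obtain ⟨δ, hδ, h⟩ := Metric.continuousAt_iff.1 hg ε hε
  refine ⟨δ, hδ, fun a b ha hb => ?_⟩
  have := h (x := (a, b)) (by
    rw [Prod.dist_eq, max_lt_iff, Real.dist_eq, Real.dist_eq]
    exact ⟨ha, hb⟩)
  rwa [Real.dist_eq] at this

theorem near3 {g : ℝ → ℝ → ℝ → ℝ} {x y z : ℝ}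
    (hg : ContinuousAt (fun q : ℝ × ℝ × ℝ => g q.1 q.2.1 q.2.2) (x, y, z))
    {ε : ℝ} (hε : 0 < ε) : ∃ δ > 0, ∀ a b c, |a - x| < δ → |b - y| < δ → |c - z| < δ →
      |g a b c - g x y z| < ε := by
  obtain ⟨δ, hδ, h⟩ := Metric.continuousAt_iff.1 hg ε hε
  refine ⟨δ, hδ, fun a b c ha hb hc => ?_⟩
  have := h (x := (a, b, c)) (by
    rw [Prod.dist_eq, max_lt_iff, Prod.dist_eq, max_lt_iff, Real.dist_eq, Real.dist_eq,
      Real.dist_eq]
    exact ⟨ha, hb, hc⟩)
  rwa [Real.dist_eq] at this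

end Pool.Agent.Helper56.SA
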